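import Pool.Agent.H31.PH.Lay
import Pool.Graph.R_pool_sql_team_seeded_63374d34.N328.PH.Par2

/-!
# The assembly
-/

set_option autoImplicit false
set_option linter.unusedSectionVars false

namespace Pool.Agent.H31.PH

open Matrix Finset
open scoped Kronecker
open Pool.Agent.Y342.SK (Sg Sg.mul Sg.neg)
open Pool.Agent.N328.PH (HasPH)
open Pool.Agent.H108R3.Had (PUk)

section big

variable {R X T : Type} [Fintype R] [DecidableEq R] [Fintype X] [DecidableEq X] [Fintype T]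
  [DecidableEq T] {K : Matrix R R ℤ} {ρ : T → ℕ} {w : T → ℤ} {A : T → Matrix X X ℤ}
  {B : T → Matrix R R ℤ} {lam : T → R → ℤ}

theorem sum_sum_anti {M : Type} [AddCommGroup M] (f : T → T → M)
    (h : ∀ s t, s ≠ t → f s t + f t s = 0) (h2 : ∀ x : M, x + x = 0 → x = 0) :
    ∑ s, ∑ t, f s t = ∑ t, f t t := by
  have e1 : ∑ s, ∑ t, (f s t + f t s) = ∑ t, (f t t + f t t) := by
    refine Finset.sum_congr rfl fun s _ => ?_
    rw [Finset.sum_eq_single s]
    · intro t _ hts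
      exact h s t (Ne.symm hts)
    · intro hn; exact absurd (mem_univ _) hn
  have e2 : ∑ s, ∑ t, (f s t + f t s) = (∑ s, ∑ t, f s t) + ∑ s, ∑ t, f s t := by
    simp only [Finset.sum_add_distrib]
    congr 1
    exact Finset.sum_comm
  rw [e2, Finset.sum_add_distrib] at e1
  rw [← sub_eq_zero]
  apply h2
  have : (∑ s, ∑ t, f s t) - (∑ t, f t t) + ((∑ s, ∑ t, f s t) - ∑ t, f t t) =
      (∑ s, ∑ t, f s t) + (∑ s, ∑ t, f s t) - (∑ t, f t t + ∑ t, f t t) := by abel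
  rw [this, e1, sub_self]

theorem mat_two {ι κ : Type} (Y : Matrix ι κ ℤ) (h : Y + Y = 0) : Y = 0 := by
  ext i j
  have := congrFun (congrFun h i) j
  rw [Matrix.add_apply, Matrix.zero_apply] at this
  rw [Matrix.zero_apply]
  omega

/-- the soft part -/
def Zm (A : T → Matrix X X ℤ) (B : T → Matrix R R ℤ) (t0 : T) : Matrix (X × R) (X × R) ℤ :=
  (1 : Matrix X X ℤ) ⊗ₖ B t0 + ∑ t, A t ⊗ₖ B t

theorem Zm_sg (hA : Sys X T ρ w A) (hBs : ∀ t g h, Sg (B t g h)) (t0 : T) (i j : X × R) :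
    Sg (Zm A B t0 i j) := by
  obtain ⟨x, g⟩ := i
  obtain ⟨y, h⟩ := j
  unfold Zm
  rw [Matrix.add_apply, Matrix.sum_apply]
  simp only [kroneckerMap_apply]
  by_cases hxy : x = y
  · subst hxy
    rw [Matrix.one_apply_eq, one_mul]
    have : ∑ t, A t x x * B t g h = 0 := Finset.sum_eq_zero fun t _ => by rw [hA.A0 t x, zero_mul]
    rw [this, add_zero]
    exact hBs _ _ _
  · rw [Matrix.one_apply_ne hxy, zero_mul, zero_add]
    obtain ⟨t, ht, ht'⟩ := hA.cov x y hxy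
    rw [Finset.sum_eq_single t]
    · exact ht.mul (hBs _ _ _)
    · intro t' _ h'
      rw [ht' t' h', zero_mul]
    · intro hn; exact absurd (mem_univ _) hn

theorem Zm_ZmT (hA : Sys X T ρ w A) (hBT : ∀ t, (B t)ᵀ = B t) (hBc : ∀ s t, B s * B t = B t * B s)
    (hρ : ∀ s t, s ≠ t → ρ s = ρ t → B s * B t = 0) (t0 : T) :
    Zm A B t0 * (Zm A B t0)ᵀ = (1 : Matrix X X ℤ) ⊗ₖ (B t0 * B t0 + ∑ t, w t • (B t * B t)) := by
  have hT : (Zm A B t0)ᵀ = (1 : Matrix X X ℤ) ⊗ₖ B t0 - ∑ t, A t ⊗ₖ B t := by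
    unfold Zm
    rw [transpose_add, transpose_sum, ← kroneckerMap_transpose, transpose_one, hBT, sub_eq_add_neg,
      ← Finset.sum_neg_distrib]
    congr 1
    refine Finset.sum_congr rfl fun t _ => ?_
    rw [← kroneckerMap_transpose, hA.AT, hBT]
    ext i j
    simp [kroneckerMap_apply]
  have h1 : (∑ t, A t ⊗ₖ B t) * ((1 : Matrix X X ℤ) ⊗ₖ B t0) =
      ((1 : Matrix X X ℤ) ⊗ₖ B t0) * (∑ t, A t ⊗ₖ B t) := by
    rw [Finset.sum_mul, Finset.mul_sum]
    refine Finset.sum_congr rfl fun t _ => ?_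
    rw [← mul_kronecker_mul, ← mul_kronecker_mul, one_mul, mul_one, hBc]
  have h2 : (∑ t, A t ⊗ₖ B t) * (∑ t, A t ⊗ₖ B t) = ∑ t, (A t ⊗ₖ B t) * (A t ⊗ₖ B t) := by
    rw [Finset.sum_mul_sum]
    refine sum_sum_anti _ (fun s t hst => ?_) mat_two
    rw [← mul_kronecker_mul, ← mul_kronecker_mul]
    by_cases hr : ρ s = ρ t
    · rw [hρ s t hst hr, hρ t s (Ne.symm hst) hr.symm, kronecker_zero, kronecker_zero, add_zero]
    · rw [hBc t s, ← add_kronecker, hA.cross s t hr, zero_kronecker]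
  have h3 : ∀ t, (A t ⊗ₖ B t) * (A t ⊗ₖ B t) = -((1 : Matrix X X ℤ) ⊗ₖ (w t • (B t * B t))) := by
    intro t
    rw [← mul_kronecker_mul, hA.AA]
    ext i j
    simp only [kroneckerMap_apply, Matrix.smul_apply, Matrix.neg_apply, smul_eq_mul]
    ring
  rw [hT]
  unfold Zm
  rw [add_mul, mul_sub, mul_sub, h1, h2, Finset.sum_congr rfl fun t _ => h3 t, Finset.sum_neg_distrib,
    ← mul_kronecker_mul, one_mul, kronecker_add]
  have h4 : ∑ t, (1 : Matrix X X ℤ) ⊗ₖ (w t • (B t * B t)) =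
      (1 : Matrix X X ℤ) ⊗ₖ (∑ t, w t • (B t * B t)) := by
    ext i j
    simp only [Matrix.sum_apply, kroneckerMap_apply, Finset.mul_sum]
  rw [h4]
  abel

/-- the heads -/
def Hm {Hd : Type} {ν : Hd → ℕ} (K : Matrix R R ℤ) (hd : Hd → R)
    (Γ : (b : Hd) → Matrix X (Fin (ν b)) ℤ) : Matrix (X × R) (Σ b, Fin (ν b)) ℤ :=
  Matrix.of fun i c => Γ c.1 i.1 c.2 * K (hd c.1) i.2

theorem Hm_HmT {Hd : Type} [Fintype Hd] {ν : Hd → ℕ} (hd : Hd → R)
    (Γ : (b : Hd) → Matrix X (Fin (ν b)) ℤ)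
    (hΓ : ∀ b, Γ b * (Γ b)ᵀ = (ν b : ℤ) • (1 : Matrix X X ℤ)) :
    Hm K hd Γ * (Hm K hd Γ)ᵀ = (1 : Matrix X X ℤ) ⊗ₖ (∑ b, (ν b : ℤ) • pr K (hd b)) := by
  ext ⟨x, g⟩ ⟨y, h⟩
  rw [Matrix.mul_apply, Fintype.sum_sigma, kroneckerMap_apply, Matrix.sum_apply, Finset.mul_sum]
  refine Finset.sum_congr rfl fun b _ => ?_
  have h1 := congrFun (congrFun (hΓ b) x) y
  rw [Matrix.mul_apply, Matrix.smul_apply, smul_eq_mul] at h1
  simp only [transpose_apply] at h1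
  rw [Matrix.smul_apply, pr_apply, smul_eq_mul]
  have e : ∀ c, Hm K hd Γ (x, g) ⟨b, c⟩ * (Hm K hd Γ)ᵀ ⟨b, c⟩ (y, h) =
      (Γ b x c * Γ b y c) * (K (hd b) g * K (hd b) h) := by
    intro c
    rw [transpose_apply]
    simp only [Hm, Matrix.of_apply]
    ring
  rw [Finset.sum_congr rfl fun c _ => e c, ← Finset.sum_mul, h1]
  ring

/-- the assembly -/
theorem big [Nonempty R] (hK : HadK K) (hA : Sys X T ρ w A) (hB : ∀ t, Eig K (B t) (lam t))
    (hBT : ∀ t, (B t)ᵀ = B t) (hBs : ∀ t g h, Sg (B t g h))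
    (hρ : ∀ s t, s ≠ t → ρ s = ρ t → B s * B t = 0) (t0 : T) {Hd : Type} [Fintype Hd]
    (hd : Hd → R) (ν : Hd → ℕ) (Γ : (b : Hd) → Matrix X (Fin (ν b)) ℤ)
    (hΓs : ∀ b x c, Sg (Γ b x c)) (hΓ : ∀ b, Γ b * (Γ b)ᵀ = (ν b : ℤ) • (1 : Matrix X X ℤ)) {n : ℤ}
    (hE : ∀ a, lam t0 a * lam t0 a + ∑ t, w t * (lam t a * lam t a) +
      ∑ b, (ν b : ℤ) * (if a = hd b then (Fintype.card R : ℤ) else 0) = n) :
    ∃ M : Matrix (X × R) ((Σ b, Fin (ν b)) ⊕ (X × R)) ℤ, (∀ i j, Sg (M i j)) ∧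
      M * Mᵀ = n • (1 : Matrix (X × R) (X × R) ℤ) := by
  have hBc : ∀ s t, B s * B t = B t * B s := fun s t => Eig.comm hK (hB s) (hB t)
  refine ⟨Matrix.fromCols (Hm K hd Γ) (Zm A B t0), fun i j => ?_, ?_⟩
  · rcases j with j | j
    · rw [Matrix.fromCols_apply_inl]
      exact (hΓs _ _ _).mul (hK.sg _ _)
    · rw [Matrix.fromCols_apply_inr]
      exact Zm_sg hA hBs t0 i j
  · rw [Matrix.transpose_fromCols, Matrix.fromCols_mul_fromRows, Hm_HmT hd Γ hΓ,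
      Zm_ZmT hA hBT hBc hρ t0, ← kronecker_add]
    have h1 : Eig K (∑ b, (ν b : ℤ) • pr K (hd b) + (B t0 * B t0 + ∑ t, w t • (B t * B t)))
        (fun _ => n) := by
      refine Eig.congr ((Eig.sum univ (fun b => (ν b : ℤ) • pr K (hd b)) _ fun b _ =>
        (eig_pr hK (hd b)).smul _).add (((hB t0).mul (hB t0)).add
        (Eig.sum univ (fun t => w t • (B t * B t)) _ fun t _ => ((hB t).mul (hB t)).smul _))) fun a => ?_
      rw [← hE a]
      ring
    rw [Eig.scalar hK h1]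
    ext i j
    simp only [kroneckerMap_apply, Matrix.smul_apply, smul_eq_mul]
    obtain ⟨x, g⟩ := i
    obtain ⟨y, h⟩ := j
    simp only [Matrix.one_apply, Prod.mk.injEq]
    by_cases h1 : x = y <;> by_cases h2 : g = h <;> simp [h1, h2]

end big

/-- matrices of the existence statement on other index types -/
theorem HasPH.on {X : Type} [Fintype X] [DecidableEq X] {x ν : ℕ} (hx : Fintype.card X = x)
    (h : HasPH x ν) : ∃ Γ : Matrix X (Fin ν) ℤ, (∀ i j, Sg (Γ i j)) ∧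
      Γ * Γᵀ = (ν : ℤ) • (1 : Matrix X X ℤ) := by
  obtain ⟨H, h1, h2⟩ := h
  let e := Fintype.equivFinOfCardEq hx
  refine ⟨H.submatrix e id, fun i j => h1 _ _, ?_⟩
  rw [transpose_submatrix, ← submatrix_mul _ _ e id e Function.bijective_id, h2]
  ext i j
  rw [Matrix.submatrix_apply, Matrix.smul_apply, Matrix.smul_apply, Matrix.one_apply,
    Matrix.one_apply]
  by_cases hij : i = j
  · rw [if_pos hij, if_pos (congrArg e hij)]
  · rw [if_neg hij, if_neg (fun h => hij (e.injective h))]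

theorem HasPH.off {X Y : Type} [Fintype X] [DecidableEq X] [Fintype Y] {x n : ℕ}
    (hx : Fintype.card X = x) (hy : Fintype.card Y = n) {M : Matrix X Y ℤ} (h1 : ∀ i j, Sg (M i j))
    (h2 : M * Mᵀ = (n : ℤ) • (1 : Matrix X X ℤ)) : HasPH x n := by
  let e1 := (Fintype.equivFinOfCardEq hx).symm
  let e2 := (Fintype.equivFinOfCardEq hy).symm
  refine ⟨M.submatrix e1 e2, fun i j => h1 _ _, ?_⟩
  rw [Matrix.transpose_submatrix, Matrix.submatrix_mul_equiv, h2]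
  ext i j
  rw [Matrix.submatrix_apply, Matrix.smul_apply, Matrix.smul_apply, Matrix.one_apply,
    Matrix.one_apply]
  by_cases hij : i = j
  · rw [if_pos hij, if_pos (congrArg e1 hij)]
  · rw [if_neg hij, if_neg (fun h => hij (e1.injective h))]

/-- partial Hadamard matrices from solutions of the equations for the eigenvalues -/
theorem param {R T : Type} [Fintype R] [DecidableEq R] [Nonempty R] [Fintype T] [DecidableEq T]
    {K : Matrix R R ℤ} (hK : HadK K) {r : ℕ} (hr : Fintype.card R = r)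
    {B : T → Matrix R R ℤ} {lam : T → R → ℤ} (hB : ∀ t, Eig K (B t) (lam t))
    (hBT : ∀ t, (B t)ᵀ = B t) (hBs : ∀ t g h, Sg (B t g h)) {j k S K' J : ℕ} (hK' : K' = 1 + j + k)
    (hJ : J = 2 ^ (5 * 2 ^ K' - 1)) (hPU : ∀ l ≤ S, PUk k l)
    (ρ : T → Fin (2 ^ j)) (hρ : ∀ s t, s ≠ t → ρ s = ρ t → B s * B t = 0) (t0 : T)
    (cls : ℕ → T) (w0 : T → ℕ) (hw0 : ∀ t, ∑ i ∈ (range (5 * 2 ^ K' - 1)).filter
        (fun i => cls i = t), 2 ^ i = w0 t) (W : T → ℕ)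
    {Hd : Type} [Fintype Hd] (hd : Hd → R) (ν : Hd → ℕ) (hH : ∀ b, HasPH (J * (2 * S + 1)) (ν b))
    {n : ℕ} (hn : ∑ b, ν b + r * (J * (2 * S + 1)) = n)
    (hE : ∀ a, lam t0 a * lam t0 a + ∑ t, ((w0 t : ℤ) + J * W t) * (lam t a * lam t a) +
      ∑ b, (ν b : ℤ) * (if a = hd b then (r : ℤ) else 0) = n) :
    HasPH (r * (J * (2 * S + 1))) n := by
  have hr0 : (r : ℤ) ≠ 0 := by rw [← hr]; exact card_ne
  have hJ0 : (J : ℤ) ≠ 0 := by rw [hJ]; positivity
  have hsum : ∑ t, w0 t + 1 = J := by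
    have h1 : ∑ t, w0 t = ∑ i ∈ range (5 * 2 ^ K' - 1), 2 ^ i := by
      rw [← Finset.sum_congr rfl fun t _ => hw0 t]
      exact Finset.sum_fiberwise _ _ _
    have h2 := Nat.geomSum_eq (m := 2) le_rfl (5 * 2 ^ K' - 1)
    rw [h1, h2, ← hJ]
    have : 1 ≤ J := by rw [hJ]; exact Nat.one_le_two_pow
    norm_num
    omega
  -- the number of sequences
  have hW : ∑ t, W t = 2 * S := by
    have e1 : ∑ a : R, (lam t0 a * lam t0 a + ∑ t, ((w0 t : ℤ) + J * W t) * (lam t a * lam t a) +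
      ∑ b, (ν b : ℤ) * (if a = hd b then (r : ℤ) else 0)) = ∑ _a : R, (n : ℤ) :=
      Finset.sum_congr rfl fun a _ => hE a
    rw [Finset.sum_add_distrib, Finset.sum_add_distrib, Eig.sum_sq hK (hB t0) (hBT t0) (hBs t0),
      Finset.sum_comm, Finset.sum_comm (f := fun a b => (ν b : ℤ) * (if a = hd b then (r : ℤ) else 0)),
      Finset.sum_const, Finset.card_univ, hr, nsmul_eq_mul] at e1
    have e2 : ∀ t, ∑ a : R, ((w0 t : ℤ) + J * W t) * (lam t a * lam t a) =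
        ((w0 t : ℤ) + J * W t) * ((r : ℤ) * r) := by
      intro t
      rw [← Finset.mul_sum, Eig.sum_sq hK (hB t) (hBT t) (hBs t), hr]
    have e3 : ∀ b, ∑ a : R, (ν b : ℤ) * (if a = hd b then (r : ℤ) else 0) = ν b * r := by
      intro b
      rw [← Finset.mul_sum, Finset.sum_ite_eq' univ (hd b), if_pos (mem_univ _)]
    rw [Finset.sum_congr rfl fun t _ => e2 t, Finset.sum_congr rfl fun b _ => e3 b,
      ← Finset.sum_mul, ← Finset.sum_mul, Finset.sum_add_distrib, ← Finset.mul_sum] at e1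
    have e4 : ((∑ t, w0 t : ℕ) : ℤ) + 1 = J := by exact_mod_cast hsum
    have e5 : ((∑ b, ν b : ℕ) : ℤ) + r * (J * (2 * S + 1)) = n := by exact_mod_cast hn
    push_cast at e4 e5
    have e6 : (r : ℤ) * (r * (J * (∑ t, (W t : ℤ)))) = r * (r * (J * (2 * S))) := by
      linear_combination e1 - (r : ℤ) * e5 - (r : ℤ) * r * e4
    have e7 := mul_left_cancel₀ hJ0 (mul_left_cancel₀ hr0 (mul_left_cancel₀ hr0 e6))
    exact_mod_cast e7
  obtain ⟨X, i1, i2, A, hX, hA⟩ := exists_sys hK' hJ hPU W hW ρ cls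
  have hΓ := fun b => HasPH.on hX (hH b)
  choose Γ hΓs hΓ using hΓ
  have hρ' : ∀ s t, s ≠ t → (fun t => (ρ t).val) s = (fun t => (ρ t).val) t → B s * B t = 0 :=
    fun s t hst h => hρ s t hst (Fin.ext h)
  obtain ⟨M, hM1, hM2⟩ := big (n := (n : ℤ)) hK hA hB hBT hBs hρ' t0 hd ν Γ hΓs hΓ (fun a => by
    rw [← hE a, hr]
    congr 2
    refine Finset.sum_congr rfl fun t _ => ?_
    rw [hw0 t]
    push_cast
    rfl)
  refine HasPH.off ?_ ?_ hM1 hM2
  · rw [Fintype.card_prod, hX, hr]; ring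
  · rw [Fintype.card_sum, Fintype.card_sigma, Fintype.card_prod, hX, hr]
    simp only [Fintype.card_fin]
    rw [← hn]; ring

end Pool.Agent.H31.PH
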