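import Mathlib

/-!
# The equations for the levels
-/

set_option autoImplicit false

namespace Pool.Agent.H31.PH

open Finset

/-- the value of the sum of the free coordinates -/
def ev (q : ℤ) (L s i : ℕ) : ℤ := if s ≤ i then q ^ (L - i) else 0

theorem ev_sq (q : ℤ) (L s i : ℕ) : ev q L s i * q ^ (L - i) = ev q L s i ^ 2 := by
  unfold ev
  split_ifs
  · ring
  · ring

theorem ev_mul (q : ℤ) (L s i j : ℕ) (h : i ≤ j) : ev q L s i * ev q L s j = ev q L s i * q ^ (L - j) := by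
  unfold ev
  by_cases h1 : s ≤ i
  · rw [if_pos h1, if_pos (h1.trans h)]
  · rw [if_neg h1, zero_mul, zero_mul]

theorem count_le (L s : ℕ) (hs : s ≤ L) (x : ℤ) :
    ∑ i ∈ range L, (if s ≤ i then x else 0) = ((L : ℤ) - s) * x := by
  rw [← Finset.sum_filter]
  have : (range L).filter (fun i => s ≤ i) = Finset.Ico s L := by
    ext i
    rw [mem_filter, mem_range, mem_Ico]
    tauto
  rw [this, Finset.sum_const, Nat.card_Ico, nsmul_eq_mul, Nat.cast_sub hs]

theorem level_eq {q : ℤ} {L : ℕ} {D : ℕ → ℕ → ℤ} {z c C : ℕ → ℤ} {m τ Y : ℤ}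
    (hD : ∀ j i, i < j → D j i = 0)
    (hrow : ∀ i < L, ∑ j ∈ range (i + 1), q ^ j * D j i = q ^ (i + 1) * z i)
    (hcol : ∀ j, 1 ≤ j → j ≤ L → ∑ i ∈ range (L + 1), q ^ (L - i) * D j i = q ^ (L + 1 - j) * c j)
    (hC : ∀ i < L, C i + 4 * z i + ∑ i' ∈ range (L + 1), D (i + 1) i' - 4 * c (i + 1) = q ^ (i + 1) * Y)
    (hT : q ^ (L + 1) * C L + 4 * ∑ j ∈ range (L + 1), q ^ j * D j L =
      4 * m - q ^ (2 * (L + 1)) * (τ + L * Y)) {s : ℕ} (hs : s ≤ L) :
    q ^ (2 * (L + 1)) * (τ + s * Y) + ∑ i ∈ range (L + 1), C i * (q ^ (i + 1) * ev q L s i ^ 2) +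
      ∑ s' ∈ range (L + 1), ∑ i ∈ range (L + 1),
        D (s' + 1) i * (q ^ (s' + 1) * (ev q L s s' - 2 * ev q L s i) ^ 2) +
      ∑ i ∈ range (L + 1), D 0 i * (4 * ev q L s i ^ 2) = 4 * m := by
  have h1 : ∀ s' ∈ range (L + 1), ∑ i ∈ range (L + 1),
      D (s' + 1) i * (q ^ (s' + 1) * (ev q L s s' - 2 * ev q L s i) ^ 2) =
      (∑ i ∈ range (L + 1), 4 * ev q L s i ^ 2 * (q ^ (s' + 1) * D (s' + 1) i)) +
      ev q L s s' * q ^ (s' + 1) * (q ^ (L - s') * (∑ i ∈ range (L + 1), D (s' + 1) i) -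
        4 * ∑ i ∈ range (L + 1), q ^ (L - i) * D (s' + 1) i) := by
    intro s' _
    rw [Finset.mul_sum, Finset.mul_sum, ← Finset.sum_sub_distrib, Finset.mul_sum,
      ← Finset.sum_add_distrib]
    refine Finset.sum_congr rfl fun i _ => ?_
    by_cases hi : i ≤ s'
    · rw [hD (s' + 1) i (by omega)]; ring
    · have e1 := ev_sq q L s s'
      have e2 := ev_mul q L s s' i (by omega)
      linear_combination (-(D (s' + 1) i * q ^ (s' + 1))) * e1 -
        4 * (D (s' + 1) i * q ^ (s' + 1)) * e2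
  rw [Finset.sum_congr rfl h1, Finset.sum_add_distrib, Finset.sum_comm]
  have h2 : ∀ i ∈ range (L + 1), (∑ s' ∈ range (L + 1), 4 * ev q L s i ^ 2 * (q ^ (s' + 1) * D (s' + 1) i)) =
      4 * ev q L s i ^ 2 * (∑ j ∈ range (i + 1), q ^ j * D j i) - D 0 i * (4 * ev q L s i ^ 2) := by
    intro i hi
    rw [mem_range] at hi
    have e1 : ∑ j ∈ range (i + 1), q ^ j * D j i = ∑ j ∈ range (L + 1 + 1), q ^ j * D j i := by
      refine Finset.sum_subset (fun j hj => ?_) fun j hj hn => ?_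
      · rw [mem_range] at hj ⊢; omega
      · rw [mem_range] at hn
        rw [hD j i (by omega), mul_zero]
    rw [← Finset.mul_sum, e1, Finset.sum_range_succ' _ (L + 1)]
    ring
  rw [Finset.sum_congr rfl h2, Finset.sum_sub_distrib]
  have h3 : ∑ i ∈ range (L + 1), (C i * (q ^ (i + 1) * ev q L s i ^ 2) +
      4 * ev q L s i ^ 2 * (∑ j ∈ range (i + 1), q ^ j * D j i) +
      ev q L s i * q ^ (i + 1) * (q ^ (L - i) * (∑ i' ∈ range (L + 1), D (i + 1) i') -
        4 * ∑ i' ∈ range (L + 1), q ^ (L - i') * D (i + 1) i')) =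
      ((L : ℤ) - s) * (q ^ (2 * (L + 1)) * Y) + (4 * m - q ^ (2 * (L + 1)) * (τ + L * Y)) := by
    rw [Finset.sum_range_succ]
    congr 1
    · rw [← count_le L s hs]
      refine Finset.sum_congr rfl fun i hi => ?_
      rw [mem_range] at hi
      have e1 := hrow i hi
      have e2 := hcol (i + 1) (by omega) (by omega)
      have e3 := hC i hi
      have e4 := ev_sq q L s i
      rw [e1, e2]
      have e5 : L + 1 - (i + 1) = L - i := by omega
      rw [e5]
      have e6 : C i * (q ^ (i + 1) * ev q L s i ^ 2) + 4 * ev q L s i ^ 2 * (q ^ (i + 1) * z i) +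
          ev q L s i * q ^ (i + 1) * (q ^ (L - i) * (∑ i' ∈ range (L + 1), D (i + 1) i') -
            4 * (q ^ (L - i) * c (i + 1))) = ev q L s i ^ 2 * (q ^ (i + 1) * (q ^ (i + 1) * Y)) := by
        linear_combination (q ^ (i + 1) * ((∑ i' ∈ range (L + 1), D (i + 1) i') - 4 * c (i + 1))) * e4 +
          ev q L s i ^ 2 * q ^ (i + 1) * e3
      rw [e6]
      unfold ev
      by_cases hsi : s ≤ i
      · rw [if_pos hsi, if_pos hsi]
        have e7 : q ^ (2 * (L + 1)) = (q ^ (L - i)) ^ 2 * (q ^ (i + 1) * q ^ (i + 1)) := by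
          rw [← pow_mul, ← pow_add, ← pow_add]
          congr 1
          omega
        rw [e7]; ring
      · rw [if_neg hsi, if_neg hsi]; ring
    · have e1 : ev q L s L = 1 := by
        unfold ev
        rw [if_pos hs, Nat.sub_self, pow_zero]
      have e2 : ∀ i ∈ range (L + 1), D (L + 1) i = 0 := fun i hi => hD _ _ (mem_range.1 hi)
      have e3 : ∑ i' ∈ range (L + 1), D (L + 1) i' = 0 := Finset.sum_eq_zero e2
      have e4 : ∑ i' ∈ range (L + 1), q ^ (L - i') * D (L + 1) i' = 0 :=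
        Finset.sum_eq_zero fun i hi => by rw [e2 i hi, mul_zero]
      rw [e1, e3, e4, ← hT]
      ring
  rw [Finset.sum_add_distrib, Finset.sum_add_distrib] at h3
  linear_combination h3

end Pool.Agent.H31.PH
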