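import Pool.Agent.H31.PH.Big
import Pool.Agent.H31.PH.Level

/-!
# The classes
-/

set_option autoImplicit false
set_option linter.unusedSectionVars false

namespace Pool.Agent.H31.PH

open Matrix Finset
open Pool.Agent.Y342.SK (Sg Sg.mul Sg.neg)
open Pool.Agent.N328.PH (HasPH)
open Pool.Agent.H108R3.Had (PUk)

section cls

variable {V : Type} [Fintype V] [DecidableEq V] {K bt : Matrix V V ℤ} {be : V → ℤ} {z : V} {L : ℕ}

/-- the level -/
def lv (z : V) (a : Fin (L + 1) → V) : ℕ := (univ.filter fun c => a c ≠ z).sup fun c => c.val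

theorem lv_le_iff (a : Fin (L + 1) → V) (i : ℕ) : lv z a ≤ i ↔ ∀ c : Fin (L + 1), i < c.val → a c = z := by
  unfold lv
  rw [Finset.sup_le_iff]
  constructor
  · intro h c hc
    by_contra hne
    have := h c (mem_filter.2 ⟨mem_univ _, hne⟩)
    omega
  · intro h c hc
    rw [mem_filter] at hc
    by_contra hcon
    exact hc.2 (h c (by omega))

theorem lv_le (a : Fin (L + 1) → V) : lv z a ≤ L := by
  rw [lv_le_iff]
  intro c hc
  have := c.isLt
  omega

/-- the matrices for the classes -/
def P2 (K bt : Matrix V V ℤ) (z : V) (L j i : ℕ) : Matrix (Fin (L + 1) → V) (Fin (L + 1) → V) ℤ :=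
  Pm fun c => if c.val < j then bt else if c.val ≤ i then 1 else pr K z

/-- its eigenvalues -/
def mu (be : V → ℤ) (z : V) (j i : ℕ) (a : Fin (L + 1) → V) : ℤ :=
  ∏ c, if c.val < j then be (a c) else if c.val ≤ i then 1 else if a c = z then (Fintype.card V : ℤ) else 0

theorem P2_T (h : Ben V K bt be z) (j i : ℕ) : (P2 K bt z L j i)ᵀ = P2 K bt z L j i := by
  unfold P2
  apply Pm_T
  intro c
  split_ifs
  · exact h.btT
  · exact transpose_one
  · exact pr_T z

theorem P2_eig (h : Ben V K bt be z) (j i : ℕ) :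
    Eig (Pm fun _ : Fin (L + 1) => K) (P2 K bt z L j i) (mu be z j i) := by
  unfold P2 mu
  refine Eig.congr (Eig.pm (μ := fun c v => if c.val < j then be v else if c.val ≤ i then 1 else
    if v = z then (Fintype.card V : ℤ) else 0) fun c => ?_) fun a => rfl
  by_cases h1 : c.val < j
  · simp only [if_pos h1]; exact h.eig
  · by_cases h2 : c.val ≤ i
    · simp only [if_neg h1, if_pos h2]; exact Eig.one
    · simp only [if_neg h1, if_neg h2]; exact eig_pr h.hK z

/-- the part of the bent coordinates -/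
def beta (be : V → ℤ) (j : ℕ) (a : Fin (L + 1) → V) : ℤ := ∏ c : Fin (L + 1), if c.val < j then be (a c) else 1

theorem beta_sq (h : Ben V K bt be z) {j : ℕ} (hj : j ≤ L + 1) (a : Fin (L + 1) → V) :
    beta be j a ^ 2 = (Fintype.card V : ℤ) ^ j := by
  unfold beta
  rw [pow_two, ← Finset.prod_mul_distrib]
  have e : ∀ c : Fin (L + 1), (if c.val < j then be (a c) else 1) * (if c.val < j then be (a c) else 1) =
      (fun i : ℕ => if i < j then (Fintype.card V : ℤ) else 1) c.val := by
    intro c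
    by_cases h1 : c.val < j
    · simp only [if_pos h1]; exact h.sq _
    · simp only [if_neg h1, mul_one]
  rw [Finset.prod_congr rfl fun c _ => e c, Fin.prod_univ_eq_prod_range
    (fun i : ℕ => if i < j then (Fintype.card V : ℤ) else 1) (L + 1), Finset.prod_ite,
    Finset.prod_const_one, mul_one, Finset.prod_const]
  congr 1
  have : (range (L + 1)).filter (fun i => i < j) = range j := by
    ext i
    rw [mem_filter, mem_range, mem_range]
    omega
  rw [this, card_range]

theorem beta_zero (a : Fin (L + 1) → V) : beta be 0 a = 1 := by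
  unfold beta
  refine Finset.prod_eq_one fun c _ => ?_
  rw [if_neg (by omega)]

theorem mu_eq {j i : ℕ} (hji : j ≤ i + 1) (a : Fin (L + 1) → V) :
    mu be z j i a = beta be j a * ev (Fintype.card V) L (lv z a) i := by
  have h1 : mu be z j i a = beta be j a *
      ∏ c, if c.val ≤ i then 1 else if a c = z then (Fintype.card V : ℤ) else 0 := by
    unfold mu beta
    rw [← Finset.prod_mul_distrib]
    refine Finset.prod_congr rfl fun c _ => ?_
    by_cases h1 : c.val < j
    · rw [if_pos h1, if_pos h1, if_pos (by omega), mul_one]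
    · rw [if_neg h1, if_neg h1, one_mul]
  rw [h1]
  congr 1
  unfold ev
  by_cases h2 : lv z a ≤ i
  · rw [if_pos h2]
    rw [lv_le_iff] at h2
    have e : ∀ c : Fin (L + 1), (if c.val ≤ i then 1 else if a c = z then (Fintype.card V : ℤ) else 0) =
        (fun i' : ℕ => if i' ≤ i then 1 else (Fintype.card V : ℤ)) c.val := by
      intro c
      by_cases h3 : c.val ≤ i
      · simp only [if_pos h3]
      · simp only [if_neg h3]
        rw [if_pos (h2 c (by omega))]
    rw [Finset.prod_congr rfl fun c _ => e c, Fin.prod_univ_eq_prod_range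
      (fun i' : ℕ => if i' ≤ i then 1 else (Fintype.card V : ℤ)) (L + 1), Finset.prod_ite,
      Finset.prod_const_one, one_mul, Finset.prod_const]
    congr 1
    have : (range (L + 1)).filter (fun x => ¬x ≤ i) = Ico (i + 1) (L + 1) := by
      ext x
      rw [mem_filter, mem_range, mem_Ico]
      omega
    rw [this, Nat.card_Ico]
    omega
  · rw [if_neg h2]
    rw [lv_le_iff] at h2
    push Not at h2
    obtain ⟨c, hc, hne⟩ := h2
    refine Finset.prod_eq_zero (mem_univ c) ?_
    rw [if_neg (by omega), if_neg hne]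

theorem P2_sg (h : Ben V K bt be z) (s : ℕ) (g k : Fin (L + 1) → V) :
    Sg (P2 K bt z L (s + 1) s g k) := by
  unfold P2
  apply Pm_sg
  intro c x y
  by_cases h1 : c.val < s + 1
  · rw [if_pos h1]; exact h.bts _ _
  · rw [if_neg h1, if_neg (by omega)]; exact pr_sg h.hK _ _ _

theorem pr_z (h : Ben V K bt be z) (x y : V) : pr K z x y = 1 := by
  rw [pr_apply, h.one, h.one, one_mul]

theorem P2_or (h : Ben V K bt be z) (s i : ℕ) (g k : Fin (L + 1) → V) :
    P2 K bt z L (s + 1) i g k = P2 K bt z L (s + 1) s g k ∨ P2 K bt z L (s + 1) i g k = 0 := by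
  by_cases hc : ∀ c : Fin (L + 1), s + 1 ≤ c.val → c.val ≤ i → g c = k c
  · left
    unfold P2
    rw [Pm_apply, Pm_apply]
    refine Finset.prod_congr rfl fun c _ => ?_
    by_cases h1 : c.val < s + 1
    · rw [if_pos h1, if_pos h1]
    · rw [if_neg h1, if_neg h1, if_neg (show ¬c.val ≤ s by omega), pr_z h]
      by_cases h2 : c.val ≤ i
      · rw [if_pos h2, hc c (by omega) h2, Matrix.one_apply_eq]
      · rw [if_neg h2, pr_z h]
  · right
    push Not at hc
    obtain ⟨c, h1, h2, h3⟩ := hc
    unfold P2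
    rw [Pm_apply]
    refine Finset.prod_eq_zero (mem_univ c) ?_
    rw [if_neg (by omega), if_pos h2, Matrix.one_apply_ne h3]

/-- the heads -/
def hdf {Hd : Type} (z : V) (L : ℕ) (v : Hd → V) (b : Hd) : Fin (L + 1) → V :=
  fun c => if c.val = 0 then v b else z

theorem lv_hdf {Hd : Type} (v : Hd → V) (b : Hd) : lv z (hdf z L v b) = 0 := by
  have : lv z (hdf z L v b) ≤ 0 := by
    rw [lv_le_iff]
    intro c hc
    unfold hdf
    rw [if_neg (by omega)]
  omega

theorem hdf_inj {Hd : Type} {v : Hd → V} (hv : Function.Injective v) :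
    Function.Injective (hdf z L v) := by
  intro b b' h
  have h0 : ((0 : Fin (L + 1)) : ℕ) = 0 := rfl
  have := congrFun h 0
  unfold hdf at this
  rw [if_pos h0, if_pos h0] at this
  exact hv this

theorem K_hdf (h : Ben V K bt be z) {Hd : Type} (v : Hd → V) (b : Hd) (g : Fin (L + 1) → V) :
    (Pm fun _ : Fin (L + 1) => K) (hdf z L v b) g = K (v b) (g 0) := by
  rw [Pm_apply, Finset.prod_eq_single 0]
  · have h0 : ((0 : Fin (L + 1)) : ℕ) = 0 := rfl
    have e : hdf z L v b 0 = v b := by unfold hdf; rw [if_pos h0]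
    rw [e]
  · intro c _ hc
    have e : hdf z L v b c = z := by
      unfold hdf
      rw [if_neg (fun h0 : c.val = 0 => hc (Fin.ext h0))]
    rw [e, h.one]
  · intro hn; exact absurd (mem_univ _) hn

theorem Hd_sg (h : Ben V K bt be z) {Hd : Type} (v : Hd → V) (b : Hd) (i : ℕ)
    (g k : Fin (L + 1) → V) :
    Sg ((pr (Pm fun _ : Fin (L + 1) => K) (hdf z L v b) - (2 : ℤ) • P2 K bt z L 0 i) g k) := by
  rw [Matrix.sub_apply, Matrix.smul_apply, smul_eq_mul]
  by_cases hc : ∀ c : Fin (L + 1), c.val ≤ i → g c = k c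
  · have h1 : P2 K bt z L 0 i g k = 1 := by
      unfold P2
      rw [Pm_apply]
      refine Finset.prod_eq_one fun c _ => ?_
      rw [if_neg (by omega)]
      by_cases h2 : c.val ≤ i
      · rw [if_pos h2, hc c h2, Matrix.one_apply_eq]
      · rw [if_neg h2, pr_z h]
    have h2 : pr (Pm fun _ : Fin (L + 1) => K) (hdf z L v b) g k = 1 := by
      rw [pr_apply, K_hdf h, K_hdf h, hc 0 (Nat.zero_le _)]
      exact Sg.sq (h.hK.sg _ _)
    rw [h1, h2]
    right
    norm_num
  · have h1 : P2 K bt z L 0 i g k = 0 := by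
      push Not at hc
      obtain ⟨c, h1, h2⟩ := hc
      unfold P2
      rw [Pm_apply]
      refine Finset.prod_eq_zero (mem_univ c) ?_
      rw [if_neg (by omega), if_pos h1, Matrix.one_apply_ne h2]
    rw [h1, mul_zero, sub_zero]
    exact pr_sg h.hK.pm _ _ _

/-- the index type of the classes which are not projections -/
abbrev T1 (L : ℕ) (Hd : Type) : Type :=
  Fin (L + 1) ⊕ ((Fin (L + 1) × Fin (L + 1)) ⊕ (Hd × Fin (L + 1)))

/-- the sign matrices -/
def Bc {Hd : Type} (K bt : Matrix V V ℤ) (z : V) (L : ℕ) (v : Hd → V) :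
    ((Fin (L + 1) → V) ⊕ T1 L Hd) → Matrix (Fin (L + 1) → V) (Fin (L + 1) → V) ℤ
  | .inl a => pr (Pm fun _ => K) a
  | .inr (.inl i) => P2 K bt z L (i.val + 1) i.val
  | .inr (.inr (.inl p)) => P2 K bt z L (p.1.val + 1) p.1.val - (2 : ℤ) • P2 K bt z L (p.1.val + 1) p.2.val
  | .inr (.inr (.inr p)) => pr (Pm fun _ => K) (hdf z L v p.1) - (2 : ℤ) • P2 K bt z L 0 p.2.val

/-- their eigenvalues -/
def lc {Hd : Type} (be : V → ℤ) (z : V) (L : ℕ) (v : Hd → V) :
    ((Fin (L + 1) → V) ⊕ T1 L Hd) → (Fin (L + 1) → V) → ℤ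
  | .inl a => fun a' => if a' = a then (Fintype.card (Fin (L + 1) → V) : ℤ) else 0
  | .inr (.inl i) => fun a => mu be z (i.val + 1) i.val a
  | .inr (.inr (.inl p)) => fun a => mu be z (p.1.val + 1) p.1.val a +
      (-1 : ℤ) * (2 * mu be z (p.1.val + 1) p.2.val a)
  | .inr (.inr (.inr p)) => fun a => (if a = hdf z L v p.1 then (Fintype.card (Fin (L + 1) → V) : ℤ) else 0) +
      (-1 : ℤ) * (2 * mu be z 0 p.2.val a)

theorem sub_eq_neg_smul {ι : Type} (A B : Matrix ι ι ℤ) : A - B = A + (-1 : ℤ) • B := by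
  ext i j
  simp only [Matrix.sub_apply, Matrix.add_apply, Matrix.smul_apply, smul_eq_mul]
  ring

theorem Bc_eig (h : Ben V K bt be z) {Hd : Type} (v : Hd → V) (t : (Fin (L + 1) → V) ⊕ T1 L Hd) :
    Eig (Pm fun _ => K) (Bc K bt z L v t) (lc be z L v t) := by
  rcases t with a | i | p | p
  · exact eig_pr h.hK.pm a
  · exact P2_eig h _ _
  · unfold Bc lc
    simp only []
    rw [sub_eq_neg_smul]
    exact (P2_eig h _ _).add (((P2_eig h _ _).smul 2).smul (-1))
  · unfold Bc lc
    simp only []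
    rw [sub_eq_neg_smul]
    exact (eig_pr h.hK.pm _).add (((P2_eig h _ _).smul 2).smul (-1))

theorem Bc_T (h : Ben V K bt be z) {Hd : Type} (v : Hd → V) (t : (Fin (L + 1) → V) ⊕ T1 L Hd) :
    (Bc K bt z L v t)ᵀ = Bc K bt z L v t := by
  rcases t with a | i | p | p
  · exact pr_T a
  · exact P2_T h _ _
  · unfold Bc
    simp only []
    rw [transpose_sub, transpose_smul, P2_T h, P2_T h]
  · unfold Bc
    simp only []
    rw [transpose_sub, transpose_smul, P2_T h, pr_T]

theorem Bc_sg (h : Ben V K bt be z) {Hd : Type} (v : Hd → V) (t : (Fin (L + 1) → V) ⊕ T1 L Hd)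
    (g k : Fin (L + 1) → V) : Sg (Bc K bt z L v t g k) := by
  rcases t with a | i | p | p
  · exact pr_sg h.hK.pm _ _ _
  · exact P2_sg h _ _ _
  · unfold Bc
    simp only []
    rw [Matrix.sub_apply, Matrix.smul_apply, smul_eq_mul]
    have h1 := P2_sg (L := L) h p.1.val g k
    rcases P2_or (L := L) h p.1.val p.2.val g k with h2 | h2
    · rw [h2]
      have : P2 K bt z L (p.1.val + 1) p.1.val g k - 2 * P2 K bt z L (p.1.val + 1) p.1.val g k =
          -P2 K bt z L (p.1.val + 1) p.1.val g k := by ring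
      rw [this]
      exact h1.neg
    · rw [h2, mul_zero, sub_zero]
      exact h1
  · exact Hd_sg h _ _ _ _ _

end cls

end Pool.Agent.H31.PH
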