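import Pool.Graph.R_seed8.Y342.SK.Gad

/-!
# Sign matrices with common eigenvectors
-/

set_option autoImplicit false
set_option linter.unusedSectionVars false

namespace Pool.Agent.H31.PH

open Matrix Finset
open Pool.Agent.Y342.SK (Sg Sg.mul Sg.neg)

/-- a symmetric Hadamard matrix -/
structure HadK {R : Type} [Fintype R] [DecidableEq R] (K : Matrix R R ℤ) : Prop where
  sg : ∀ a g, Sg (K a g)
  T : Kᵀ = K
  KK : K * K = (Fintype.card R : ℤ) • (1 : Matrix R R ℤ)

/-- the rows of `K` are eigenvectors of `B`, with the eigenvalues `lam` -/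
def Eig {R : Type} [Fintype R] [DecidableEq R] (K B : Matrix R R ℤ) (lam : R → ℤ) : Prop :=
  B * K = K * Matrix.diagonal lam

theorem Sg.sq {x : ℤ} (h : Sg x) : x * x = 1 := by
  rcases h with rfl | rfl <;> norm_num

section basic

variable {R : Type} [Fintype R] [DecidableEq R] {K B B' : Matrix R R ℤ} {lam lam' : R → ℤ}

theorem HadK.symm (hK : HadK K) (a g : R) : K a g = K g a := by
  have := congrFun (congrFun hK.T g) a
  rwa [transpose_apply] at this

theorem HadK.orth (hK : HadK K) (a b : R) : ∑ g, K a g * K b g = if a = b then (Fintype.card R : ℤ) else 0 := by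
  have h := congrFun (congrFun hK.KK a) b
  rw [Matrix.mul_apply, Matrix.smul_apply, Matrix.one_apply, smul_eq_mul] at h
  rw [Finset.sum_congr rfl fun g _ => by rw [hK.symm b g], h]
  by_cases hab : a = b <;> simp [hab]

theorem smul_cancel {ι κ : Type} {r : ℤ} (hr : r ≠ 0) {X Y : Matrix ι κ ℤ} (h : r • X = r • Y) :
    X = Y := by
  ext i j
  have h1 := congrFun (congrFun h i) j
  rw [Matrix.smul_apply, Matrix.smul_apply, smul_eq_mul, smul_eq_mul] at h1
  exact mul_left_cancel₀ hr h1

theorem card_ne [Nonempty R] : (Fintype.card R : ℤ) ≠ 0 := by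
  exact_mod_cast Fintype.card_ne_zero

theorem eq_of_mul_K [Nonempty R] (hK : HadK K) (h : B * K = B' * K) : B = B' := by
  have h1 : B * K * K = B' * K * K := by rw [h]
  rw [Matrix.mul_assoc, Matrix.mul_assoc, hK.KK, mul_smul_comm, mul_smul_comm, mul_one, mul_one] at h1
  exact smul_cancel card_ne h1

theorem Eig.add (h : Eig K B lam) (h' : Eig K B' lam') : Eig K (B + B') (fun a => lam a + lam' a) := by
  unfold Eig at *
  rw [add_mul, h, h', ← mul_add]
  congr 1
  ext i j
  by_cases hij : i = j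
  · subst hij; simp
  · simp [hij]

theorem Eig.smul (c : ℤ) (h : Eig K B lam) : Eig K (c • B) (fun a => c * lam a) := by
  unfold Eig at *
  rw [smul_mul_assoc, h, ← mul_smul_comm]
  congr 1
  ext i j
  by_cases hij : i = j
  · subst hij; simp
  · simp [hij]

theorem Eig.mul (h : Eig K B lam) (h' : Eig K B' lam') : Eig K (B * B') (fun a => lam a * lam' a) := by
  unfold Eig at *
  rw [Matrix.mul_assoc, h', ← Matrix.mul_assoc, h, Matrix.mul_assoc, Matrix.diagonal_mul_diagonal]

theorem Eig.one : Eig K 1 (fun _ => 1) := by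
  unfold Eig
  rw [one_mul]
  have : (Matrix.diagonal fun _ : R => (1 : ℤ)) = 1 := rfl
  rw [this, mul_one]

theorem Eig.zero : Eig K 0 (fun _ => 0) := by
  unfold Eig
  have : (Matrix.diagonal fun _ : R => (0 : ℤ)) = 0 := by ext; simp
  rw [this, mul_zero, zero_mul]

theorem Eig.sum {T : Type} (s : Finset T) (f : T → Matrix R R ℤ) (μ : T → R → ℤ)
    (h : ∀ t ∈ s, Eig K (f t) (μ t)) : Eig K (∑ t ∈ s, f t) (fun a => ∑ t ∈ s, μ t a) := by
  classical
  induction s using Finset.induction_on with
  | empty => simpa using Eig.zero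
  | insert t s ht ih =>
    have h1 := ih fun t' ht' => h t' (Finset.mem_insert_of_mem ht')
    have h2 := (h t (Finset.mem_insert_self _ _)).add h1
    rw [Finset.sum_insert ht]
    convert h2 using 2
    rw [Finset.sum_insert ht]

theorem Eig.congr {lam' : R → ℤ} (h : Eig K B lam) (e : ∀ a, lam a = lam' a) : Eig K B lam' := by
  have : lam = lam' := funext e
  rwa [← this]

/-- the projection to an eigenvector -/
def pr (K : Matrix R R ℤ) (a : R) : Matrix R R ℤ := Matrix.of fun g h => K a g * K a h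

theorem pr_apply (a g h : R) : pr K a g h = K a g * K a h := rfl

theorem eig_pr (hK : HadK K) (a : R) :
    Eig K (pr K a) (fun b => if b = a then (Fintype.card R : ℤ) else 0) := by
  unfold Eig
  ext g c
  rw [Matrix.mul_apply, Matrix.mul_diagonal]
  have e : ∀ h, pr K a g h * K h c = K a g * (K a h * K c h) := by
    intro h; rw [pr_apply, hK.symm h c]; ring
  rw [Finset.sum_congr rfl fun h _ => e h, ← Finset.mul_sum, hK.orth]
  by_cases hc : c = a
  · subst hc
    rw [if_pos rfl, hK.symm c g]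
  · rw [if_neg hc, if_neg (fun h => hc h.symm)]; ring

theorem pr_T (a : R) : (pr K a)ᵀ = pr K a := by
  ext g h; rw [transpose_apply, pr_apply, pr_apply, mul_comm]

theorem pr_sg (hK : HadK K) (a g h : R) : Sg (pr K a g h) := (hK.sg _ _).mul (hK.sg _ _)

theorem pr_pr (hK : HadK K) {a b : R} (hab : a ≠ b) : pr K a * pr K b = 0 := by
  ext g h
  rw [Matrix.mul_apply, Matrix.zero_apply]
  have e : ∀ k, pr K a g k * pr K b k h = K a g * K b h * (K a k * K b k) := by
    intro k; rw [pr_apply, pr_apply]; ring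
  rw [Finset.sum_congr rfl fun k _ => e k, ← Finset.mul_sum, hK.orth, if_neg hab, mul_zero]

/-- commutation -/
theorem Eig.comm [Nonempty R] (hK : HadK K) (h : Eig K B lam) (h' : Eig K B' lam') : B * B' = B' * B := by
  apply eq_of_mul_K hK
  have h1 := h.mul h'
  have h2 := h'.mul h
  unfold Eig at h1 h2
  rw [h1, h2]
  congr 2
  funext a
  ring

/-- the squares of the eigenvalues of a sign matrix sum to the square of the order -/
theorem Eig.sum_sq [Nonempty R] (hK : HadK K) (h : Eig K B lam) (hT : Bᵀ = B) (hB : ∀ g h, Sg (B g h)) :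
    ∑ a, lam a * lam a = (Fintype.card R : ℤ) * (Fintype.card R : ℤ) := by
  have h2 := h.mul h
  unfold Eig at h2
  have h3 : B * B * K * K = K * (Matrix.diagonal fun a => lam a * lam a) * K := by rw [h2]
  rw [Matrix.mul_assoc, hK.KK, mul_smul_comm, mul_one] at h3
  have h4 := congrArg Matrix.trace h3
  rw [Matrix.trace_smul, Matrix.trace_mul_comm (K * _) K, ← Matrix.mul_assoc, hK.KK, smul_mul_assoc,
    one_mul, Matrix.trace_smul, smul_eq_mul, smul_eq_mul] at h4
  have h5 := mul_left_cancel₀ card_ne h4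
  have h6 : Matrix.trace (Matrix.diagonal fun a => lam a * lam a) = ∑ a, lam a * lam a := by
    rw [Matrix.trace_diagonal]
  rw [← h6, ← h5]
  have h7 : ∀ g, (B * B) g g = (Fintype.card R : ℤ) := by
    intro g
    rw [Matrix.mul_apply]
    have e : ∀ k, B g k * B k g = 1 := by
      intro k
      have : B k g = B g k := by
        have := congrFun (congrFun hT g) k
        rwa [transpose_apply] at this
      rw [this]
      exact Sg.sq (hB _ _)
    rw [Finset.sum_congr rfl fun k _ => e k]
    simp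
  unfold Matrix.trace
  simp only [Matrix.diag_apply]
  rw [Finset.sum_congr rfl fun g _ => h7 g]
  simp

/-- a matrix whose eigenvalues are all equal -/
theorem Eig.scalar [Nonempty R] (hK : HadK K) {n : ℤ} (h : Eig K B (fun _ => n)) : B = n • (1 : Matrix R R ℤ) := by
  apply eq_of_mul_K hK
  unfold Eig at h
  rw [h, smul_mul_assoc, one_mul]
  ext i j
  rw [Matrix.mul_diagonal, Matrix.smul_apply, smul_eq_mul, mul_comm]

end basic

section prod

variable {l : ℕ} {V : Type} [Fintype V] [DecidableEq V]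

/-- product of matrices over the coordinates -/
def Pm (f : Fin l → Matrix V V ℤ) : Matrix (Fin l → V) (Fin l → V) ℤ :=
  Matrix.of fun g h => ∏ c, f c (g c) (h c)

theorem Pm_apply (f : Fin l → Matrix V V ℤ) (g h : Fin l → V) : Pm f g h = ∏ c, f c (g c) (h c) := rfl

theorem Pm_mul (f f' : Fin l → Matrix V V ℤ) : Pm f * Pm f' = Pm fun c => f c * f' c := by
  ext g h
  rw [Matrix.mul_apply, Pm_apply]
  have h2 := Finset.prod_univ_sum (t := fun _ : Fin l => (univ : Finset V))
    (f := fun c v => f c (g c) v * f' c v (h c))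
  rw [Fintype.piFinset_univ] at h2
  simp only [Matrix.mul_apply]
  rw [h2]
  refine Finset.sum_congr rfl fun k _ => ?_
  rw [Pm_apply, Pm_apply, ← Finset.prod_mul_distrib]

theorem Pm_diag (μ : Fin l → V → ℤ) :
    Pm (fun c => Matrix.diagonal (μ c)) = Matrix.diagonal fun a : Fin l → V => ∏ c, μ c (a c) := by
  ext g h
  rw [Pm_apply]
  by_cases hgh : g = h
  · subst hgh
    rw [Matrix.diagonal_apply_eq]
    exact Finset.prod_congr rfl fun c _ => Matrix.diagonal_apply_eq _ _
  · rw [Matrix.diagonal_apply_ne _ hgh]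
    obtain ⟨c, hc⟩ := Function.ne_iff.1 hgh
    exact Finset.prod_eq_zero (mem_univ c) (Matrix.diagonal_apply_ne _ hc)

theorem Pm_one : Pm (fun _ : Fin l => (1 : Matrix V V ℤ)) = 1 := by
  have h := Pm_diag (l := l) (V := V) fun _ _ => 1
  have e : (Matrix.diagonal fun _ : V => (1 : ℤ)) = 1 := rfl
  have e2 : (Matrix.diagonal fun _ : Fin l → V => (1 : ℤ)) = 1 := rfl
  simp only [Finset.prod_const_one, e, e2] at h
  exact h

theorem Pm_smul (c : ℤ) (f : Fin l → Matrix V V ℤ) : Pm (fun i => c • f i) = c ^ l • Pm f := by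
  ext g h
  simp only [Pm_apply, Matrix.smul_apply, smul_eq_mul, Finset.prod_mul_distrib, Finset.prod_const,
    Finset.card_univ, Fintype.card_fin]

theorem Pm_T (f : Fin l → Matrix V V ℤ) (h : ∀ c, (f c)ᵀ = f c) : (Pm f)ᵀ = Pm f := by
  ext g k
  rw [transpose_apply, Pm_apply, Pm_apply]
  refine Finset.prod_congr rfl fun c _ => ?_
  have := congrFun (congrFun (h c) (g c)) (k c)
  rwa [transpose_apply] at this

theorem Pm_sg (f : Fin l → Matrix V V ℤ) (h : ∀ c x y, Sg (f c x y)) (g k : Fin l → V) : Sg (Pm f g k) := by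
  rw [Pm_apply]
  exact Finset.prod_induction _ Sg (fun _ _ => Sg.mul) (Or.inl rfl) fun c _ => h _ _ _

theorem Eig.pm {K : Matrix V V ℤ} {f : Fin l → Matrix V V ℤ} {μ : Fin l → V → ℤ}
    (h : ∀ c, Eig K (f c) (μ c)) : Eig (Pm fun _ : Fin l => K) (Pm f) (fun a => ∏ c, μ c (a c)) := by
  unfold Eig at *
  rw [Pm_mul, ← Pm_diag, Pm_mul]
  congr 1
  funext c
  exact h c

theorem HadK.pm {K : Matrix V V ℤ} (hK : HadK K) : HadK (Pm fun _ : Fin l => K) where
  sg := Pm_sg _ fun _ => hK.sg
  T := Pm_T _ fun _ => hK.T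
  KK := by
    rw [Pm_mul]
    simp only [hK.KK]
    rw [Pm_smul, Pm_one, Fintype.card_fun, Fintype.card_fin]
    push_cast
    rfl

end prod

/-- a symmetric Hadamard matrix with a constant row together with a second symmetric Hadamard matrix
which has its rows as eigenvectors -/
structure Ben (V : Type) [Fintype V] [DecidableEq V] (K bt : Matrix V V ℤ) (be : V → ℤ) (z : V) : Prop where
  hK : HadK K
  one : ∀ g, K z g = 1
  btT : btᵀ = bt
  bts : ∀ g h, Sg (bt g h)
  eig : Eig K bt be
  sq : ∀ a, be a * be a = (Fintype.card V : ℤ)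

/-- Sylvester's matrix of order four -/
def K4 : Matrix (Fin 4) (Fin 4) ℤ := !![1, 1, 1, 1; 1, -1, 1, -1; 1, 1, -1, -1; 1, -1, -1, 1]

/-- the bent matrix of order four -/
def b4 : Matrix (Fin 4) (Fin 4) ℤ := !![-1, 1, 1, 1; 1, -1, 1, 1; 1, 1, -1, 1; 1, 1, 1, -1]

theorem ben4 : Ben (Fin 4) K4 b4 (fun a => if a = 0 then 2 else -2) 0 where
  hK := {
    sg := by unfold Sg; decide
    T := by decide
    KK := by rw [Fintype.card_fin]; decide }
  one := by decide
  btT := by decide
  bts := by unfold Sg; decide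
  eig := by unfold Eig; decide
  sq := by rw [Fintype.card_fin]; decide

theorem Ben.pm {V : Type} [Fintype V] [DecidableEq V] {K bt : Matrix V V ℤ} {be : V → ℤ} {z : V}
    (h : Ben V K bt be z) (l : ℕ) :
    Ben (Fin l → V) (Pm fun _ => K) (Pm fun _ => bt) (fun a => ∏ c, be (a c)) (fun _ => z) where
  hK := h.hK.pm
  one := fun g => by
    rw [Pm_apply]
    exact Finset.prod_eq_one fun c _ => h.one _
  btT := Pm_T _ fun _ => h.btT
  bts := Pm_sg _ fun _ => h.bts
  eig := Eig.pm fun _ => h.eig
  sq := fun a => by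
    rw [← Finset.prod_mul_distrib]
    simp only [h.sq, Finset.prod_const, Finset.card_univ, Fintype.card_fin, Fintype.card_fun]
    push_cast
    rfl

/-- for every power of four -/
theorem exists_ben (l : ℕ) : ∃ (V : Type) (_ : Fintype V) (_ : DecidableEq V) (K bt : Matrix V V ℤ)
    (be : V → ℤ) (z : V), Fintype.card V = 4 ^ l ∧ Ben V K bt be z :=
  ⟨Fin l → Fin 4, inferInstance, inferInstance, _, _, _, _, by
    rw [Fintype.card_fun, Fintype.card_fin, Fintype.card_fin], ben4.pm l⟩

end Pool.Agent.H31.PH
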