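import Pool.Agent.H31.PH.Cls

/-!
# The equation for the eigenvalues in terms of the weights
-/

set_option autoImplicit false
set_option linter.unusedSectionVars false

namespace Pool.Agent.H31.PH

open Matrix Finset
open Pool.Agent.Y342.SK (Sg Sg.mul Sg.neg)
open Pool.Agent.N328.PH (HasPH)
open Pool.Agent.H108R3.Had (PUk)

section eqn

variable {V : Type} [Fintype V] [DecidableEq V] {K bt : Matrix V V ℤ} {be : V → ℤ} {z : V} {L : ℕ}
  {Hd : Type} [Fintype Hd] [DecidableEq Hd]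

/-- the classes of the parts at shift zero -/
def clsf (V : Type) (L : ℕ) {Hd : Type} : Option Hd → (Fin (L + 1) → V) ⊕ T1 L Hd
  | some b => .inr (.inr (.inr (b, Fin.last L)))
  | none => .inr (.inl (Fin.last L))

theorem ev_last (q : ℤ) (s : ℕ) (hs : s ≤ L) : ev q L s L = 1 := by
  unfold ev
  rw [if_pos hs, Nat.sub_self, pow_zero]

theorem card_R {q : ℕ} (hq : Fintype.card V = q) :
    (Fintype.card (Fin (L + 1) → V) : ℤ) = (q : ℤ) ^ (L + 1) := by
  rw [Fintype.card_fun, Fintype.card_fin, hq]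
  push_cast
  rfl

/-- squares for the special classes -/
def Phi (q : ℕ) (L : ℕ) (z : V) (v : Hd → V) (a : Fin (L + 1) → V) : Option Hd → ℤ
  | some b => ((if a = hdf z L v b then (q : ℤ) ^ (L + 1) else 0) - 2) ^ 2
  | none => (q : ℤ) ^ (L + 1)

theorem lc_sq_C (h : Ben V K bt be z) {q : ℕ} (hq : Fintype.card V = q) (v : Hd → V)
    (a : Fin (L + 1) → V) (i : Fin (L + 1)) :
    lc be z L v (.inr (.inl i)) a * lc be z L v (.inr (.inl i)) a =
      (q : ℤ) ^ (i.val + 1) * ev q L (lv z a) i.val ^ 2 := by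
  unfold lc
  simp only []
  rw [mu_eq le_rfl, ← pow_two, mul_pow, beta_sq h (by have := i.isLt; omega), hq]

theorem lc_sq_D (h : Ben V K bt be z) {q : ℕ} (hq : Fintype.card V = q) (v : Hd → V)
    (a : Fin (L + 1) → V) (p : Fin (L + 1) × Fin (L + 1)) (hp : p.1.val ≤ p.2.val) :
    lc be z L v (.inr (.inr (.inl p))) a * lc be z L v (.inr (.inr (.inl p))) a =
      (q : ℤ) ^ (p.1.val + 1) * (ev q L (lv z a) p.1.val - 2 * ev q L (lv z a) p.2.val) ^ 2 := by
  unfold lc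
  simp only []
  rw [mu_eq le_rfl, mu_eq (by omega), hq]
  have h1 := beta_sq (L := L) h (show p.1.val + 1 ≤ L + 1 by have := p.1.isLt; omega) a
  rw [hq] at h1
  linear_combination ((ev q L (lv z a) p.1.val - 2 * ev q L (lv z a) p.2.val) ^ 2) * h1

theorem lc_sq_H {q : ℕ} (hq : Fintype.card V = q) (v : Hd → V)
    (a : Fin (L + 1) → V) (p : Hd × Fin (L + 1)) :
    lc be z L v (.inr (.inr (.inr p))) a * lc be z L v (.inr (.inr (.inr p))) a =
      ((if a = hdf z L v p.1 then (q : ℤ) ^ (L + 1) else 0) - 2 * ev q L (lv z a) p.2.val) ^ 2 := by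
  unfold lc
  simp only []
  rw [mu_eq (by omega), hq, card_R hq, beta_zero]
  ring

theorem lc_cls (h : Ben V K bt be z) {q : ℕ} (hq : Fintype.card V = q) (v : Hd → V)
    (a : Fin (L + 1) → V) (o : Option Hd) :
    lc be z L v (clsf V L o) a * lc be z L v (clsf V L o) a = Phi q L z v a o := by
  rcases o with _ | b
  · unfold clsf
    rw [lc_sq_C h hq, Fin.val_last, ev_last _ _ (lv_le a)]
    unfold Phi
    ring
  · unfold clsf
    rw [lc_sq_H hq, Fin.val_last, ev_last _ _ (lv_le a)]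
    unfold Phi
    ring

/-- the weights -/
def Wt (WM : (Fin (L + 1) → V) → ℕ) (WC : ℕ → ℕ) (WD : ℕ → ℕ → ℕ) (WH : Hd → ℕ → ℕ) :
    ((Fin (L + 1) → V) ⊕ T1 L Hd) → ℕ
  | .inl a => WM a
  | .inr (.inl i) => WC i.val
  | .inr (.inr (.inl p)) => WD (p.1.val + 1) p.2.val
  | .inr (.inr (.inr p)) => WH p.1 p.2.val

theorem sum_Wt (h : Ben V K bt be z) {q : ℕ} (hq : Fintype.card V = q) (v : Hd → V)
    (WM : (Fin (L + 1) → V) → ℕ) (WC : ℕ → ℕ) {WD : ℕ → ℕ → ℕ} (WH : Hd → ℕ → ℕ)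
    (hWD : ∀ j i, i < j → WD j i = 0) (a : Fin (L + 1) → V) :
    ∑ t, (Wt WM WC WD WH t : ℤ) * (lc be z L v t a * lc be z L v t a) =
      (q : ℤ) ^ (2 * (L + 1)) * WM a +
      ∑ i ∈ range (L + 1), (WC i : ℤ) * ((q : ℤ) ^ (i + 1) * ev q L (lv z a) i ^ 2) +
      ∑ s ∈ range (L + 1), ∑ i ∈ range (L + 1), (WD (s + 1) i : ℤ) *
        ((q : ℤ) ^ (s + 1) * (ev q L (lv z a) s - 2 * ev q L (lv z a) i) ^ 2) +
      ∑ b, ∑ i ∈ range (L + 1), (WH b i : ℤ) *
        ((if a = hdf z L v b then (q : ℤ) ^ (L + 1) else 0) - 2 * ev q L (lv z a) i) ^ 2 := by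
  rw [Fintype.sum_sum_type, Fintype.sum_sum_type, Fintype.sum_sum_type, Fintype.sum_prod_type,
    Fintype.sum_prod_type]
  have h1 : ∑ a' : Fin (L + 1) → V, (Wt WM WC WD WH (Sum.inl a') : ℤ) *
      (lc be z L v (Sum.inl a') a * lc be z L v (Sum.inl a') a) = (q : ℤ) ^ (2 * (L + 1)) * WM a := by
    rw [Finset.sum_eq_single a]
    · unfold lc Wt
      simp only [if_true]
      rw [card_R hq]
      ring
    · intro a' _ ha'
      unfold lc
      simp only [if_neg (Ne.symm ha')]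
      ring
    · intro hn; exact absurd (mem_univ _) hn
  have h2 : ∑ i : Fin (L + 1), (Wt WM WC WD WH (Sum.inr (Sum.inl i)) : ℤ) *
      (lc be z L v (Sum.inr (Sum.inl i)) a * lc be z L v (Sum.inr (Sum.inl i)) a) =
      ∑ i ∈ range (L + 1), (WC i : ℤ) * ((q : ℤ) ^ (i + 1) * ev q L (lv z a) i ^ 2) := by
    rw [← Fin.sum_univ_eq_sum_range (fun i => (WC i : ℤ) * ((q : ℤ) ^ (i + 1) * ev q L (lv z a) i ^ 2))]
    refine Finset.sum_congr rfl fun i _ => ?_
    rw [lc_sq_C h hq]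
    rfl
  have h3 : ∑ x : Fin (L + 1), ∑ y : Fin (L + 1), (Wt WM WC WD WH (Sum.inr (Sum.inr (Sum.inl (x, y)))) : ℤ) *
      (lc be z L v (Sum.inr (Sum.inr (Sum.inl (x, y)))) a *
        lc be z L v (Sum.inr (Sum.inr (Sum.inl (x, y)))) a) =
      ∑ s ∈ range (L + 1), ∑ i ∈ range (L + 1), (WD (s + 1) i : ℤ) *
        ((q : ℤ) ^ (s + 1) * (ev q L (lv z a) s - 2 * ev q L (lv z a) i) ^ 2) := by
    rw [← Fin.sum_univ_eq_sum_range (fun s => ∑ i ∈ range (L + 1), (WD (s + 1) i : ℤ) *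
        ((q : ℤ) ^ (s + 1) * (ev q L (lv z a) s - 2 * ev q L (lv z a) i) ^ 2))]
    refine Finset.sum_congr rfl fun x _ => ?_
    rw [← Fin.sum_univ_eq_sum_range (fun i => (WD (x.val + 1) i : ℤ) *
        ((q : ℤ) ^ (x.val + 1) * (ev q L (lv z a) x.val - 2 * ev q L (lv z a) i) ^ 2))]
    refine Finset.sum_congr rfl fun y _ => ?_
    by_cases hxy : x.val ≤ y.val
    · rw [lc_sq_D h hq _ _ _ hxy]
      rfl
    · have e : Wt WM WC WD WH (Sum.inr (Sum.inr (Sum.inl (x, y)))) = WD (x.val + 1) y.val := rfl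
      rw [e, hWD _ _ (by omega)]
      push_cast
      ring
  have h4 : ∑ x : Hd, ∑ y : Fin (L + 1), (Wt WM WC WD WH (Sum.inr (Sum.inr (Sum.inr (x, y)))) : ℤ) *
      (lc be z L v (Sum.inr (Sum.inr (Sum.inr (x, y)))) a *
        lc be z L v (Sum.inr (Sum.inr (Sum.inr (x, y)))) a) =
      ∑ b, ∑ i ∈ range (L + 1), (WH b i : ℤ) *
        ((if a = hdf z L v b then (q : ℤ) ^ (L + 1) else 0) - 2 * ev q L (lv z a) i) ^ 2 := by
    refine Finset.sum_congr rfl fun x _ => ?_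
    rw [← Fin.sum_univ_eq_sum_range (fun i => (WH x i : ℤ) *
        ((if a = hdf z L v x then (q : ℤ) ^ (L + 1) else 0) - 2 * ev q L (lv z a) i) ^ 2)]
    refine Finset.sum_congr rfl fun y _ => ?_
    rw [lc_sq_H hq]
    rfl
  rw [h1, h2, h3, h4]
  ring

/-- rows for the classes -/
theorem exists_rho {j : ℕ} (hj : Fintype.card (T1 L Hd) + 1 ≤ 2 ^ j) :
    ∃ ρ : ((Fin (L + 1) → V) ⊕ T1 L Hd) → Fin (2 ^ j), ∀ s t, s ≠ t → ρ s = ρ t →
      ∃ a b, s = .inl a ∧ t = .inl b ∧ a ≠ b := by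
  let e : T1 L Hd ≃ Fin (Fintype.card (T1 L Hd)) := Fintype.equivFin _
  refine ⟨fun t => match t with
    | .inl _ => ⟨0, by omega⟩
    | .inr t => ⟨(e t).val + 1, by have := (e t).isLt; omega⟩, fun s t hst h => ?_⟩
  rcases s with a | s <;> rcases t with b | t
  · exact ⟨a, b, rfl, rfl, fun h' => hst (by rw [h'])⟩
  · simp only [Fin.mk.injEq] at h; omega
  · simp only [Fin.mk.injEq] at h; omega
  · simp only [Fin.mk.injEq, Nat.add_right_cancel_iff] at h
    exact absurd (by rw [e.injective (Fin.ext h)]) hst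

/-- partial Hadamard matrices from solutions of the equation -/
theorem cls_thm (h : Ben V K bt be z) {q : ℕ} (hq : Fintype.card V = q)
    (v : Hd → V) (b0 : Hd) {j k S K' J : ℕ} (hK' : K' = 1 + j + k)
    (hJ : J = 2 ^ (5 * 2 ^ K' - 1)) (hPU : ∀ l ≤ S, PUk k l)
    (hj : Fintype.card (T1 L Hd) + 1 ≤ 2 ^ j) (κ : ℕ → Option Hd)
    (WM : (Fin (L + 1) → V) → ℕ) (WC : ℕ → ℕ) {WD : ℕ → ℕ → ℕ} (WH : Hd → ℕ → ℕ)
    (hWD : ∀ j i, i < j → WD j i = 0) (ν : Hd → ℕ) (hH : ∀ b, HasPH (J * (2 * S + 1)) (ν b))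
    {n : ℕ} (hn : ∑ b, ν b + q ^ (L + 1) * (J * (2 * S + 1)) = n) (u : Option Hd → ℕ)
    (hu : ∀ o, ∑ i ∈ (range (5 * 2 ^ K' - 1)).filter (fun i => κ i = o), 2 ^ i +
      (if o = some b0 then 1 else 0) = u o)
    (hE : ∀ a : Fin (L + 1) → V, ∑ o, (u o : ℤ) * Phi q L z v a o +
      J * ((q : ℤ) ^ (2 * (L + 1)) * WM a +
      ∑ i ∈ range (L + 1), (WC i : ℤ) * ((q : ℤ) ^ (i + 1) * ev q L (lv z a) i ^ 2) +
      ∑ s ∈ range (L + 1), ∑ i ∈ range (L + 1), (WD (s + 1) i : ℤ) *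
        ((q : ℤ) ^ (s + 1) * (ev q L (lv z a) s - 2 * ev q L (lv z a) i) ^ 2) +
      ∑ b, ∑ i ∈ range (L + 1), (WH b i : ℤ) *
        ((if a = hdf z L v b then (q : ℤ) ^ (L + 1) else 0) - 2 * ev q L (lv z a) i) ^ 2) +
      ∑ b, (ν b : ℤ) * (if a = hdf z L v b then (q : ℤ) ^ (L + 1) else 0) = n) :
    HasPH (q ^ (L + 1) * (J * (2 * S + 1))) n := by
  obtain ⟨ρ, hρ⟩ := exists_rho (V := V) hj
  have hne : Nonempty (Fin (L + 1) → V) := ⟨fun _ => z⟩
  have hr : Fintype.card (Fin (L + 1) → V) = q ^ (L + 1) := by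
    rw [Fintype.card_fun, Fintype.card_fin, hq]
  refine param h.hK.pm hr (Bc_eig h v) (Bc_T h v) (Bc_sg h v) hK' hJ hPU ρ (fun s t hst hr => ?_)
    (clsf V L (some b0)) (fun i => clsf V L (κ i)) _ (fun t => rfl) (Wt WM WC WD WH)
    (hdf z L v) ν hH hn fun a => ?_
  · obtain ⟨a, b, rfl, rfl, hab⟩ := hρ s t hst hr
    exact pr_pr h.hK.pm hab
  · rw [← hE a, ← sum_Wt h hq v WM WC WH hWD a]
    have e1 : ∀ t, ((∑ i ∈ (range (5 * 2 ^ K' - 1)).filter (fun i => clsf V L (κ i) = t), 2 ^ i : ℕ) +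
        (J : ℤ) * (Wt WM WC WD WH t)) * (lc be z L v t a * lc be z L v t a) =
        (∑ i ∈ (range (5 * 2 ^ K' - 1)).filter (fun i => clsf V L (κ i) = t),
          2 ^ i * Phi q L z v a (κ i)) +
        J * (Wt WM WC WD WH t * (lc be z L v t a * lc be z L v t a)) := by
      intro t
      rw [add_mul]
      congr 1
      · push_cast
        rw [Finset.sum_mul]
        refine Finset.sum_congr rfl fun i hi => ?_
        rw [mem_filter] at hi
        rw [← hi.2, lc_cls h hq]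
      · ring
    rw [Finset.sum_congr rfl fun t _ => e1 t, Finset.sum_add_distrib, ← Finset.mul_sum,
      Finset.sum_fiberwise (range (5 * 2 ^ K' - 1)) (fun i => clsf V L (κ i))
        (fun i => (2 : ℤ) ^ i * Phi q L z v a (κ i)), lc_cls h hq]
    have e2 : ∑ o, (u o : ℤ) * Phi q L z v a o = Phi q L z v a (some b0) +
        ∑ i ∈ range (5 * 2 ^ K' - 1), (2 : ℤ) ^ i * Phi q L z v a (κ i) := by
      rw [← Finset.sum_fiberwise (range (5 * 2 ^ K' - 1)) κ
        (fun i => (2 : ℤ) ^ i * Phi q L z v a (κ i))]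
      have e3 : ∀ o, (u o : ℤ) * Phi q L z v a o = (if o = some b0 then Phi q L z v a (some b0) else 0) +
          ∑ i ∈ (range (5 * 2 ^ K' - 1)).filter (fun i => κ i = o),
            (2 : ℤ) ^ i * Phi q L z v a (κ i) := by
        intro o
        have e4 : ∑ i ∈ (range (5 * 2 ^ K' - 1)).filter (fun i => κ i = o),
            (2 : ℤ) ^ i * Phi q L z v a (κ i) = (∑ i ∈ (range (5 * 2 ^ K' - 1)).filter
              (fun i => κ i = o), (2 : ℤ) ^ i) * Phi q L z v a o := by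
          rw [Finset.sum_mul]
          refine Finset.sum_congr rfl fun i hi => ?_
          rw [mem_filter] at hi
          rw [hi.2]
        rw [e4, ← hu o]
        by_cases ho : o = some b0
        · subst ho
          rw [if_pos rfl, if_pos rfl]
          push_cast
          ring
        · rw [if_neg ho, if_neg ho]
          push_cast
          ring
      rw [Finset.sum_congr rfl fun o _ => e3 o, Finset.sum_add_distrib, Finset.sum_ite_eq' univ,
        if_pos (mem_univ _)]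
    rw [e2]
    push_cast
    ring

end eqn

end Pool.Agent.H31.PH
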