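import Pool.Agent.H31.PH.Param2
import Pool.Graph.R_pool_sql_team_seeded_63374d34.N328.PH.Growth
import Pool.Graph.R_pool_sql_team_seeded_63374d34.N328.PH.Prime
import Pool.Graph.R_seed8.Y342.SK.Sym

/-!
# Partial Hadamard matrices with `n - n ^ (2 / 3 + ε)` rows
-/

set_option autoImplicit false

namespace Pool.Agent.H31.PH

open Pool.Agent.N328.PH (HasPH tow_big tow_ge tow_mono log_pow_le)
open Pool.Agent.H108R3.Had (PUk HasHad)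
open Pool.Agent.W851.Had (tow tow_succ tow_pos tow_zero)

/-- the growth -/
theorem growth2 (L : ℕ) : ∃ N0 : ℕ, ∀ n : ℕ, N0 ≤ n → ∃ k t : ℕ, (∀ l ≤ n, PUk k l) ∧
    (∀ v, v ^ 2 ≤ n → 2 ^ t ∣ v + 1 → HasHad (4 * v ^ 2)) ∧
    5 * 2 ^ (1 + (k + 2 * L + 8) + k) ≤ t ∧ ((2 ^ t : ℕ) : ℝ) ≤ Real.log n := by
  obtain ⟨C₁, hC₁, h1⟩ := Pool.Agent.W851.Had.main_pu
  obtain ⟨C₂, hC₂, h2⟩ := Pool.Agent.Y342.SK.main_four
  obtain ⟨C, hC⟩ : ∃ C, C = C₁ + C₂ := ⟨_, rfl⟩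
  obtain ⟨M0, hM0⟩ := tow_big ((2 * (2 * L + 13)) * C)
  refine ⟨tow (M0 + 4) + 1, fun n hn => ?_⟩
  have hex : ∃ T, n ≤ tow T := ⟨n, (Nat.le_succ n).trans (tow_ge n)⟩
  classical
  obtain ⟨T, hT, hmin⟩ : ∃ T, n ≤ tow T ∧ ∀ T' < T, ¬ n ≤ tow T' :=
    ⟨Nat.find hex, Nat.find_spec hex, fun T' h => Nat.find_min hex h⟩
  have hTM : M0 + 4 < T := by
    by_contra h
    have := tow_mono (not_lt.1 h)
    omega
  obtain ⟨M, rfl⟩ : ∃ M, T = M + 4 := ⟨T - 4, by omega⟩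
  obtain ⟨k, hk⟩ : ∃ k, k = C ^ (M + 4 + 1) := ⟨_, rfl⟩
  have hk1 : 1 ≤ k := by rw [hk]; exact Nat.one_le_pow _ _ (by omega)
  refine ⟨k, 2 ^ k + 5 * 2 ^ (1 + (k + 2 * L + 8) + k), fun l hl => ?_, fun v hv hd => ?_,
    Nat.le_add_left _ _, ?_⟩
  · refine h1 (M + 4) l _ (hl.trans hT) ?_
    rw [hk]
    exact Nat.pow_le_pow_left (by omega) _
  · have := h2 (M + 4) v (2 ^ k + 5 * 2 ^ (1 + (k + 2 * L + 8) + k)) 0 (by
      simpa using hv.trans hT) (by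
      refine le_trans ?_ (Nat.le_add_right _ _)
      apply Nat.pow_le_pow_right (by norm_num)
      rw [hk]
      exact Nat.pow_le_pow_left (by omega) _) hd
    simpa using this
  · have g1 : tow (M + 3) < n := not_le.1 (hmin (M + 3) (by omega))
    have g2 := hM0 M (by omega)
    have g3 : 2 * k + 2 * L + 13 ≤ tow M := by
      refine le_trans ?_ ((Nat.le_add_right _ 5).trans g2)
      rw [mul_pow]
      have e1 : (2 * (2 * L + 13)) ≤ (2 * (2 * L + 13)) ^ (M + 5) := Nat.le_self_pow (by omega) _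
      have e2 : C ^ (M + 5) = k := by rw [hk]
      rw [e2]
      have e3 : (2 * (2 * L + 13)) * k ≤ (2 * (2 * L + 13)) ^ (M + 5) * k := Nat.mul_le_mul_right _ e1
      refine le_trans ?_ e3
      nlinarith
    have g4 : 2 ^ k + 5 * 2 ^ (1 + (k + 2 * L + 8) + k) + 1 ≤ tow (M + 1) := by
      rw [tow_succ]
      have e1 : 2 ^ k ≤ 2 ^ (1 + (k + 2 * L + 8) + k) := Nat.pow_le_pow_right (by norm_num) (by omega)
      have e2 : 1 ≤ 2 ^ (1 + (k + 2 * L + 8) + k) := Nat.one_le_two_pow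
      calc 2 ^ k + 5 * 2 ^ (1 + (k + 2 * L + 8) + k) + 1 ≤ 2 ^ 3 * 2 ^ (1 + (k + 2 * L + 8) + k) := by omega
        _ = 2 ^ (3 + (1 + (k + 2 * L + 8) + k)) := by rw [pow_add 2 3]
        _ ≤ 2 ^ tow M := Nat.pow_le_pow_right (by norm_num) (by omega)
    have g5 : 2 ^ (2 ^ k + 5 * 2 ^ (1 + (k + 2 * L + 8) + k)) * 2 ≤ tow (M + 2) := by
      rw [tow_succ, ← pow_succ]
      exact Nat.pow_le_pow_right (by norm_num) g4
    have h5 : Real.log (tow (M + 3) : ℕ) = tow (M + 2) * Real.log 2 := by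
      rw [tow_succ (M + 2), Nat.cast_pow, Real.log_pow]
      norm_num
    have h6 : Real.log (tow (M + 3) : ℕ) ≤ Real.log n := by
      apply Real.log_le_log
      · exact_mod_cast tow_pos _
      · exact_mod_cast g1.le
    have h7 := Real.log_two_gt_d9
    have h8 : ((2 ^ (2 ^ k + 5 * 2 ^ (1 + (k + 2 * L + 8) + k)) * 2 : ℕ) : ℝ) ≤ (tow (M + 2) : ℕ) := by
      exact_mod_cast g5
    rw [Nat.cast_mul, Nat.cast_ofNat] at h8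
    have h9 : (0 : ℝ) ≤ (tow (M + 2) : ℕ) := Nat.cast_nonneg _
    rw [h5] at h6
    nlinarith

/-- partial Hadamard matrices with `n - n ^ (2 / 3 + ε)` rows -/
theorem main (ε : ℝ) (hε : 0 < ε) : ∃ N0 : ℕ, ∀ n : ℕ, N0 ≤ n → 4 ∣ n →
    ∃ k : ℕ, (n : ℝ) - (n : ℝ) ^ (2 / 3 + ε : ℝ) ≤ k ∧ HasPH k n := by
  obtain ⟨L, hL⟩ : ∃ L : ℕ, 1 ≤ ε * (3 * L + 5) := by
    obtain ⟨L, hL⟩ := exists_nat_gt (1 / ε)
    refine ⟨L, ?_⟩
    rw [div_lt_iff₀ hε] at hL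
    have : (0 : ℝ) ≤ L := Nat.cast_nonneg _
    nlinarith
  obtain ⟨N1, h1⟩ := growth2 L
  obtain ⟨N2, h2⟩ := log_pow_le (2 * (8 * L + 14))
  obtain ⟨c₁, hc₁⟩ : ∃ c₁, c₁ = L ^ 2 + 15 * L + 21 := ⟨_, rfl⟩
  obtain ⟨Kc, hKc⟩ : ∃ Kc : ℝ, Kc = 2 ^ 20 * c₁ + 4 ^ (3 * L + 5) + 16 := ⟨_, rfl⟩
  refine ⟨max (max N1 N2) ⌈Real.exp Kc⌉₊, fun n hn h4 => ?_⟩
  have hn1 : N1 ≤ n := (le_trans (le_max_left _ _) (le_max_left _ _)).trans hn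
  have hn2 : N2 ≤ n := (le_trans (le_max_right _ _) (le_max_left _ _)).trans hn
  have hn4 : Real.exp Kc ≤ n := (Nat.le_ceil _).trans (by exact_mod_cast (le_max_right _ _).trans hn)
  have hn0 : (0 : ℝ) < n := lt_of_lt_of_le (Real.exp_pos _) hn4
  obtain ⟨Y, hY⟩ : ∃ Y : ℝ, Y = Real.log n := ⟨_, rfl⟩
  have hYK : Kc ≤ Y := by
    rw [hY, Real.le_log_iff_exp_le hn0]; exact hn4
  have hc0 : (0 : ℝ) ≤ 2 ^ 20 * c₁ := by positivity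
  have hp0 : (0 : ℝ) ≤ 4 ^ (3 * L + 5) := by positivity
  have hY16 : 16 ≤ Y := by linarith
  have hYc : 2 ^ 20 * (c₁ : ℝ) ≤ Y := by linarith
  have hYp : (4 : ℝ) ^ (3 * L + 5) ≤ Y := by linarith
  have hY1 : 1 ≤ Y := by linarith
  have hY0 : 0 < Y := by linarith
  obtain ⟨k, t, hPU, hsp, hkt, hTY⟩ := h1 n hn1
  obtain ⟨T, hT⟩ : ∃ T, T = 2 ^ t := ⟨_, rfl⟩
  rw [← hT, ← hY] at hTY
  have hT0 : (0 : ℝ) < T := by rw [hT]; positivity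
  have hkT : k + 2 ≤ T := by
    have e1 : t < 2 ^ t := Nat.lt_two_pow_self
    have e2 : 1 + (k + 2 * L + 8) + k < 2 ^ (1 + (k + 2 * L + 8) + k) := Nat.lt_two_pow_self
    omega
  -- roots
  obtain ⟨s, hs⟩ : ∃ s : ℝ, s = √(n : ℝ) := ⟨_, rfl⟩
  have hss : s * s = n := by rw [hs]; exact Real.mul_self_sqrt hn0.le
  have hlog : Y ^ (2 * (8 * L + 14)) ≤ s := by rw [hY, hs]; exact h2 n hn2
  have hs0 : 0 < s := by rw [hs]; exact Real.sqrt_pos.2 hn0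
  have hs1 : 1 ≤ s := le_trans (one_le_pow₀ hY1) hlog
  have hsn : s ≤ n := by nlinarith
  -- the number `a`
  obtain ⟨a, ha⟩ : ∃ a : ℕ, a = 2 ^ 20 * c₁ * T ^ 3 := ⟨_, rfl⟩
  have ha0 : 0 < a := by
    rw [ha, hc₁, hT]; positivity
  have haR : (0 : ℝ) < a := by exact_mod_cast ha0
  have haY : (a : ℝ) ≤ Y ^ 4 := by
    have e : (a : ℝ) = 2 ^ 20 * c₁ * T ^ 3 := by rw [ha]; push_cast; ring
    rw [e]
    calc (2 : ℝ) ^ 20 * c₁ * T ^ 3 ≤ Y * Y ^ 3 := by gcongr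
      _ = Y ^ 4 := by ring
  have hbig0 : (a : ℝ) * (16 * T) ^ (3 * L + 5) ≤ n := by
    calc (a : ℝ) * (16 * T) ^ (3 * L + 5) ≤ Y ^ 4 * (Y * Y) ^ (3 * L + 5) := by gcongr
      _ = Y ^ (6 * L + 14) := by rw [← pow_two, ← pow_mul, ← pow_add]; congr 1; ring
      _ ≤ Y ^ (2 * (8 * L + 14)) := pow_le_pow_right₀ hY1 (by omega)
      _ ≤ s := hlog
      _ ≤ n := hsn
  have hb1 : (1 : ℝ) < 4 ^ (3 * L + 5) := one_lt_pow₀ (by norm_num) (by omega)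
  have hy1 : 1 ≤ (n : ℝ) / a := by
    rw [le_div_iff₀ haR, one_mul]
    refine le_trans ?_ hbig0
    have hT1 : (1 : ℝ) ≤ T := by exact_mod_cast (by omega : 1 ≤ T)
    exact le_mul_of_one_le_right haR.le (one_le_pow₀ (by linarith))
  obtain ⟨j', hj1, hj2⟩ := exists_nat_pow_near hy1 hb1
  rw [le_div_iff₀ haR] at hj1
  rw [div_lt_iff₀ haR] at hj2
  obtain ⟨q, hq⟩ : ∃ q : ℕ, q = 4 ^ j' := ⟨_, rfl⟩
  have hqR : (q : ℝ) = 4 ^ j' := by rw [hq]; push_cast; rfl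
  have hq0 : (0 : ℝ) < q := by rw [hqR]; positivity
  have e1 : ((4 : ℝ) ^ (3 * L + 5)) ^ j' = q ^ (3 * L + 5) := by
    rw [hqR, ← pow_mul, ← pow_mul, mul_comm]
  rw [e1] at hj1
  rw [pow_succ, e1] at hj2
  have hTq : 4 * T ≤ q := by
    by_contra hcon
    have g1 : (q : ℝ) ≤ 4 * T := by exact_mod_cast (not_le.1 hcon).le
    have g2 : (q : ℝ) ^ (3 * L + 5) * 4 ^ (3 * L + 5) * a ≤ n := by
      refine le_trans ?_ hbig0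
      calc (q : ℝ) ^ (3 * L + 5) * 4 ^ (3 * L + 5) * a ≤ (4 * T) ^ (3 * L + 5) * 4 ^ (3 * L + 5) * a := by
            gcongr
        _ = a * (16 * T) ^ (3 * L + 5) := by rw [← mul_pow]; ring
    linarith
  obtain ⟨r, hr⟩ : ∃ r, r = q ^ (L + 1) := ⟨_, rfl⟩
  have hrR : (r : ℝ) = (q : ℝ) ^ (L + 1) := by rw [hr]; push_cast; rfl
  have hr0 : (0 : ℝ) < r := by rw [hrR]; positivity
  have hbig : 2 ^ 20 * c₁ * T ^ 3 * (q ^ 2 * r ^ 3) ≤ n := by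
    rw [← ha]
    have g1 : q ^ 2 * r ^ 3 = q ^ (3 * L + 5) := by
      rw [hr, ← pow_mul, ← pow_add]; congr 1; ring
    rw [g1]
    have g2 : ((a * q ^ (3 * L + 5) : ℕ) : ℝ) ≤ n := by push_cast; linarith
    exact_mod_cast g2
  obtain ⟨x, hx1, hx2, hx3⟩ := level_n (L := L) (J := 2 ^ (5 * 2 ^ (1 + (k + 2 * L + 8) + k) - 1))
    h4 hPU hsp rfl rfl hT hkt hq hTq hr hc₁ hbig
  refine ⟨x, ?_, hx1⟩
  -- the estimate
  have hD : (r : ℝ) * ((n : ℝ) - x) ≤ T * n := by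
    have g1 : ((r * (n - x) : ℕ) : ℝ) ≤ (((k + 2) * n : ℕ) : ℝ) := by exact_mod_cast hx3
    push_cast [Nat.cast_sub hx2] at g1
    have g2 : ((k : ℝ) + 2) ≤ T := by exact_mod_cast hkT
    calc (r : ℝ) * ((n : ℝ) - x) ≤ (k + 2) * n := g1
      _ ≤ T * n := by gcongr
  by_contra hcon
  have hD2 : (n : ℝ) ^ (2 / 3 + ε : ℝ) < (n : ℝ) - x := by linarith [not_le.1 hcon]
  have hn1' : (1 : ℝ) ≤ n := by linarith
  have hrT : (r : ℝ) * (n : ℝ) ^ (2 / 3 + ε : ℝ) < T * n := by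
    calc (r : ℝ) * (n : ℝ) ^ (2 / 3 + ε : ℝ) < r * ((n : ℝ) - x) := by gcongr
      _ ≤ T * n := hD
  have hr2 : (r : ℝ) < Y * (n : ℝ) ^ (1 / 3 - ε : ℝ) := by
    have g1 : (n : ℝ) ^ (1 / 3 - ε : ℝ) * (n : ℝ) ^ (2 / 3 + ε : ℝ) = n := by
      rw [← Real.rpow_add hn0]
      have : (1 / 3 - ε + (2 / 3 + ε) : ℝ) = 1 := by ring
      rw [this, Real.rpow_one]
    have g2 : 0 < (n : ℝ) ^ (2 / 3 + ε : ℝ) := by positivity
    have g3 : (r : ℝ) * (n : ℝ) ^ (2 / 3 + ε : ℝ) <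
        (Y * (n : ℝ) ^ (1 / 3 - ε : ℝ)) * (n : ℝ) ^ (2 / 3 + ε : ℝ) := by
      rw [mul_assoc, g1]
      refine lt_of_lt_of_le hrT ?_
      gcongr
    exact lt_of_mul_lt_mul_right g3 g2.le
  -- compare the powers
  have hpow : (r : ℝ) ^ (3 * L + 5) = ((q : ℝ) ^ (3 * L + 5)) ^ (L + 1) := by
    rw [hrR, ← pow_mul, ← pow_mul, mul_comm]
  have hup : (r : ℝ) ^ (3 * L + 5) ≤ Y ^ (3 * L + 5) * (n : ℝ) ^ (L + 2 / 3 : ℝ) := by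
    calc (r : ℝ) ^ (3 * L + 5) ≤ (Y * (n : ℝ) ^ (1 / 3 - ε : ℝ)) ^ (3 * L + 5) := by gcongr
      _ = Y ^ (3 * L + 5) * (n : ℝ) ^ ((1 / 3 - ε) * (3 * L + 5) : ℝ) := by
          rw [mul_pow, ← Real.rpow_natCast ((n : ℝ) ^ (1 / 3 - ε : ℝ)), ← Real.rpow_mul hn0.le]
          push_cast
          rfl
      _ ≤ Y ^ (3 * L + 5) * (n : ℝ) ^ (L + 2 / 3 : ℝ) := by
          apply mul_le_mul_of_nonneg_left _ (by positivity)
          apply Real.rpow_le_rpow_of_exponent_le hn1'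
          nlinarith
  have hlo : (n : ℝ) ^ (L + 1) ≤ (Y ^ 5) ^ (L + 1) * ((q : ℝ) ^ (3 * L + 5)) ^ (L + 1) := by
    rw [← mul_pow]
    apply pow_le_pow_left₀ hn0.le
    calc (n : ℝ) ≤ (q : ℝ) ^ (3 * L + 5) * 4 ^ (3 * L + 5) * a := hj2.le
      _ ≤ (q : ℝ) ^ (3 * L + 5) * Y * Y ^ 4 := by gcongr
      _ = Y ^ 5 * (q : ℝ) ^ (3 * L + 5) := by ring
  have hfin : (n : ℝ) ^ (L + 1) ≤ Y ^ (8 * L + 10) * (n : ℝ) ^ (L + 2 / 3 : ℝ) := by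
    calc (n : ℝ) ^ (L + 1) ≤ (Y ^ 5) ^ (L + 1) * ((q : ℝ) ^ (3 * L + 5)) ^ (L + 1) := hlo
      _ ≤ (Y ^ 5) ^ (L + 1) * (Y ^ (3 * L + 5) * (n : ℝ) ^ (L + 2 / 3 : ℝ)) := by
          rw [← hpow]; gcongr
      _ = Y ^ (8 * L + 10) * (n : ℝ) ^ (L + 2 / 3 : ℝ) := by
          rw [← pow_mul, ← mul_assoc, ← pow_add]; congr 2; ring
  have g1 : (n : ℝ) ^ (L + 1) = (n : ℝ) ^ (1 / 3 : ℝ) * (n : ℝ) ^ (L + 2 / 3 : ℝ) := by
    rw [← Real.rpow_add hn0, ← Real.rpow_natCast]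
    congr 1
    push_cast
    ring
  rw [g1] at hfin
  have g2 : (n : ℝ) ^ (1 / 3 : ℝ) ≤ Y ^ (8 * L + 10) := le_of_mul_le_mul_right hfin (by positivity)
  have g3 : (Y ^ (8 * L + 14)) ^ 2 ≤ s := by
    rw [← pow_mul, mul_comm]; exact hlog
  have g4 : s = (n : ℝ) ^ (1 / 2 : ℝ) := by rw [hs, Real.sqrt_eq_rpow]
  have g5 : ((n : ℝ) ^ (1 / 4 : ℝ)) ^ 2 = s := by
    rw [g4, ← Real.rpow_natCast, ← Real.rpow_mul hn0.le]
    norm_num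
  have g6 : Y ^ (8 * L + 14) ≤ (n : ℝ) ^ (1 / 4 : ℝ) := by
    apply le_of_sq_le_sq _ (by positivity)
    rw [g5]; exact g3
  have g7 : (n : ℝ) ^ (1 / 4 : ℝ) ≤ (n : ℝ) ^ (1 / 3 : ℝ) :=
    Real.rpow_le_rpow_of_exponent_le hn1' (by norm_num)
  have g8 : Y ^ (8 * L + 10) < Y ^ (8 * L + 14) := pow_lt_pow_right₀ (by linarith) (by omega)
  linarith

end Pool.Agent.H31.PH
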