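import Pool.Graph.R_pool_sql_team_seeded_63374d34.N328.PH.Base

/-!
# Gadgets whose skew matrix is split into parts of weights `1, 2, 4, …`
-/

set_option autoImplicit false
set_option linter.unusedSectionVars false

namespace Pool.Agent.H31.PH

open Matrix Finset
open scoped Kronecker
open Pool.Agent.Y342.SK (Sg Sg.mul Sg.neg Rel rel_neg ep ep_self ep_ne sq_add)
open Pool.Agent.N328.PH (Arms IsD bP bP_isD bArms)

variable {ι κ : Type} [Fintype ι] [DecidableEq ι] [Fintype κ] [DecidableEq κ] {c : ℤ}

/-- the parts -/
structure IsSplit (G : Arms ι κ c) (L : ℕ) (D : ℕ → Matrix ι ι ℤ) : Prop where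
  hD : ∀ i < L, IsD G (D i) (2 ^ i)
  rel : ∀ i < L, ∀ j < L, i ≠ j → Rel (-1) (D i) (D j)
  D0 : ∀ i < L, ∀ x, D i x x = 0
  cov : ∀ x y, x ≠ y → ∃ i < L, Sg (D i x y) ∧ ∀ j < L, j ≠ i → D j x y = 0

theorem rel_zero_left (s : ℤ) (X : Matrix ι ι ℤ) : Rel s 0 X := by
  unfold Pool.Agent.Y342.SK.Rel; simp

theorem rel_zero_right (s : ℤ) (X : Matrix ι ι ℤ) : Rel s X 0 := by
  unfold Pool.Agent.Y342.SK.Rel; simp

theorem isD_zero (G : Arms ι κ c) : IsD G 0 0 where
  XT := by simp
  XX := by simp
  XA := fun _ => rel_zero_left _ _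
  XE := rel_zero_left _ _
  XY := rel_zero_left _ _

/-- the new parts -/
def stepD (G G' : Arms ι κ c) (L : ℕ) (D D' : ℕ → Matrix ι ι ℤ) (i : ℕ) :
    Matrix (Fin 2 × (ι × ι)) (Fin 2 × (ι × ι)) ℤ :=
  if i < L then Arms.part G G' 0 (D' i) 0 else if i < 2 * L then Arms.part G G' (D (i - L)) 0 0
  else Arms.part G G' 0 0 1

theorem IsSplit.step {G G' : Arms ι κ c} {L : ℕ} {D D' : ℕ → Matrix ι ι ℤ} (h : IsSplit G L D)
    (h' : IsSplit G' L D') (hL : Fintype.card ι = 2 ^ L) :
    IsSplit (Arms.step G G') (2 * L + 1) (stepD G G' L D D') where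
  hD := fun i hi => by
    unfold stepD
    by_cases h1 : i < L
    · rw [if_pos h1]
      have := Arms.isD_step (isD_zero G) (h'.hD i h1) (t := 0) (Or.inl rfl)
      convert this using 1
      ring
    · rw [if_neg h1]
      by_cases h2 : i < 2 * L
      · rw [if_pos h2]
        have := Arms.isD_step (h.hD (i - L) (by omega)) (isD_zero G') (t := 0) (Or.inl rfl)
        convert this using 1
        rw [hL]
        push_cast
        have e : i = (i - L) + L := by omega
        conv_lhs => rw [e, pow_add]
        ring
      · rw [if_neg h2]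
        have := Arms.isD_step (isD_zero G) (isD_zero G') (t := 1) (Or.inr rfl)
        convert this using 1
        rw [hL]
        push_cast
        have e : i = L + L := by omega
        rw [e, pow_add]
        ring
  rel := fun i hi j hj hij => by
    unfold stepD
    by_cases i1 : i < L
    · rw [if_pos i1]
      by_cases j1 : j < L
      · rw [if_pos j1]
        exact Arms.part_part (isD_zero G) (h'.hD i i1) (isD_zero G) (h'.hD j j1) (rel_zero_left _ _)
          (h'.rel i i1 j j1 hij) (by norm_num)
      · rw [if_neg j1]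
        by_cases j2 : j < 2 * L
        · rw [if_pos j2]
          exact Arms.part_part (isD_zero G) (h'.hD i i1) (h.hD (j - L) (by omega)) (isD_zero G')
            (rel_zero_left _ _) (rel_zero_right _ _) (by norm_num)
        · rw [if_neg j2]
          exact Arms.part_part (isD_zero G) (h'.hD i i1) (isD_zero G) (isD_zero G')
            (rel_zero_left _ _) (rel_zero_right _ _) (by norm_num)
    · rw [if_neg i1]
      by_cases i2 : i < 2 * L
      · rw [if_pos i2]
        by_cases j1 : j < L
        · rw [if_pos j1]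
          exact Arms.part_part (h.hD (i - L) (by omega)) (isD_zero G') (isD_zero G) (h'.hD j j1)
            (rel_zero_right _ _) (rel_zero_left _ _) (by norm_num)
        · rw [if_neg j1]
          by_cases j2 : j < 2 * L
          · rw [if_pos j2]
            exact Arms.part_part (h.hD (i - L) (by omega)) (isD_zero G') (h.hD (j - L) (by omega))
              (isD_zero G') (h.rel _ (by omega) _ (by omega) (by omega)) (rel_zero_left _ _) (by norm_num)
          · rw [if_neg j2]
            exact Arms.part_part (h.hD (i - L) (by omega)) (isD_zero G') (isD_zero G) (isD_zero G')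
              (rel_zero_right _ _) (rel_zero_left _ _) (by norm_num)
      · rw [if_neg i2]
        by_cases j1 : j < L
        · rw [if_pos j1]
          exact Arms.part_part (isD_zero G) (isD_zero G') (isD_zero G) (h'.hD j j1)
            (rel_zero_left _ _) (rel_zero_left _ _) (by norm_num)
        · rw [if_neg j1]
          by_cases j2 : j < 2 * L
          · rw [if_pos j2]
            exact Arms.part_part (isD_zero G) (isD_zero G') (h.hD (j - L) (by omega))
              (isD_zero G') (rel_zero_left _ _) (rel_zero_left _ _) (by norm_num)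
          · omega
  D0 := fun i hi x => by
    unfold stepD
    have z : ∀ x : ι, (0 : Matrix ι ι ℤ) x x = 0 := fun _ => rfl
    by_cases h1 : i < L
    · rw [if_pos h1]; exact Arms.part_self z (h'.D0 i h1) _ _
    · rw [if_neg h1]
      by_cases h2 : i < 2 * L
      · rw [if_pos h2]; exact Arms.part_self (h.D0 _ (by omega)) z _ _
      · rw [if_neg h2]; exact Arms.part_self z z _ _
  cov := fun x y hxy => by
    obtain ⟨i, x, x'⟩ := x
    obtain ⟨j, y, y'⟩ := y
    by_cases hij : i = j
    · subst hij
      by_cases hx : x = y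
      · subst hx
        have hx' : x' ≠ y' := fun h' => hxy (by rw [h'])
        obtain ⟨m, hm, hs, ho⟩ := h'.cov x' y' hx'
        refine ⟨m, by omega, ?_, fun m' hm' hne => ?_⟩
        · unfold stepD
          rw [if_pos hm, Arms.part_apply, if_pos rfl, if_pos rfl]
          simpa using hs
        · unfold stepD
          by_cases h1 : m' < L
          · rw [if_pos h1, Arms.part_apply, if_pos rfl, if_pos rfl, ho m' h1 hne]
            simp
          · rw [if_neg h1]
            by_cases h2 : m' < 2 * L
            · rw [if_pos h2, Arms.part_apply, if_pos rfl, if_pos rfl, h.D0 _ (by omega)]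
              simp
            · rw [if_neg h2, Arms.part_apply, if_pos rfl, if_pos rfl, ep_self]
              simp
      · obtain ⟨m, hm, hs, ho⟩ := h.cov x y hx
        refine ⟨m + L, by omega, ?_, fun m' hm' hne => ?_⟩
        · unfold stepD
          rw [if_neg (by omega), if_pos (by omega), Arms.part_apply, if_pos rfl, if_neg hx,
            Nat.add_sub_cancel, zero_mul, add_zero, add_zero]
          exact hs.mul (G'.Ys _ _)
        · unfold stepD
          by_cases h1 : m' < L
          · rw [if_pos h1, Arms.part_apply, if_pos rfl, if_neg hx]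
            simp
          · rw [if_neg h1]
            by_cases h2 : m' < 2 * L
            · rw [if_pos h2, Arms.part_apply, if_pos rfl, if_neg hx, ho _ (by omega) (by omega)]
              simp
            · rw [if_neg h2, Arms.part_apply, if_pos rfl, if_neg hx, ep_self]
              simp
    · refine ⟨2 * L, by omega, ?_, fun m' hm' hne => ?_⟩
      · unfold stepD
        rw [if_neg (by omega), if_neg (by omega), Arms.part_apply, if_neg hij, zero_add, one_mul]
        exact (ep_ne _ _ hij).mul ((G.Es _ _).mul (G'.Es _ _))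
      · unfold stepD
        by_cases h1 : m' < L
        · rw [if_pos h1, Arms.part_apply, if_neg hij]
          simp
        · rw [if_neg h1, if_pos (by omega), Arms.part_apply, if_neg hij]
          simp

/-- the parts of the basic gadget -/
def bS (i : ℕ) : Matrix (Fin 16) (Fin 16) ℤ := bP ⟨2 ^ (i % 4), by
  have : i % 4 < 4 := Nat.mod_lt _ (by norm_num)
  calc 2 ^ (i % 4) ≤ 2 ^ 3 := Nat.pow_le_pow_right (by norm_num) (by omega)
    _ < 16 := by norm_num⟩

set_option maxRecDepth 100000 in
theorem q_SS : ∀ a b : Fin 4, a ≠ b → ∀ i j : Fin 16, ∑ k : Fin 16, (bS a i k * bS b k j +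
    bS b i k * bS a k j) = 0 := by
  decide +kernel

set_option maxRecDepth 100000 in
theorem q_S0 : ∀ (a : Fin 4) (i : Fin 16), bS a i i = 0 := by decide +kernel

/-- exactly one of the four numbers is `1` or `-1` and the others are `0` -/
def ok4 (f : Fin 4 → ℤ) : Bool :=
  decide (∃ a : Fin 4, (f a = 1 ∨ f a = -1) ∧ ∀ b : Fin 4, b ≠ a → f b = 0)

set_option maxRecDepth 100000 in
theorem q_Scov : ∀ i j : Fin 16, (i == j || ok4 fun a => bS a i j) = true := by decide +kernel

theorem bSplit : IsSplit bArms 4 bS where
  hD := fun i hi => by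
    have h := bP_isD ⟨2 ^ (i % 4), by
      have : i % 4 < 4 := Nat.mod_lt _ (by norm_num)
      calc 2 ^ (i % 4) ≤ 2 ^ 3 := Nat.pow_le_pow_right (by norm_num) (by omega)
        _ < 16 := by norm_num⟩
    have e : i % 4 = i := Nat.mod_eq_of_lt hi
    unfold bS
    convert h using 1
    simp only [e]
    push_cast
    rfl
  rel := fun i hi j hj hij => by
    have h := q_SS ⟨i, hi⟩ ⟨j, hj⟩ (fun h => hij (by simpa using h))
    exact rel_neg h
  D0 := fun i hi x => q_S0 ⟨i, hi⟩ x
  cov := fun x y hxy => by
    have h := q_Scov x y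
    simp only [Bool.or_eq_true, beq_iff_eq, ok4, decide_eq_true_eq] at h
    rcases h with h | ⟨a, ha, hb⟩
    · exact absurd h hxy
    · refine ⟨a.val, a.isLt, ha, fun j hj hne => ?_⟩
      exact hb ⟨j, hj⟩ (fun h => hne (by rw [← h]))

/-- gadgets with `2 ^ k` arms of order `2 ^ (5 * 2 ^ k - 1)`, split completely -/
theorem exists_split (k : ℕ) : ∃ (ι κ : Type) (_ : Fintype ι) (_ : DecidableEq ι) (_ : Fintype κ)
    (_ : DecidableEq κ) (c : ℤ) (G : Arms ι κ c) (D : ℕ → Matrix ι ι ℤ),
      Fintype.card ι = 2 ^ (5 * 2 ^ k - 1) ∧ Fintype.card κ = 2 ^ k ∧ IsSplit G (5 * 2 ^ k - 1) D := by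
  induction k with
  | zero =>
    exact ⟨Fin 16, Fin 1, inferInstance, inferInstance, inferInstance, inferInstance, 32, bArms, bS,
      by simp, by simp, by simpa using bSplit⟩
  | succ k ih =>
    obtain ⟨ι, κ, i1, i2, i3, i4, c, G, D, h1, h2, h3⟩ := ih
    have e : 2 * (5 * 2 ^ k - 1) + 1 = 5 * 2 ^ (k + 1) - 1 := by
      have : 1 ≤ 2 ^ k := Nat.one_le_two_pow
      rw [pow_succ]
      omega
    refine ⟨Fin 2 × (ι × ι), Fin 2 × κ, inferInstance, inferInstance, inferInstance,
      inferInstance, c * (Fintype.card ι : ℤ), Arms.step G G, stepD G G (5 * 2 ^ k - 1) D D, ?_, ?_, ?_⟩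
    · rw [Fintype.card_prod, Fintype.card_prod, Fintype.card_fin, h1, ← pow_add, ← pow_succ', ← e]
      congr 1
      omega
    · rw [Fintype.card_prod, Fintype.card_fin, h2, pow_succ']
    · rw [← e]
      exact h3.step h3 h1

section part

variable {G : Arms ι κ c} {L : ℕ} {D : ℕ → Matrix ι ι ℤ}

/-- a union of parts -/
def un (D : ℕ → Matrix ι ι ℤ) (s : Finset ℕ) : Matrix ι ι ℤ := ∑ i ∈ s, D i

theorem un_rel (h : IsSplit G L D) {s : Finset ℕ} (hs : ∀ i ∈ s, i < L) {j : ℕ} (hj : j < L)
    (hjs : j ∉ s) : Rel (-1) (D j) (un D s) := by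
  unfold un
  induction s using Finset.induction_on with
  | empty => rw [Finset.sum_empty]; exact rel_zero_right _ _
  | insert i s hi ih =>
    rw [Finset.sum_insert hi]
    refine Rel.add_right (h.rel j hj i (hs i (mem_insert_self _ _)) fun h' => hjs (by rw [h']; exact mem_insert_self _ _))
      (ih (fun i' hi' => hs i' (mem_insert_of_mem hi')) fun h' => hjs (mem_insert_of_mem h'))

theorem un_un (h : IsSplit G L D) {s t : Finset ℕ} (hs : ∀ i ∈ s, i < L) (ht : ∀ i ∈ t, i < L)
    (hst : Disjoint s t) : Rel (-1) (un D s) (un D t) := by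
  induction s using Finset.induction_on with
  | empty => unfold un; rw [Finset.sum_empty]; exact rel_zero_left _ _
  | insert i s hi ih =>
    have e : un D (insert i s) = D i + un D s := by unfold un; rw [Finset.sum_insert hi]
    rw [e]
    rw [Finset.disjoint_insert_left] at hst
    exact Rel.add_left (un_rel h ht (hs i (mem_insert_self _ _)) hst.1)
      (ih (fun i' hi' => hs i' (mem_insert_of_mem hi')) hst.2)

theorem un_isD (h : IsSplit G L D) {s : Finset ℕ} (hs : ∀ i ∈ s, i < L) :
    IsD G (un D s) (∑ i ∈ s, 2 ^ i) := by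
  induction s using Finset.induction_on with
  | empty =>
    unfold un
    rw [Finset.sum_empty, Finset.sum_empty]
    exact isD_zero G
  | insert i s hi ih =>
    have ih' := ih fun i' hi' => hs i' (mem_insert_of_mem hi')
    have hiL := hs i (mem_insert_self _ _)
    have hr := un_rel h (fun i' hi' => hs i' (mem_insert_of_mem hi')) hiL hi
    have e : un D (insert i s) = D i + un D s := by unfold un; rw [Finset.sum_insert hi]
    have hd := h.hD i hiL
    refine ⟨?_, ?_, fun a => ?_, ?_, ?_⟩
    · rw [e, transpose_add, hd.XT, ih'.XT, neg_add]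
    · rw [e, sq_add hr, hd.XX, ih'.XX, ← add_smul, Finset.sum_insert hi]
      congr 1
      ring
    · rw [e]; exact Rel.add_left (hd.XA a) (ih'.XA a)
    · rw [e]; exact Rel.add_left hd.XE ih'.XE
    · rw [e]; exact Rel.add_left hd.XY ih'.XY

theorem un_self (h : IsSplit G L D) {s : Finset ℕ} (hs : ∀ i ∈ s, i < L) (x : ι) : un D s x x = 0 := by
  unfold un
  rw [Matrix.sum_apply]
  exact Finset.sum_eq_zero fun i hi => h.D0 i (hs i hi) x

/-- distribution of the parts over the classes -/
theorem un_cov (h : IsSplit G L D) {T : Type} [DecidableEq T] (cls : ℕ → T) (x y : ι) (hxy : x ≠ y) :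
    ∃ t, Sg (un D ((range L).filter fun i => cls i = t) x y) ∧
      ∀ t', t' ≠ t → un D ((range L).filter fun i => cls i = t') x y = 0 := by
  obtain ⟨i, hi, hs, ho⟩ := h.cov x y hxy
  refine ⟨cls i, ?_, fun t' ht' => ?_⟩
  · unfold un
    rw [Matrix.sum_apply, Finset.sum_eq_single i]
    · exact hs
    · intro j hj hne
      exact ho j (mem_range.1 (mem_filter.1 hj).1) hne
    · intro hn
      exact absurd (show i ∈ (range L).filter (fun j => cls j = cls i) from
        mem_filter.2 ⟨mem_range.2 hi, rfl⟩) hn
  · unfold un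
    rw [Matrix.sum_apply]
    refine Finset.sum_eq_zero fun j hj => ?_
    rw [mem_filter, mem_range] at hj
    exact ho j hj.1 fun h' => ht' (by rw [← hj.2, h'])

end part

end Pool.Agent.H31.PH
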