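import Pool.Graph.R_pool_sql_team_seeded_63374d34.N328.PH.Par
import Pool.Agent.H31.PH.Split
import Pool.Agent.H31.PH.Eig

/-!
# Many classes of sequences, and systems of skew matrices with many classes
-/

set_option autoImplicit false
set_option linter.unusedSectionVars false
set_option linter.unusedSimpArgs false

namespace Pool.Agent.H31.PH

open Matrix Finset
open scoped Kronecker
open Pool.Agent.Y342.SK (Sg Sg.mul Sg.neg Rel sq_add)
open Pool.Agent.N328.PH (Arms IsD gS gS_eq gS_corr syl syl_row isK_syl Wm Qm WmT Wm_sq Wm_Wm one_Wm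
  circ_comm circ_commT)
open Pool.Agent.H108R3.Had (IsPU PU PUk)

/-- the step of a monotone function which contains a given number -/
theorem mono_cover (f : ℕ → ℕ) (hf : Monotone f) (h0 : f 0 = 0) (N s : ℕ) (hs : s < f N) :
    ∃ i < N, (f i ≤ s ∧ s < f (i + 1)) ∧ ∀ i', i' ≠ i → ¬(f i' ≤ s ∧ s < f (i' + 1)) := by
  classical
  have hex : ∃ i, s < f i := ⟨N, hs⟩
  obtain ⟨m, hm, hmin⟩ : ∃ m, s < f m ∧ ∀ m' < m, ¬ s < f m' :=
    ⟨Nat.find hex, Nat.find_spec hex, fun m' h => Nat.find_min hex h⟩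
  have hm0 : m ≠ 0 := by
    rintro rfl
    omega
  obtain ⟨i, rfl⟩ : ∃ i, m = i + 1 := ⟨m - 1, by omega⟩
  have hi : f i ≤ s := not_lt.1 (hmin i (by omega))
  refine ⟨i, ?_, ⟨hi, hm⟩, fun i' hne h => ?_⟩
  · by_contra hcon
    have := hf (not_lt.1 hcon)
    omega
  · rcases Nat.lt_or_gt_of_ne hne with h1 | h1
    · have := hf (show i' + 1 ≤ i by omega)
      omega
    · have := hf (show i + 1 ≤ i' by omega)
      omega

/-- the layout: intervals of prescribed total lengths in two copies of an interval -/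
theorem layout {T : Type} [Fintype T] (W : T → ℕ) (S : ℕ) (hW : ∑ t, W t = 2 * S) :
    ∃ o l : Fin 2 → T → ℕ, (∀ t, l 0 t + l 1 t = W t) ∧ (∀ u t, o u t + l u t ≤ S) ∧
      ∀ u s, s < S → ∃ t, (o u t ≤ s ∧ s < o u t + l u t) ∧
        ∀ t', t' ≠ t → ¬(o u t' ≤ s ∧ s < o u t' + l u t') := by
  classical
  obtain ⟨N, hN⟩ : ∃ N, N = Fintype.card T := ⟨_, rfl⟩
  let e : T ≃ Fin N := Fintype.equivFinOfCardEq hN.symm
  let W' : ℕ → ℕ := fun j => if h : j < N then W (e.symm ⟨j, h⟩) else 0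
  let cum : ℕ → ℕ := fun i => ∑ j ∈ range i, W' j
  have hcs : ∀ i, cum (i + 1) = cum i + W' i := fun i => Finset.sum_range_succ _ _
  have hmono : Monotone cum := monotone_nat_of_le_succ fun i => by rw [hcs]; omega
  have hWe : ∀ t, W' (e t).val = W t := by
    intro t
    simp only [W', (e t).isLt, dif_pos, Fin.eta, Equiv.symm_apply_apply]
  have hcN : cum N = 2 * S := by
    rw [← hW]
    change ∑ j ∈ range N, W' j = _
    rw [Finset.sum_range]
    rw [← Equiv.sum_comp e]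
    exact Finset.sum_congr rfl fun t _ => hWe t
  let f : Fin 2 → ℕ → ℕ := fun u i => if u = 0 then (cum i + 1) / 2 else cum i / 2
  have hf0 : ∀ u, f u 0 = 0 := by
    intro u
    have : cum 0 = 0 := Finset.sum_range_zero _
    simp only [f, this]
    split_ifs <;> rfl
  have hfN : ∀ u, f u N = S := by
    intro u
    simp only [f, hcN]
    split_ifs <;> omega
  have hfm : ∀ u, Monotone (f u) := by
    intro u a b hab
    have := hmono hab
    simp only [f]
    split_ifs <;> omega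
  refine ⟨fun u t => f u (e t).val, fun u t => f u ((e t).val + 1) - f u (e t).val, ?_, ?_, ?_⟩
  · intro t
    have h1 := hcs (e t).val
    rw [hWe] at h1
    simp only [f, if_true, Fin.isValue, one_ne_zero, if_false, h1]
    omega
  · intro u t
    have h1 := hfm u (show (e t).val ≤ (e t).val + 1 by omega)
    have h2 := hfm u (show (e t).val + 1 ≤ N from (e t).isLt)
    rw [hfN] at h2
    show f u (e t).val + (f u ((e t).val + 1) - f u (e t).val) ≤ S
    omega
  · intro u s hs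
    obtain ⟨i, hi, h1, h2⟩ := mono_cover (f u) (hfm u) (hf0 u) N s (by rw [hfN]; exact hs)
    refine ⟨e.symm ⟨i, hi⟩, ?_, fun t' ht' h => ?_⟩
    · have e1 : (e (e.symm ⟨i, hi⟩)).val = i := by rw [Equiv.apply_symm_apply]
      have := hfm u (show i ≤ i + 1 by omega)
      show f u (e (e.symm ⟨i, hi⟩)).val ≤ s ∧ s < f u (e (e.symm ⟨i, hi⟩)).val +
        (f u ((e (e.symm ⟨i, hi⟩)).val + 1) - f u (e (e.symm ⟨i, hi⟩)).val)
      rw [e1]
      omega
    · have hne : (e t').val ≠ i := by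
        intro h'
        apply ht'
        rw [Equiv.eq_symm_apply]
        exact Fin.ext h'
      apply h2 _ hne
      have := hfm u (show (e t').val ≤ (e t').val + 1 by omega)
      dsimp only at h
      omega

/-- families of functions for the arms, with classes -/
structure Fam (κ : Type) [Fintype κ] (T : Type) (S q : ℕ) [NeZero q] (F : T → κ → ZMod q → ℤ)
    (s : T → ℤ) (ρ : T → ℕ) : Prop where
  hq : q = 2 * S + 1
  auto : ∀ t, ∑ a, circulant (F t a) * (circulant (F t a))ᵀ = s t • (1 : Matrix (ZMod q) (ZMod q) ℤ)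
  cross : ∀ t t', ρ t ≠ ρ t' → ∑ a, circulant (F t a) * (circulant (F t' a))ᵀ =
    (0 : Matrix (ZMod q) (ZMod q) ℤ)
  zero : ∀ t a d, (d.val = 0 ∨ S < d.val) → F t a d = 0
  cover : ∀ a (d : ZMod q), 1 ≤ d.val → d.val ≤ S → ∃ t, Sg (F t a d) ∧ ∀ t', t' ≠ t → F t' a d = 0

section fam

variable {k j S q : ℕ} [NeZero q] {T : Type}

/-- the functions -/
def Ff (q : ℕ) (W : ℕ → ℕ → Fin (2 ^ k) → ℤ) (o l : Fin 2 → T → ℕ) (ρ : T → Fin (2 ^ j)) (t : T)
    (a : Fin 2 × Fin (2 ^ j) × Fin (2 ^ k)) (d : ZMod q) : ℤ :=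
  syl j (ρ t) a.2.1 * gS q (l a.1 t) (o a.1 t) (fun n => W (l a.1 t) n a.2.2) d

theorem fam_of (hq : q = 2 * S + 1) (W : ℕ → ℕ → Fin (2 ^ k) → ℤ)
    (hs : ∀ l ≤ S, ∀ n < l, ∀ a, Sg (W l n a))
    (hW : ∀ l ≤ S, ∀ d : ZMod q, ∑ j, ∑ n ∈ range l, ∑ m ∈ range l, (W l n j * W l m j) *
      (if (n : ZMod q) - m = d then 1 else 0) = if d = 0 then ((2 ^ k * l : ℕ) : ℤ) else 0)
    (o l : Fin 2 → T → ℕ) (hol : ∀ u t, o u t + l u t ≤ S) (ρ : T → Fin (2 ^ j))
    (hcov : ∀ u s, s < S → ∃ t, (o u t ≤ s ∧ s < o u t + l u t) ∧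
      ∀ t', t' ≠ t → ¬(o u t' ≤ s ∧ s < o u t' + l u t')) :
    Fam (Fin 2 × Fin (2 ^ j) × Fin (2 ^ k)) T S q (Ff q W o l ρ)
      (fun t => ((2 ^ j * 2 ^ k * (l 0 t + l 1 t) : ℕ) : ℤ)) (fun t => (ρ t).val) where
  hq := hq
  auto := fun t => by
    ext x y
    rw [Matrix.sum_apply]
    have h1 : ∀ a : Fin 2 × Fin (2 ^ j) × Fin (2 ^ k),
        (circulant (Ff q W o l ρ t a) * (circulant (Ff q W o l ρ t a))ᵀ) x y =
        ∑ n ∈ range (l a.1 t), ∑ m ∈ range (l a.1 t), (W (l a.1 t) n a.2.2 * W (l a.1 t) m a.2.2) *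
          (if (n : ZMod q) - m = x - y then 1 else 0) := by
      rintro ⟨u, b, a⟩
      rw [Matrix.mul_apply, ← gS_corr (o := o u t) (fun n => W (l u t) n a) x y]
      refine Finset.sum_congr rfl fun β _ => ?_
      simp only [circulant_apply, transpose_apply, Ff]
      rw [mul_mul_mul_comm, Sg.sq ((isK_syl j).sg _ _), one_mul]
    rw [Finset.sum_congr rfl fun a _ => h1 a, Fintype.sum_prod_type]
    have h2 : ∀ u : Fin 2, ∑ y' : Fin (2 ^ j) × Fin (2 ^ k), (∑ n ∈ range (l u t), ∑ m ∈ range (l u t),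
        (W (l u t) n y'.2 * W (l u t) m y'.2) * (if (n : ZMod q) - m = x - y then 1 else 0)) =
        2 ^ j * (if x - y = 0 then ((2 ^ k * l u t : ℕ) : ℤ) else 0) := by
      intro u
      rw [Fintype.sum_prod_type]
      simp only []
      rw [hW (l u t) (le_trans (Nat.le_add_left _ _) (hol u t)) (x - y), Finset.sum_const,
        Finset.card_univ, Fintype.card_fin, nsmul_eq_mul]
      push_cast
      rfl
    rw [Finset.sum_congr rfl fun u _ => h2 u, Fin.sum_univ_two, Matrix.smul_apply, Matrix.one_apply,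
      smul_eq_mul]
    by_cases hij : x = y
    · rw [if_pos hij, if_pos (sub_eq_zero.2 hij), if_pos (sub_eq_zero.2 hij)]
      push_cast
      ring
    · rw [if_neg hij, if_neg (fun h => hij (sub_eq_zero.1 h)), if_neg (fun h => hij (sub_eq_zero.1 h))]
      ring
  cross := fun t t' htt => by
    ext x y
    rw [Matrix.sum_apply, Matrix.zero_apply, Fintype.sum_prod_type]
    refine Finset.sum_eq_zero fun u _ => ?_
    rw [Fintype.sum_prod_type_right]
    refine Finset.sum_eq_zero fun a _ => ?_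
    have hne : ρ t ≠ ρ t' := fun h => htt (by rw [h])
    have h1 : ∀ b : Fin (2 ^ j), (circulant (Ff q W o l ρ t (u, b, a)) *
        (circulant (Ff q W o l ρ t' (u, b, a)))ᵀ) x y =
        (syl j (ρ t) b * syl j (ρ t') b) *
          ∑ β, gS q (l u t) (o u t) (fun n => W (l u t) n a) (x - β) *
            gS q (l u t') (o u t') (fun n => W (l u t') n a) (y - β) := by
      intro b
      rw [Matrix.mul_apply, Finset.mul_sum]
      refine Finset.sum_congr rfl fun β _ => ?_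
      simp only [circulant_apply, transpose_apply, Ff]
      ring
    rw [Finset.sum_congr rfl fun b _ => h1 b, ← Finset.sum_mul, syl_row, if_neg hne, zero_mul]
  zero := fun t a d hd => by
    unfold Ff
    rw [gS_eq hq (hol _ _), if_neg, mul_zero]
    have := hol a.1 t
    omega
  cover := fun a d h1 h2 => by
    obtain ⟨t, ht, ht'⟩ := hcov a.1 (d.val - 1) (by omega)
    refine ⟨t, ?_, fun t' h' => ?_⟩
    · unfold Ff
      rw [gS_eq hq (hol _ _), if_pos (by omega)]
      exact ((isK_syl j).sg _ _).mul (hs _ (le_trans (Nat.le_add_left _ _) (hol a.1 t)) _ (by omega) _)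
    · unfold Ff
      have := ht' t' h'
      rw [gS_eq hq (hol _ _), if_neg (by omega), mul_zero]

end fam

/-- transport along an equivalence of the arms -/
theorem Fam.congr {κ κ' T : Type} [Fintype κ] [Fintype κ'] (e : κ ≃ κ') {S q : ℕ} [NeZero q]
    {F : T → κ' → ZMod q → ℤ} {s : T → ℤ} {ρ : T → ℕ} (h : Fam κ' T S q F s ρ) :
    Fam κ T S q (fun t a => F t (e a)) s ρ where
  hq := h.hq
  auto := fun t => by
    rw [← h.auto t]
    exact Equiv.sum_comp e (fun a => circulant (F t a) * (circulant (F t a))ᵀ)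
  cross := fun t t' htt => by
    rw [← h.cross t t' htt]
    exact Equiv.sum_comp e (fun a => circulant (F t a) * (circulant (F t' a))ᵀ)
  zero := fun t a d hd => h.zero t (e a) d hd
  cover := fun a d h1 h2 => h.cover (e a) d h1 h2

/-- families from para-unitary matrices of all lengths up to `S` -/
theorem exists_fam {κ T : Type} [Fintype κ] [Fintype T] {k j S q : ℕ} [NeZero q] (hq : q = 2 * S + 1)
    (hκ : Fintype.card κ = 2 * (2 ^ j * 2 ^ k)) (hPU : ∀ l ≤ S, PUk k l) (W : T → ℕ)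
    (hW : ∑ t, W t = 2 * S) (ρ : T → Fin (2 ^ j)) :
    ∃ F : T → κ → ZMod q → ℤ, Fam κ T S q F (fun t => ((2 ^ j * 2 ^ k * W t : ℕ) : ℤ))
      (fun t => (ρ t).val) := by
  have hex : ∀ l : ℕ, ∃ W : ℕ → Fin (2 ^ k) → ℤ, l ≤ S → (∀ n < l, ∀ a, Sg (W n a)) ∧
      ∀ d : ZMod q, ∑ j, ∑ n ∈ range l, ∑ m ∈ range l, (W n j * W m j) *
      (if (n : ZMod q) - m = d then 1 else 0) = if d = 0 then ((2 ^ k * l : ℕ) : ℤ) else 0 := by
    intro l
    by_cases hl : l ≤ S
    · obtain ⟨W, hW⟩ := hPU l hl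
      refine ⟨fun n a => W n ⟨0, by positivity⟩ a, fun _ => ⟨fun n hn a => hW.sign n hn _ _, fun d => ?_⟩⟩
      have := Pool.Agent.Y342.SK.entry (q := q) hW ⟨0, by positivity⟩ d
      rw [Fintype.card_fin] at this
      exact this
    · exact ⟨fun _ _ => 0, fun h => absurd h hl⟩
  choose Wq hWq using hex
  obtain ⟨o, l, h1, h2, h3⟩ := layout W S hW
  have hfam := fam_of (k := k) (j := j) hq Wq (fun l hl => (hWq l hl).1) (fun l hl => (hWq l hl).2)
    o l h2 ρ h3
  have hcard : Fintype.card κ = Fintype.card (Fin 2 × Fin (2 ^ j) × Fin (2 ^ k)) := by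
    rw [hκ, Fintype.card_prod, Fintype.card_prod, Fintype.card_fin, Fintype.card_fin, Fintype.card_fin]
  refine ⟨fun t a => Ff q Wq o l ρ t (Fintype.equivOfCardEq hcard a), ?_⟩
  have h := hfam.congr (Fintype.equivOfCardEq hcard)
  simp only [h1] at h
  exact h

/-- systems of skew matrices -/
structure Sys (X T : Type) [Fintype X] [DecidableEq X] (ρ : T → ℕ) (w : T → ℤ)
    (A : T → Matrix X X ℤ) : Prop where
  AT : ∀ t, (A t)ᵀ = -A t
  AA : ∀ t, A t * A t = (-(w t)) • (1 : Matrix X X ℤ)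
  cross : ∀ t t', ρ t ≠ ρ t' → A t * A t' + A t' * A t = 0
  A0 : ∀ t x, A t x x = 0
  cov : ∀ x y, x ≠ y → ∃ t, Sg (A t x y) ∧ ∀ t', t' ≠ t → A t' x y = 0

section sys

variable {ι κ T : Type} [Fintype ι] [DecidableEq ι] [Fintype κ] [DecidableEq κ] {c : ℤ}
  {G : Arms ι κ c} {S q : ℕ} [NeZero q] {F : T → κ → ZMod q → ℤ} {s : T → ℤ} {ρ : T → ℕ}
  {X0 : T → Matrix ι ι ℤ} {w0 : T → ℤ}

/-- the parts at shift zero -/
structure IsX (G : Arms ι κ c) (X0 : T → Matrix ι ι ℤ) (w0 : T → ℤ) : Prop where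
  hX : ∀ t, IsD G (X0 t) (w0 t)
  rel : ∀ t t', t ≠ t' → Rel (-1) (X0 t) (X0 t')
  X00 : ∀ t x, X0 t x x = 0
  cov : ∀ x y, x ≠ y → ∃ t, Sg (X0 t x y) ∧ ∀ t', t' ≠ t → X0 t' x y = 0

/-- the skew matrices -/
def Mx (G : Arms ι κ c) (X0 : T → Matrix ι ι ℤ) (F : T → κ → ZMod q → ℤ)
    (t : T) : Matrix (ι × ZMod q) (ι × ZMod q) ℤ :=
  X0 t ⊗ₖ (1 : Matrix (ZMod q) (ZMod q) ℤ) + Wm G fun a => circulant (F t a)

theorem MxT (h : IsX G X0 w0) (t : T) : (Mx G X0 F t)ᵀ = -Mx G X0 F t := by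
  unfold Mx
  rw [transpose_add, WmT, ← kroneckerMap_transpose, transpose_one, (h.hX t).XT]
  ext i j
  simp only [Matrix.add_apply, Matrix.neg_apply, kroneckerMap_apply]
  ring

theorem Mxsq (h : IsX G X0 w0) (hF : Fam κ T S q F s ρ) (t : T) :
    Mx G X0 F t * Mx G X0 F t = (-(w0 t + c * s t)) • (1 : Matrix (ι × ZMod q) _ ℤ) := by
  have h1 := one_Wm G (fun a => circulant (F t a)) (h.hX t).XA (h.hX t).XT
  have h2 := Wm_sq G (fun a => circulant (F t a)) (fun a b => circ_comm _ _)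
    (fun a b => circ_commT _ _) (hF.auto t)
  have h3 : (X0 t ⊗ₖ (1 : Matrix (ZMod q) (ZMod q) ℤ)) * (X0 t ⊗ₖ 1) =
      (-(w0 t)) • (1 : Matrix (ι × ZMod q) _ ℤ) := by
    rw [← mul_kronecker_mul, (h.hX t).XX, one_mul, smul_kronecker, one_kronecker_one]
  unfold Mx
  rw [add_mul, mul_add, mul_add, h2, h3]
  have e : ∀ a b c d : Matrix (ι × ZMod q) (ι × ZMod q) ℤ, a + b + (c + d) = (b + c) + (a + d) := by
    intro a b c d; abel
  rw [e, h1, zero_add, ← add_smul]
  congr 1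
  ring

theorem MxMx (h : IsX G X0 w0) (hF : Fam κ T S q F s ρ) (t t' : T) (htt : ρ t ≠ ρ t') :
    Mx G X0 F t * Mx G X0 F t' + Mx G X0 F t' * Mx G X0 F t = 0 := by
  have h1 := one_Wm G (fun a => circulant (F t' a)) (h.hX t).XA (h.hX t).XT
  have h1' := one_Wm G (fun a => circulant (F t a)) (h.hX t').XA (h.hX t').XT
  have h2 := Wm_Wm G (fun a => circulant (F t a)) (fun a => circulant (F t' a))
    (fun _ _ => circ_comm _ _) (fun _ _ => circ_commT _ _) (fun _ _ => circ_commT _ _) (s := 0)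
    (by rw [hF.cross t t' htt, zero_smul])
  have h3 : (X0 t ⊗ₖ (1 : Matrix (ZMod q) (ZMod q) ℤ)) * (X0 t' ⊗ₖ 1) +
      (X0 t' ⊗ₖ (1 : Matrix (ZMod q) (ZMod q) ℤ)) * (X0 t ⊗ₖ 1) = 0 := by
    rw [← mul_kronecker_mul, ← mul_kronecker_mul, ← add_kronecker]
    have e : X0 t * X0 t' + X0 t' * X0 t = 0 := by
      have := h.rel t t' (fun h' => htt (by rw [h']))
      unfold Pool.Agent.Y342.SK.Rel at this
      rw [this, neg_one_smul, neg_add_cancel]
    rw [e, zero_kronecker]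
  rw [mul_zero, mul_zero, neg_zero, zero_smul] at h2
  unfold Mx
  rw [add_mul, mul_add, mul_add, add_mul, mul_add, mul_add]
  have e : ∀ a b c d a' b' c' d' : Matrix (ι × ZMod q) (ι × ZMod q) ℤ,
      a + b + (c + d) + (a' + b' + (c' + d')) = (a + a') + (b + c') + (b' + c) + (d + d') := by
    intro a b c d a' b' c' d'; abel
  rw [e, h3, h1, h1', h2]
  simp

theorem Mx_apply (t : T) (x y : ι) (i j : ZMod q) : Mx G X0 F t (x, i) (y, j) =
    (if i = j then X0 t x y else 0) + ((∑ a, G.A a x y * F t a (i - j)) -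
      ∑ a, G.A a y x * F t a (j - i)) := by
  simp only [Mx, Wm, Qm, Matrix.add_apply, Matrix.sub_apply, transpose_apply, Matrix.sum_apply,
    kroneckerMap_apply, Matrix.one_apply, mul_ite, mul_one, mul_zero]
  rfl

theorem Mx_self (h : IsX G X0 w0) (hF : Fam κ T S q F s ρ) (t : T) (x : ι × ZMod q) :
    Mx G X0 F t x x = 0 := by
  obtain ⟨x, i⟩ := x
  rw [Mx_apply, if_pos rfl, sub_self]
  have h0 : ∀ a, F t a 0 = 0 := fun a => hF.zero t a 0 (Or.inl ZMod.val_zero)
  simp only [h0, mul_zero, Finset.sum_const_zero, sub_zero, add_zero]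
  exact h.X00 t x

theorem Mx_cover (h : IsX G X0 w0) (hF : Fam κ T S q F s ρ) (x y : ι × ZMod q) (hne : x ≠ y) :
    ∃ t, Sg (Mx G X0 F t x y) ∧ ∀ t', t' ≠ t → Mx G X0 F t' x y = 0 := by
  obtain ⟨x, i⟩ := x
  obtain ⟨y, j⟩ := y
  simp only [Mx_apply]
  have h0 : ∀ t a, F t a 0 = 0 := fun t a => hF.zero t a 0 (Or.inl ZMod.val_zero)
  have hq := hF.hq
  by_cases hij : i = j
  · subst hij
    have hxy : x ≠ y := fun h' => hne (by rw [h'])
    simp only [if_true, sub_self, h0, mul_zero, Finset.sum_const_zero, sub_zero, add_zero]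
    exact h.cov x y hxy
  · simp only [if_neg hij, zero_add]
    have hd : (i - j).val ≠ 0 := by
      rw [Ne, ZMod.val_eq_zero, sub_eq_zero]
      exact hij
    have hlt := ZMod.val_lt (i - j)
    have hneg : (j - i).val = q - (i - j).val := by
      have : j - i = -(i - j) := by ring
      rw [this, ZMod.neg_val, if_neg (sub_ne_zero.2 hij)]
    by_cases hle : (i - j).val ≤ S
    · have h1 : ∀ t a, F t a (j - i) = 0 := fun t a => hF.zero t a _ (Or.inr (by omega))
      simp only [h1, mul_zero, Finset.sum_const_zero, sub_zero]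
      obtain ⟨a, ha, hb⟩ := G.sup x y
      have h2 : ∀ t, ∑ b, G.A b x y * F t b (i - j) = G.A a x y * F t a (i - j) := by
        intro t
        rw [Finset.sum_eq_single a]
        · intro b _ hba
          rw [hb b hba, zero_mul]
        · intro h; exact absurd (mem_univ _) h
      simp only [h2]
      obtain ⟨t, ht, ht'⟩ := hF.cover a (i - j) (by omega) hle
      exact ⟨t, ha.mul ht, fun t' h' => by rw [ht' t' h', mul_zero]⟩
    · have h1 : ∀ t a, F t a (i - j) = 0 := fun t a => hF.zero t a _ (Or.inr (by omega))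
      simp only [h1, mul_zero, Finset.sum_const_zero, zero_sub]
      obtain ⟨a, ha, hb⟩ := G.sup y x
      have h2 : ∀ t, ∑ b, G.A b y x * F t b (j - i) = G.A a y x * F t a (j - i) := by
        intro t
        rw [Finset.sum_eq_single a]
        · intro b _ hba
          rw [hb b hba, zero_mul]
        · intro h; exact absurd (mem_univ _) h
      simp only [h2]
      obtain ⟨t, ht, ht'⟩ := hF.cover a (j - i) (by omega) (by omega)
      exact ⟨t, (ha.mul ht).neg, fun t' h' => by rw [ht' t' h', mul_zero, neg_zero]⟩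

/-- the system -/
theorem toSys (h : IsX G X0 w0) (hF : Fam κ T S q F s ρ) :
    Sys (ι × ZMod q) T ρ (fun t => w0 t + c * s t) (Mx G X0 F) where
  AT := MxT h
  AA := Mxsq h hF
  cross := MxMx h hF
  A0 := Mx_self h hF
  cov := Mx_cover h hF

end sys

/-- existence of systems with prescribed weights -/
theorem exists_sys {T : Type} [Fintype T] [DecidableEq T] {k j S K' J : ℕ} (hK' : K' = 1 + j + k)
    (hJ : J = 2 ^ (5 * 2 ^ K' - 1)) (hPU : ∀ l ≤ S, PUk k l) (W : T → ℕ) (hW : ∑ t, W t = 2 * S)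
    (ρ : T → Fin (2 ^ j)) (cls : ℕ → T) :
    ∃ (X : Type) (_ : Fintype X) (_ : DecidableEq X) (A : T → Matrix X X ℤ),
      Fintype.card X = J * (2 * S + 1) ∧
      Sys X T (fun t => (ρ t).val) (fun t => ((∑ i ∈ (range (5 * 2 ^ K' - 1)).filter
        (fun i => cls i = t), 2 ^ i + J * W t : ℕ) : ℤ)) A := by
  obtain ⟨ι, κ, i1, i2, i3, i4, c, G, D, h1, h2, h3⟩ := exists_split K'
  obtain ⟨q, hq⟩ : ∃ q, q = 2 * S + 1 := ⟨_, rfl⟩
  have : NeZero q := ⟨by omega⟩
  have hκ : Fintype.card κ = 2 * (2 ^ j * 2 ^ k) := by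
    rw [h2, hK', pow_add, pow_add]; ring
  obtain ⟨F, hF⟩ := exists_fam (κ := κ) hq hκ hPU W hW ρ
  have hX : IsX G (fun t => un D ((range (5 * 2 ^ K' - 1)).filter fun i => cls i = t))
      (fun t => ((∑ i ∈ (range (5 * 2 ^ K' - 1)).filter (fun i => cls i = t), 2 ^ i : ℕ) : ℤ)) := by
    refine ⟨fun t => ?_, fun t t' htt => ?_, fun t x => ?_, fun x y hxy => ?_⟩
    · have := un_isD h3 (s := (range (5 * 2 ^ K' - 1)).filter fun i => cls i = t)
        fun i hi => mem_range.1 (mem_filter.1 hi).1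
      push_cast
      exact this
    · refine un_un h3 (fun i hi => mem_range.1 (mem_filter.1 hi).1)
        (fun i hi => mem_range.1 (mem_filter.1 hi).1) ?_
      rw [Finset.disjoint_left]
      intro i hi hi'
      rw [mem_filter] at hi hi'
      exact htt (hi.2.symm.trans hi'.2)
    · exact un_self h3 (fun i hi => mem_range.1 (mem_filter.1 hi).1) x
    · exact un_cov h3 cls x y hxy
  refine ⟨ι × ZMod q, inferInstance, inferInstance,
    Mx G (fun t => un D ((range (5 * 2 ^ K' - 1)).filter fun i => cls i = t)) F, ?_, ?_⟩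
  · rw [Fintype.card_prod, ZMod.card, h1, hJ, hq]
  · have h := toSys hX hF
    have e : ∀ t, ((∑ i ∈ (range (5 * 2 ^ K' - 1)).filter (fun i => cls i = t), 2 ^ i : ℕ) : ℤ) +
        c * ((2 ^ j * 2 ^ k * W t : ℕ) : ℤ) = ((∑ i ∈ (range (5 * 2 ^ K' - 1)).filter
        (fun i => cls i = t), 2 ^ i + J * W t : ℕ) : ℤ) := by
      intro t
      have hc := G.hc
      rw [h1, hκ, ← hJ] at hc
      push_cast at hc ⊢
      have hc2 : c * (2 ^ j * 2 ^ k) = (J : ℤ) := by linarith
      rw [add_right_inj, ← hc2]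
      ring
    simp only [e] at h
    exact h

end Pool.Agent.H31.PH
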