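import Mathlib

/-!
# The system of congruences
-/

set_option autoImplicit false

namespace Pool.Agent.H31.PH

open Finset

theorem digits_sum (q Y k : ℕ) : ∑ j ∈ range k, q ^ j * (Y / q ^ j % q) = Y % q ^ k := by
  induction k with
  | zero => simp [Nat.mod_one]
  | succ k ih => rw [Finset.sum_range_succ, ih, Nat.mod_pow_succ]

/-- the forced part -/
def rowf (q : ℕ) (c : ℕ → ℕ) (j : ℕ) : ℕ := (q - c j % q) % q

theorem rowf_lt {q : ℕ} (hq : 1 ≤ q) (c : ℕ → ℕ) (j : ℕ) : rowf q c j < q := Nat.mod_lt _ hq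

theorem rowf_dvd {q : ℕ} (hq : 1 ≤ q) (c : ℕ → ℕ) (j : ℕ) : q ∣ c j + rowf q c j := by
  unfold rowf
  rw [Nat.dvd_iff_mod_eq_zero, Nat.add_mod, Nat.mod_mod, ← Nat.add_mod]
  have h1 : c j % q < q := Nat.mod_lt _ hq
  have h2 := Nat.div_add_mod (c j) q
  have h3 : c j + (q - c j % q) = q * (c j / q + 1) := by
    rw [mul_add, mul_one]; omega
  rw [h3]
  exact Nat.mul_mod_right _ _

/-- the sum of the forced parts -/
def rowX (q i H : ℕ) (c : ℕ → ℕ) : ℕ := H + ∑ j ∈ range i, q ^ (j + 1) * rowf q c (j + 1)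

/-- the free part -/
def rowY (q i m H : ℕ) (c : ℕ → ℕ) : ℕ := (m + (q ^ (i + 1) - 1) * rowX q i H c) % q ^ (i + 1)

/-- the entries of the row -/
def rowd (q i m H : ℕ) (c : ℕ → ℕ) (j : ℕ) : ℕ :=
  if i < j then 0 else (if j = 0 then H + rowY q i m H c % q else rowf q c j) +
    q * (rowY q i m H c / q ^ (j + 1) % q)

theorem rowd_zero {q i m H : ℕ} {c : ℕ → ℕ} {j : ℕ} (h : i < j) : rowd q i m H c j = 0 := by
  unfold rowd; rw [if_pos h]

theorem rowd_dvd {q i m H : ℕ} (hq : 1 ≤ q) (c : ℕ → ℕ) {j : ℕ} (h1 : 1 ≤ j) (h2 : j ≤ i) :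
    q ∣ c j + rowd q i m H c j := by
  unfold rowd
  rw [if_neg (by omega), if_neg (by omega), ← add_assoc]
  exact (rowf_dvd hq c j).add (dvd_mul_right _ _)

theorem rowd_le {q i m H : ℕ} (hq : 1 ≤ q) (c : ℕ → ℕ) {j : ℕ} (h1 : 1 ≤ j) :
    rowd q i m H c j ≤ q ^ 2 := by
  unfold rowd
  by_cases h : i < j
  · rw [if_pos h]; exact Nat.zero_le _
  · rw [if_neg h, if_neg (by omega)]
    have h2 := rowf_lt hq c j
    have h3 : rowY q i m H c / q ^ (j + 1) % q < q := Nat.mod_lt _ hq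
    nlinarith

theorem rowd_0 {q i m H : ℕ} (hq : 1 ≤ q) (c : ℕ → ℕ) :
    H ≤ rowd q i m H c 0 ∧ rowd q i m H c 0 ≤ H + q ^ 2 := by
  unfold rowd
  rw [if_neg (by omega), if_pos rfl]
  have h2 : rowY q i m H c % q < q := Nat.mod_lt _ hq
  have h3 : rowY q i m H c / q ^ (0 + 1) % q < q := Nat.mod_lt _ hq
  constructor
  · omega
  · nlinarith

theorem rowd_sum {q i m H : ℕ} (hq : 1 ≤ q) (c : ℕ → ℕ) :
    ∑ j ∈ range (i + 1), q ^ j * rowd q i m H c j ≡ m [MOD q ^ (i + 1)] := by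
  have hqi : 1 ≤ q ^ (i + 1) := Nat.one_le_pow _ _ hq
  have hY : rowY q i m H c < q ^ (i + 1) := Nat.mod_lt _ hqi
  have h1 : ∑ j ∈ range (i + 1), q ^ j * rowd q i m H c j = rowX q i H c + rowY q i m H c := by
    have e1 : ∀ j ∈ range (i + 1), q ^ j * rowd q i m H c j =
        q ^ j * (if j = 0 then H + rowY q i m H c % q else rowf q c j) +
          q ^ (j + 1) * (rowY q i m H c / q ^ (j + 1) % q) := by
      intro j hj
      rw [mem_range] at hj
      unfold rowd
      rw [if_neg (by omega), pow_succ]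
      ring
    rw [Finset.sum_congr rfl e1, Finset.sum_add_distrib]
    have e2 := digits_sum q (rowY q i m H c) (i + 2)
    rw [Finset.sum_range_succ', pow_zero, one_mul, Nat.div_one,
      Nat.mod_eq_of_lt (a := rowY q i m H c) (b := q ^ (i + 2))
      (lt_of_lt_of_le hY (Nat.pow_le_pow_right hq (by omega)))] at e2
    rw [Finset.sum_range_succ' (fun j => q ^ j * (if j = 0 then H + rowY q i m H c % q
      else rowf q c j)), pow_zero, one_mul, if_pos rfl]
    have e3 : ∀ j ∈ range i, q ^ (j + 1) * (if j + 1 = 0 then H + rowY q i m H c % q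
        else rowf q c (j + 1)) = q ^ (j + 1) * rowf q c (j + 1) := by
      intro j _
      rw [if_neg (by omega)]
    rw [Finset.sum_congr rfl e3]
    unfold rowX
    omega
  rw [h1]
  have h2 : rowX q i H c + rowY q i m H c ≡ rowX q i H c +
      (m + (q ^ (i + 1) - 1) * rowX q i H c) [MOD q ^ (i + 1)] := by
    unfold rowY
    exact Nat.ModEq.add_left _ (Nat.mod_modEq _ _)
  refine h2.trans ?_
  have h3 : rowX q i H c + (m + (q ^ (i + 1) - 1) * rowX q i H c) = m + q ^ (i + 1) * rowX q i H c := by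
    obtain ⟨k, hk⟩ : ∃ k, q ^ (i + 1) = k + 1 := ⟨q ^ (i + 1) - 1, by omega⟩
    rw [hk, Nat.add_sub_cancel]
    ring
  rw [h3]
  unfold Nat.ModEq
  rw [Nat.add_mul_mod_self_left]

/-- the carries -/
def st (q L m H : ℕ) : ℕ → ℕ → ℕ
  | 0 => fun _ => 0
  | p + 1 => fun j => (st q L m H p j + rowd q (L - p) (if p = 0 then m else 0) H (st q L m H p) j) / q

/-- the solution -/
def sD (q L m H : ℕ) (j i : ℕ) : ℕ :=
  rowd q i (if L - i = 0 then m else 0) H (st q L m H (L - i)) j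

theorem st_succ {q L m H p j : ℕ} (hq : 1 ≤ q) (h1 : 1 ≤ j) (h2 : p + j ≤ L) :
    q * st q L m H (p + 1) j = st q L m H p j + sD q L m H j (L - p) := by
  have e : L - (L - p) = p := by omega
  have h3 : q ∣ st q L m H p j + sD q L m H j (L - p) := by
    unfold sD
    rw [e]
    exact rowd_dvd hq _ h1 (by omega)
  have h4 : st q L m H (p + 1) j = (st q L m H p j + sD q L m H j (L - p)) / q := by
    unfold sD
    rw [e]
    rfl
  rw [h4]
  exact Nat.mul_div_cancel' h3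

theorem sD_col {q L m H j : ℕ} (hq : 1 ≤ q) (h1 : 1 ≤ j) (p : ℕ) (hp : p + j ≤ L + 1) :
    ∑ p' ∈ range p, q ^ p' * sD q L m H j (L - p') = q ^ p * st q L m H p j := by
  induction p with
  | zero => simp [st]
  | succ p ih =>
    rw [Finset.sum_range_succ, ih (by omega), pow_succ, mul_assoc, st_succ hq h1 (by omega)]
    ring

/-- the system of congruences has small solutions -/
theorem solve {q : ℕ} (hq : 1 ≤ q) (L m H : ℕ) : ∃ (D : ℕ → ℕ → ℕ) (z c : ℕ → ℕ),
    (∀ j i, i < j → D j i = 0) ∧ (∀ i ≤ L, H ≤ D 0 i ∧ D 0 i ≤ H + q ^ 2) ∧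
    (∀ j i, 1 ≤ j → D j i ≤ q ^ 2) ∧
    (∀ i < L, ∑ j ∈ range (i + 1), q ^ j * D j i = q ^ (i + 1) * z i) ∧
    (∑ j ∈ range (L + 1), q ^ j * D j L ≡ m [MOD q ^ (L + 1)]) ∧
    ∀ j, 1 ≤ j → j ≤ L → ∑ i ∈ range (L + 1), q ^ (L - i) * D j i = q ^ (L + 1 - j) * c j := by
  have hz : ∀ i, ∃ z : ℕ, i < L → ∑ j ∈ range (i + 1), q ^ j * sD q L m H j i = q ^ (i + 1) * z := by
    intro i
    by_cases hi : i < L
    · have h := rowd_sum (q := q) (i := i) (m := 0) (H := H) hq (st q L m H (L - i))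
      have h2 := (Nat.modEq_zero_iff_dvd).1 h
      obtain ⟨z, hz⟩ := h2
      refine ⟨z, fun _ => ?_⟩
      rw [← hz]
      refine Finset.sum_congr rfl fun j _ => ?_
      unfold sD
      rw [if_neg (by omega)]
    · exact ⟨0, fun h => absurd h hi⟩
  choose z hz using hz
  refine ⟨sD q L m H, z, fun j => st q L m H (L + 1 - j) j, fun j i h => rowd_zero h,
    fun i _ => rowd_0 hq _, fun j i h => rowd_le hq _ h, hz, ?_, fun j h1 h2 => ?_⟩
  · have h := rowd_sum (q := q) (i := L) (m := m) (H := H) hq (st q L m H (L - L))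
    unfold sD
    simp only [Nat.sub_self, if_true] at h ⊢
    exact h
  · rw [← Finset.sum_range_reflect]
    have e1 : ∀ p ∈ range (L + 1), q ^ (L - (L + 1 - 1 - p)) * sD q L m H j (L + 1 - 1 - p) =
        q ^ p * sD q L m H j (L - p) := by
      intro p hp
      rw [mem_range] at hp
      have e2 : L + 1 - 1 - p = L - p := by omega
      have e3 : L - (L - p) = p := by omega
      rw [e2, e3]
    rw [Finset.sum_congr rfl e1, ← sD_col hq h1 (L + 1 - j) (by omega)]
    symm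
    refine Finset.sum_subset (fun p hp => ?_) fun p hp hn => ?_
    · rw [mem_range] at hp ⊢; omega
    · rw [mem_range] at hp hn
      have : sD q L m H j (L - p) = 0 := rowd_zero (by omega)
      rw [this, mul_zero]

end Pool.Agent.H31.PH
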