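import Pool.Graph.R_pool_sql_team_seeded_63374d34.N328.PH.Par2
import Pool.Agent.H31.PH.Solve

/-!
# Orders of Hadamard matrices in short intervals, and bits
-/

set_option autoImplicit false

namespace Pool.Agent.H31.PH

open Matrix Finset
open Pool.Agent.N328.PH (HasPH)
open Pool.Agent.H108R3.Had (PUk HasHad)

/-- doubling -/
theorem had_double {m : ℕ} (h : HasHad m) : HasHad (2 * m) := by
  obtain ⟨H, hs, hH⟩ := h
  let e : Fin (2 * m) ≃ Fin m ⊕ Fin m := (finCongr (two_mul m)).trans finSumFinEquiv.symm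
  refine ⟨(Matrix.fromBlocks H H H (-H)).submatrix e e, fun i j => ?_, ?_⟩
  · rw [Matrix.submatrix_apply]
    rcases e i with i | i <;> rcases e j with j | j
    · exact hs _ _
    · exact hs _ _
    · exact hs _ _
    · rw [Matrix.fromBlocks_apply₂₂, Matrix.neg_apply]
      rcases hs i j with h | h <;> rw [h]
      · right; rfl
      · left; norm_num
  · rw [Matrix.transpose_submatrix, Matrix.submatrix_mul_equiv, Matrix.fromBlocks_transpose,
      Matrix.fromBlocks_multiply]
    simp only [Matrix.transpose_neg, Matrix.mul_neg, Matrix.neg_mul, neg_neg, hH, add_neg_cancel]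
    ext i j
    rw [Matrix.submatrix_apply, Matrix.smul_apply, smul_eq_mul, Matrix.one_apply]
    rcases hi : e i with i' | i' <;> rcases hj : e j with j' | j'
    · rw [Matrix.fromBlocks_apply₁₁, Matrix.add_apply, Matrix.smul_apply, Matrix.one_apply]
      have : i = j ↔ i' = j' := by
        rw [← e.injective.eq_iff, hi, hj, Sum.inl.injEq]
      by_cases h : i' = j'
      · rw [if_pos h, if_pos (this.2 h), smul_eq_mul]; push_cast; ring
      · rw [if_neg h, if_neg (fun h' => h (this.1 h')), smul_zero]; ring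
    · rw [Matrix.fromBlocks_apply₁₂, Matrix.zero_apply, if_neg, mul_zero]
      intro h
      rw [h, hj] at hi
      exact absurd hi (by simp)
    · rw [Matrix.fromBlocks_apply₂₁, Matrix.zero_apply, if_neg, mul_zero]
      intro h
      rw [h, hj] at hi
      exact absurd hi (by simp)
    · rw [Matrix.fromBlocks_apply₂₂, Matrix.add_apply, Matrix.smul_apply, Matrix.one_apply]
      have : i = j ↔ i' = j' := by
        rw [← e.injective.eq_iff, hi, hj, Sum.inr.injEq]
      by_cases h : i' = j'
      · rw [if_pos h, if_pos (this.2 h), smul_eq_mul]; push_cast; ring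
      · rw [if_neg h, if_neg (fun h' => h (this.1 h')), smul_zero]; ring

theorem had_pow {m : ℕ} (h : HasHad m) (i : ℕ) : HasHad (2 ^ i * m) := by
  induction i with
  | zero => simpa using h
  | succ i ih =>
    have := had_double ih
    rwa [← mul_assoc, ← pow_succ'] at this

theorem had_ph {x m : ℕ} (h : HasHad m) (hx : x ≤ m) : HasPH x m :=
  Pool.Agent.N328.PH.HasPH.mono (show HasPH m m from h) hx

/-- squares in short intervals -/
theorem exists_v {c T A G : ℕ} (hc : 1 ≤ c) (hT : 2 ≤ T) (h1 : 16 * c * T ^ 2 * A ≤ G ^ 2)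
    (h2 : 2 * c * T ^ 2 ≤ G) : ∃ v : ℕ, T ∣ v + 1 ∧ A ≤ c * v ^ 2 ∧ c * v ^ 2 ≤ A + G := by
  classical
  have hex : ∃ y, A ≤ c * (T * (y + 1) - 1) ^ 2 := by
    refine ⟨A, ?_⟩
    have e1 : A ≤ T * (A + 1) - 1 := by
      have : 2 * (A + 1) ≤ T * (A + 1) := Nat.mul_le_mul_right _ hT
      omega
    calc A ≤ T * (A + 1) - 1 := e1
      _ ≤ (T * (A + 1) - 1) ^ 2 := Nat.le_self_pow (by norm_num) _
      _ ≤ c * (T * (A + 1) - 1) ^ 2 := Nat.le_mul_of_pos_left _ hc
  obtain ⟨y, hy, hmin⟩ : ∃ y, A ≤ c * (T * (y + 1) - 1) ^ 2 ∧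
      ∀ y' < y, ¬ A ≤ c * (T * (y' + 1) - 1) ^ 2 :=
    ⟨Nat.find hex, Nat.find_spec hex, fun y' h => Nat.find_min hex h⟩
  have hT1 : 1 ≤ T * (y + 1) := Nat.mul_pos (by omega) (by omega)
  refine ⟨T * (y + 1) - 1, ?_, hy, ?_⟩
  · rw [Nat.sub_add_cancel hT1]
    exact dvd_mul_right _ _
  · rcases Nat.eq_zero_or_pos y with h0 | h0
    · subst h0
      rw [zero_add, mul_one]
      have e1 : (T - 1) ^ 2 ≤ T ^ 2 := Nat.pow_le_pow_left (by omega) 2
      have e2 : c * (T - 1) ^ 2 ≤ c * T ^ 2 := Nat.mul_le_mul_left _ e1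
      have e3 : 2 * c * T ^ 2 = 2 * (c * T ^ 2) := by ring
      omega
    · obtain ⟨y', rfl⟩ : ∃ y', y = y' + 1 := ⟨y - 1, by omega⟩
      have h3 := hmin y' (by omega)
      obtain ⟨x, hx⟩ : ∃ x, x = T * (y' + 1) - 1 := ⟨_, rfl⟩
      have hT2 : 1 ≤ T * (y' + 1) := Nat.mul_pos (by omega) (by omega)
      have hx2 : T * (y' + 1 + 1) - 1 = x + T := by
        rw [hx, mul_add T (y' + 1) 1, mul_one]
        omega
      rw [← hx] at h3
      rw [hx2]
      have h4 : c * x ^ 2 < A := not_le.1 h3
      have h5 : (4 * c * x * T) ^ 2 ≤ G ^ 2 := by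
        refine le_trans ?_ h1
        calc (4 * c * x * T) ^ 2 = 16 * c * T ^ 2 * (c * x ^ 2) := by ring
          _ ≤ 16 * c * T ^ 2 * A := Nat.mul_le_mul_left _ h4.le
      have h6 : 4 * c * x * T ≤ G := (Nat.pow_le_pow_iff_left (by norm_num)).1 h5
      have h7 : c * (x + T) ^ 2 = c * x ^ 2 + 2 * (c * x * T) + c * T ^ 2 := by ring
      have h8 : 4 * c * x * T = 4 * (c * x * T) := by ring
      have h9 : 2 * c * T ^ 2 = 2 * (c * T ^ 2) := by ring
      omega

/-- multiples in intervals -/
theorem exists_mult {d A G : ℕ} (hd : 1 ≤ d) (h : d ≤ G) : ∃ x : ℕ, d ∣ x ∧ A ≤ x ∧ x ≤ A + G := by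
  refine ⟨d * ((A + d - 1) / d), dvd_mul_right _ _, ?_, ?_⟩
  · have := Nat.lt_mul_div_succ (A + d - 1) hd
    have e : d * ((A + d - 1) / d + 1) = d * ((A + d - 1) / d) + d := by ring
    omega
  · have := Nat.mul_div_le (A + d - 1) d
    omega

/-- distribution of the bits -/
theorem exists_bits {k NB M : ℕ} (hk : k ≤ NB) (hM : M < 2 ^ NB) :
    ∃ (κ : ℕ → Option (Fin (k + 2))) (u : Option (Fin (k + 2)) → ℕ),
      (∀ o, ∑ i ∈ (range NB).filter (fun i => κ i = o), 2 ^ i + (if o = some 0 then 1 else 0) = u o) ∧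
      u (some 0) = 1 ∧
      (∀ b : Fin (k + 2), b ≠ 0 → b ≠ Fin.last (k + 1) →
        u (some b) = 0 ∨ u (some b) = 2 ^ (b.val - 1)) ∧
      2 ^ k ∣ u (some (Fin.last (k + 1))) ∧
      ∑ b, u (some b) = 1 + M ∧ u none + (1 + M) = 2 ^ NB := by
  classical
  obtain ⟨κ, hκ⟩ : ∃ κ : ℕ → Option (Fin (k + 2)), κ = fun i => if M / 2 ^ i % 2 = 1 then
    (if h : i < k then some ⟨i + 1, by omega⟩ else some (Fin.last (k + 1))) else none := ⟨_, rfl⟩
  have k1 : ∀ i, M / 2 ^ i % 2 ≠ 1 → κ i = none := fun i h => by rw [hκ]; simp only [if_neg h]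
  have k2 : ∀ i, M / 2 ^ i % 2 = 1 → ∀ h : i < k, κ i = some ⟨i + 1, by omega⟩ := fun i h h' => by
    rw [hκ]; simp only [if_pos h, dif_pos h']
  have k3 : ∀ i, M / 2 ^ i % 2 = 1 → ¬ i < k → κ i = some (Fin.last (k + 1)) := fun i h h' => by
    rw [hκ]; simp only [if_pos h, dif_neg h']
  have hne : (Fin.last (k + 1)) ≠ 0 := by
    intro h
    have := congrArg Fin.val h
    simp at this
  have s0 : ∀ i, κ i ≠ some 0 := by
    intro i h
    by_cases h1 : M / 2 ^ i % 2 = 1
    · by_cases h2 : i < k
      · rw [k2 i h1 h2, Option.some.injEq] at h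
        have := congrArg Fin.val h
        simp at this
      · rw [k3 i h1 h2, Option.some.injEq] at h
        exact hne h
    · rw [k1 i h1] at h
      exact absurd h (by simp)
  have hdig : ∑ i ∈ range NB, 2 ^ i * (M / 2 ^ i % 2) = M := by
    rw [digits_sum, Nat.mod_eq_of_lt hM]
  have hgeo : ∑ i ∈ range NB, 2 ^ i + 1 = 2 ^ NB := by
    rw [Nat.geomSum_eq le_rfl]
    have : 1 ≤ 2 ^ NB := Nat.one_le_two_pow
    norm_num
    omega
  have hfib := Finset.sum_fiberwise (range NB) κ (fun i => 2 ^ i)
  rw [Fintype.sum_option] at hfib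
  have hnone : ∑ i ∈ (range NB).filter (fun i => κ i = none), 2 ^ i + M + 1 = 2 ^ NB := by
    rw [← hgeo, add_left_inj]
    have e1 : (range NB).filter (fun i => κ i = none) =
        (range NB).filter (fun i => ¬ M / 2 ^ i % 2 = 1) := by
      refine Finset.filter_congr fun i _ => ?_
      constructor
      · intro h h1
        by_cases h2 : i < k
        · rw [k2 i h1 h2] at h; exact absurd h (by simp)
        · rw [k3 i h1 h2] at h; exact absurd h (by simp)
      · intro h; exact k1 i h
    have e2 : M = ∑ i ∈ (range NB).filter (fun i => M / 2 ^ i % 2 = 1), 2 ^ i := by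
      conv_lhs => rw [← hdig]
      rw [Finset.sum_filter]
      refine Finset.sum_congr rfl fun i _ => ?_
      by_cases h : M / 2 ^ i % 2 = 1
      · rw [if_pos h, h, mul_one]
      · have : M / 2 ^ i % 2 = 0 := by omega
        rw [if_neg h, this, mul_zero]
    rw [e1]
    conv_lhs => rw [e2]
    have e3 : ∀ (p : ℕ → Prop) [DecidablePred p], ∑ i ∈ (range NB).filter (fun i => ¬ p i), 2 ^ i +
        ∑ i ∈ (range NB).filter p, 2 ^ i = ∑ i ∈ range NB, 2 ^ i := by
      intro p _
      rw [add_comm]
      exact Finset.sum_filter_add_sum_filter_not _ _ _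
    have e4 := e3 (fun i => M / 2 ^ i % 2 = 1)
    convert e4 using 3
    rw [← e2]
  refine ⟨κ, fun o => ∑ i ∈ (range NB).filter (fun i => κ i = o), 2 ^ i +
    (if o = some 0 then 1 else 0), fun o => rfl, ?_, fun b hb0 hbl => ?_, ?_, ?_, ?_⟩
  · simp only [if_true]
    rw [Finset.filter_false_of_mem fun i _ => s0 i, Finset.sum_empty]
  · have hb0' : (b : ℕ) ≠ 0 := fun h => hb0 (Fin.ext h)
    have hbl' : (b : ℕ) ≠ k + 1 := fun h => hbl (Fin.ext h)
    have hbk := b.isLt
    have hsb : ¬ (some b = some (0 : Fin (k + 2))) := fun h => hb0 (Option.some.inj h)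
    simp only [if_neg hsb, add_zero]
    by_cases h1 : M / 2 ^ (b.val - 1) % 2 = 1
    · right
      have e1 : (range NB).filter (fun i => κ i = some b) = {b.val - 1} := by
        ext i
        rw [mem_filter, mem_range, mem_singleton]
        constructor
        · rintro ⟨hi, h⟩
          by_cases h3 : M / 2 ^ i % 2 = 1
          · by_cases h2 : i < k
            · rw [k2 i h3 h2, Option.some.injEq] at h
              have := congrArg Fin.val h
              simp only at this
              omega
            · rw [k3 i h3 h2, Option.some.injEq] at h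
              exact absurd h.symm hbl
          · rw [k1 i h3] at h; exact absurd h (by simp)
        · intro h
          subst h
          refine ⟨by omega, ?_⟩
          rw [k2 _ h1 (by omega), Option.some.injEq]
          apply Fin.ext
          simp only
          omega
      rw [e1, Finset.sum_singleton]
    · left
      rw [Finset.filter_false_of_mem, Finset.sum_empty]
      intro i _ h
      by_cases h3 : M / 2 ^ i % 2 = 1
      · by_cases h2 : i < k
        · rw [k2 i h3 h2, Option.some.injEq] at h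
          have h4 := congrArg Fin.val h
          simp only at h4
          apply h1
          rw [← h4, Nat.add_sub_cancel]
          exact h3
        · rw [k3 i h3 h2, Option.some.injEq] at h
          exact absurd h.symm hbl
      · rw [k1 i h3] at h; exact absurd h (by simp)
  · have hsb : ¬ (some (Fin.last (k + 1)) = some (0 : Fin (k + 2))) :=
      fun h => hne (Option.some.inj h)
    simp only [if_neg hsb, add_zero]
    refine Finset.dvd_sum fun i hi => ?_
    rw [mem_filter] at hi
    apply pow_dvd_pow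
    by_contra hcon
    have h2 : i < k := not_le.1 hcon
    by_cases h3 : M / 2 ^ i % 2 = 1
    · have h := hi.2
      rw [k2 i h3 h2, Option.some.injEq] at h
      have h4 := congrArg Fin.val h
      simp only [Fin.val_last] at h4
      omega
    · have h := hi.2
      rw [k1 i h3] at h; exact absurd h (by simp)
  · simp only [Option.some.injEq]
    rw [Finset.sum_add_distrib, Finset.sum_ite_eq' univ, if_pos (mem_univ _)]
    omega
  · have hsb : ¬ (none = some (0 : Fin (k + 2))) := by simp
    simp only [if_neg hsb, add_zero]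
    omega

end Pool.Agent.H31.PH
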