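import Pool.Agent.H31.PH.Sol
import Pool.Agent.H31.PH.Orders
import Pool.Graph.R_seed8.H108R3.Had.P7

/-!
# The choice of the parameters
-/

set_option autoImplicit false

namespace Pool.Agent.H31.PH

open Matrix Finset
open Pool.Agent.N328.PH (HasPH)
open Pool.Agent.H108R3.Had (PUk HasHad)

/-- the sizes -/
structure Sizes (L n T J q r h c₁ E w A : ℕ) : Prop where
  hE : r * (A + w) + E ≤ n
  hEdef : E = J * c₁ * r ^ 2 * q ^ 2
  hlow : n ≤ (r + h) * A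
  hsq : 32 * T ^ 3 * A ≤ w ^ 2
  hw4 : 4 * T ^ 3 ≤ w
  hwJ : 2 * (r * J) ≤ w
  hnf : h * (A + w) + r * J ≤ n

theorem exists_sizes {L n T J q r h c₁ : ℕ} (hT : 2 ≤ T) (hJ1 : 1 ≤ J) (hJT : J ≤ T) (hh2 : 2 ≤ h)
    (hhq : 4 * h ≤ q) (hq4 : 4 ≤ q) (hr : r = q ^ (L + 1)) (hc : 1 ≤ c₁)
    (hbig : 2 ^ 20 * c₁ * T ^ 3 * (q ^ 2 * r ^ 3) ≤ n) : ∃ E w A, Sizes L n T J q r h c₁ E w A := by
  have hqr : q ≤ r := by rw [hr]; exact Nat.le_self_pow (by omega) q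
  have hr4 : 4 ≤ r := by omega
  have hT1 : 1 ≤ T := by omega
  have hTT : T ≤ T ^ 3 := Nat.le_self_pow (by norm_num) T
  -- consequences
  have b1 : 2 ^ 20 * (T ^ 3 * r ^ 3) ≤ n := by
    refine le_trans ?_ hbig
    calc 2 ^ 20 * (T ^ 3 * r ^ 3) = 2 ^ 20 * 1 * T ^ 3 * (1 * r ^ 3) := by ring
      _ ≤ 2 ^ 20 * c₁ * T ^ 3 * (q ^ 2 * r ^ 3) :=
          Nat.mul_le_mul (Nat.mul_le_mul_right _ (Nat.mul_le_mul_left _ hc))
            (Nat.mul_le_mul_right _ (Nat.one_le_pow _ _ (by omega)))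
  have b2 : 2 ^ 20 * (T ^ 3 * r ^ 2) ≤ n := by
    refine le_trans ?_ b1
    exact Nat.mul_le_mul_left _ (Nat.mul_le_mul_left _ (Nat.pow_le_pow_right (by omega) (by norm_num)))
  have b3 : 2 ^ 20 * r ^ 2 ≤ n := by
    refine le_trans ?_ b2
    calc 2 ^ 20 * r ^ 2 = 2 ^ 20 * (1 * r ^ 2) := by ring
      _ ≤ 2 ^ 20 * (T ^ 3 * r ^ 2) :=
        Nat.mul_le_mul_left _ (Nat.mul_le_mul_right _ (Nat.one_le_pow _ _ hT1))
  obtain ⟨E, hE⟩ : ∃ E, E = J * c₁ * r ^ 2 * q ^ 2 := ⟨_, rfl⟩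
  have b4 : 2 ^ 20 * (r * E) ≤ n := by
    refine le_trans ?_ hbig
    rw [hE]
    calc 2 ^ 20 * (r * (J * c₁ * r ^ 2 * q ^ 2)) = 2 ^ 20 * c₁ * J * (q ^ 2 * r ^ 3) := by ring
      _ ≤ 2 ^ 20 * c₁ * T ^ 3 * (q ^ 2 * r ^ 3) :=
          Nat.mul_le_mul_right _ (Nat.mul_le_mul_left _ (hJT.trans hTT))
  obtain ⟨w, hw⟩ : ∃ w, w = n / (16 * r ^ 2) := ⟨_, rfl⟩
  have hden : 0 < 16 * r ^ 2 := by positivity
  have hw1 : 16 * r ^ 2 * w ≤ n := by rw [hw]; exact Nat.mul_div_le _ _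
  have hw2 : n < 16 * r ^ 2 * (w + 1) := by rw [hw]; exact Nat.lt_mul_div_succ _ hden
  have hw0 : 1 ≤ w := by
    rw [hw, Nat.le_div_iff_mul_le hden]
    omega
  have hw3 : n ≤ 32 * (r ^ 2 * w) := by
    have e1 : 16 * r ^ 2 * (w + 1) = 16 * (r ^ 2 * w) + 16 * r ^ 2 := by ring
    have e2 : r ^ 2 ≤ r ^ 2 * w := Nat.le_mul_of_pos_right _ hw0
    omega
  obtain ⟨B, hB⟩ : ∃ B, B = (n - E) / r := ⟨_, rfl⟩
  have hE4 : 4 * E ≤ r * E := Nat.mul_le_mul_right _ hr4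
  have hB1 : r * B ≤ n - E := by rw [hB]; exact Nat.mul_div_le _ _
  have hB2 : n - E < r * (B + 1) := by rw [hB]; exact Nat.lt_mul_div_succ _ (by omega)
  have e1 : 4 * (r * w) ≤ r ^ 2 * w := by
    calc 4 * (r * w) ≤ r * (r * w) := Nat.mul_le_mul_right _ hr4
      _ = r ^ 2 * w := by ring
  have e2 : 4 * r ≤ r ^ 2 := by
    rw [pow_two]; exact Nat.mul_le_mul_right _ hr4
  have e3 : r * (B + 1) = r * B + r := by ring
  have e4 : 16 * r ^ 2 * w = 16 * (r ^ 2 * w) := by ring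
  have hwB : w ≤ B := by
    have : r * w ≤ r * B := by omega
    exact Nat.le_of_mul_le_mul_left this (by omega)
  obtain ⟨A, hA⟩ : ∃ A, B = A + w := ⟨B - w, by omega⟩
  have e5 : r * B = r * A + r * w := by rw [hA]; ring
  refine ⟨E, w, A, ?_, hE, ?_, ?_, ?_, ?_, ?_⟩
  · rw [← hA]; omega
  · have f1 : r * n ≤ r * ((r + h) * A) := by
      have f2 : r * n ≤ r * (r * A + r * w + r + E) := Nat.mul_le_mul_left _ (by omega)
      have f3 : r * (r * A + r * w + r + E) = r ^ 2 * A + r ^ 2 * w + r ^ 2 + r * E := by ring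
      have f4 : r ^ 2 * A + 2 * (r * A) ≤ r * ((r + h) * A) := by
        have f5 : r * ((r + h) * A) = r ^ 2 * A + h * (r * A) := by ring
        rw [f5]
        exact Nat.add_le_add_left (Nat.mul_le_mul_right _ hh2) _
      omega
    exact Nat.le_of_mul_le_mul_left f1 (by omega)
  · have f1 : 0 < 2 ^ 10 * r ^ 5 := by positivity
    apply Nat.le_of_mul_le_mul_left _ f1
    have f2 : r * A ≤ n := by omega
    calc 2 ^ 10 * r ^ 5 * (32 * T ^ 3 * A) = 2 ^ 15 * (T ^ 3 * r ^ 4) * (r * A) := by ring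
      _ ≤ 2 ^ 15 * (T ^ 3 * r ^ 4) * n := Nat.mul_le_mul_left _ f2
      _ = r * (2 ^ 15 * (T ^ 3 * r ^ 3)) * n := by ring
      _ ≤ r * n * n := by
          apply Nat.mul_le_mul_right
          apply Nat.mul_le_mul_left
          omega
      _ = r * (n * n) := by ring
      _ ≤ r * ((32 * (r ^ 2 * w)) * (32 * (r ^ 2 * w))) :=
          Nat.mul_le_mul_left _ (Nat.mul_le_mul hw3 hw3)
      _ = 2 ^ 10 * r ^ 5 * w ^ 2 := by ring
  · rw [hw, Nat.le_div_iff_mul_le hden]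
    calc 4 * T ^ 3 * (16 * r ^ 2) = 2 ^ 6 * (T ^ 3 * r ^ 2) := by ring
      _ ≤ 2 ^ 20 * (T ^ 3 * r ^ 2) := Nat.mul_le_mul_right _ (by norm_num)
      _ ≤ n := b2
  · rw [hw, Nat.le_div_iff_mul_le hden]
    calc 2 * (r * J) * (16 * r ^ 2) = 2 ^ 5 * (J * r ^ 3) := by ring
      _ ≤ 2 ^ 20 * (T ^ 3 * r ^ 3) :=
          Nat.mul_le_mul (by norm_num) (Nat.mul_le_mul_right _ (hJT.trans hTT))
      _ ≤ n := b1
  · rw [← hA]
    have f1 : 4 * (h * B) ≤ r * B := by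
      calc 4 * (h * B) = (4 * h) * B := by ring
        _ ≤ r * B := Nat.mul_le_mul_right _ (by omega)
    have f2 : 2 ^ 20 * (r * J) ≤ n := by
      refine le_trans ?_ b2
      apply Nat.mul_le_mul_left
      calc r * J = J * r := by ring
        _ ≤ T ^ 3 * r ^ 2 := Nat.mul_le_mul (hJT.trans hTT) (Nat.le_self_pow (by norm_num) r)
    omega

end Pool.Agent.H31.PH
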