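import Pool.Agent.H31.PH.Param

/-!
# Partial Hadamard matrices for a given order
-/

set_option autoImplicit false

namespace Pool.Agent.H31.PH

open Matrix Finset
open Pool.Agent.N328.PH (HasPH)
open Pool.Agent.H108R3.Had (PUk HasHad)

/-- a head for a bit -/
theorem exists_head {n t T J A w i : ℕ} (hT : T = 2 ^ t) (hT2 : 2 ≤ T) (hJT : J ∣ T)
    (hsp : ∀ v, v ^ 2 ≤ n → 2 ^ t ∣ v + 1 → HasHad (4 * v ^ 2)) (hAn : A + w ≤ n)
    (hsq : 32 * T ^ 3 * A ≤ w ^ 2) (hw4 : 4 * T ^ 3 ≤ w) (hi : 2 ^ (i + 2) ≤ 2 * T) :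
    ∃ ν, A ≤ ν ∧ ν ≤ A + w ∧ HasHad ν ∧ (4 * J : ℤ) ∣ (ν : ℤ) - 4 * 2 ^ i := by
  obtain ⟨v, h1, h2, h3⟩ := exists_v (c := 2 ^ (i + 2)) (T := T) (A := A) (G := w)
    Nat.one_le_two_pow hT2 (by
      refine le_trans ?_ hsq
      calc 16 * 2 ^ (i + 2) * T ^ 2 * A ≤ 16 * (2 * T) * T ^ 2 * A :=
            Nat.mul_le_mul_right _ (Nat.mul_le_mul_right _ (Nat.mul_le_mul_left _ hi))
        _ = 32 * T ^ 3 * A := by ring) (by
      refine le_trans ?_ hw4
      calc 2 * 2 ^ (i + 2) * T ^ 2 ≤ 2 * (2 * T) * T ^ 2 :=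
            Nat.mul_le_mul_right _ (Nat.mul_le_mul_left _ hi)
        _ = 4 * T ^ 3 := by ring)
  refine ⟨2 ^ (i + 2) * v ^ 2, h2, h3, ?_, ?_⟩
  · have h4 : v ^ 2 ≤ n := by
      have : v ^ 2 ≤ 2 ^ (i + 2) * v ^ 2 := Nat.le_mul_of_pos_left _ (by positivity)
      omega
    have h5 := had_pow (hsp v h4 (by rw [← hT]; exact h1)) i
    have e : 2 ^ (i + 2) * v ^ 2 = 2 ^ i * (4 * v ^ 2) := by rw [pow_add]; ring
    rw [e]
    exact h5
  · obtain ⟨x, hx⟩ := hJT.trans h1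
    have hx' : (v : ℤ) + 1 = J * x := by exact_mod_cast hx
    refine ⟨2 ^ i * x * (v - 1), ?_⟩
    push_cast
    rw [pow_add]
    linear_combination (4 * 2 ^ i * ((v : ℤ) - 1)) * hx'

/-- a head without a bit -/
theorem exists_head0 {n J k A w : ℕ} (hk : 2 ^ k ∣ J) (hJ : 1 ≤ J) (hPU : ∀ l ≤ n, PUk k l)
    (hAn : A + w ≤ n) (hw : 4 * J ≤ w) :
    ∃ ν, A ≤ ν ∧ ν ≤ A + w ∧ HasHad ν ∧ (4 * J : ℤ) ∣ (ν : ℤ) := by
  obtain ⟨ν, h1, h2, h3⟩ := exists_mult (d := 4 * J) (A := A) (G := w) (by omega) hw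
  refine ⟨ν, h2, h3, ?_, by exact_mod_cast h1⟩
  obtain ⟨S, hS⟩ := (hk.trans (Dvd.intro_left 4 rfl)).trans h1
  have hSn : S ≤ n := by
    have : S ≤ 2 ^ k * S := Nat.le_mul_of_pos_left _ (by positivity)
    omega
  rw [hS]
  exact Pool.Agent.H108R3.Had.t_P7 k S (hPU S hSn)

theorem c1_ineq {L q r h c₁ : ℕ} (hq : 4 ≤ q) (hqr : q ≤ r) (hhq : h ≤ q) (hr : r = q ^ (L + 1))
    (hc₁ : c₁ = L ^ 2 + 15 * L + 21) :
    r ^ 2 * (2 + (L + 1) * (q ^ 2 + h * q) + L * ((L + 1) * q + 4 * h + 8)) +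
      4 * (h * q + 2 * q ^ (L + 2)) + 4 + r ≤ c₁ * r ^ 2 * q ^ 2 := by
  have e0 : q ^ (L + 2) = r * q := by rw [hr, ← pow_succ]
  rw [e0]
  have hq1 : 1 ≤ q ^ 2 := Nat.one_le_pow _ _ (by omega)
  have hqq : q ≤ q ^ 2 := Nat.le_self_pow (by norm_num) q
  have hhq2 : h * q ≤ q ^ 2 := by rw [pow_two]; exact Nat.mul_le_mul_right _ hhq
  have e1 : (L + 1) * (q ^ 2 + h * q) ≤ (L + 1) * (2 * q ^ 2) := Nat.mul_le_mul_left _ (by omega)
  have e2 : L * ((L + 1) * q + 4 * h + 8) ≤ L * ((L + 13) * q ^ 2) := by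
    apply Nat.mul_le_mul_left
    calc (L + 1) * q + 4 * h + 8 ≤ (L + 1) * q ^ 2 + 4 * q ^ 2 + 8 * q ^ 2 := by
          have : (L + 1) * q ≤ (L + 1) * q ^ 2 := Nat.mul_le_mul_left _ hqq
          omega
      _ = (L + 13) * q ^ 2 := by ring
  have e3 : r ^ 2 * (2 + (L + 1) * (q ^ 2 + h * q) + L * ((L + 1) * q + 4 * h + 8)) ≤
      r ^ 2 * (2 * q ^ 2 + (L + 1) * (2 * q ^ 2) + L * ((L + 13) * q ^ 2)) :=
    Nat.mul_le_mul_left _ (by omega)
  have hr1 : 1 ≤ r ^ 2 := Nat.one_le_pow _ _ (by omega)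
  have hrr : r ≤ r ^ 2 := Nat.le_self_pow (by norm_num) r
  have e4 : h * q ≤ r ^ 2 * q ^ 2 := hhq2.trans (Nat.le_mul_of_pos_left _ hr1)
  have e5 : r * q ≤ r ^ 2 * q ^ 2 := Nat.mul_le_mul hrr hqq
  have e6 : 1 ≤ r ^ 2 * q ^ 2 := Nat.mul_pos hr1 hq1
  have e7 : r ≤ r ^ 2 * q ^ 2 := hrr.trans (Nat.le_mul_of_pos_right _ hq1)
  have e8 : c₁ * r ^ 2 * q ^ 2 = r ^ 2 * (2 * q ^ 2 + (L + 1) * (2 * q ^ 2) + L * ((L + 13) * q ^ 2)) +
      17 * (r ^ 2 * q ^ 2) := by rw [hc₁]; ring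
  rw [e8]
  omega

theorem card_T1 (L k : ℕ) : Fintype.card (T1 L (Fin (k + 2))) + 1 ≤ 2 ^ (k + 2 * L + 8) := by
  rw [Fintype.card_sum, Fintype.card_sum, Fintype.card_prod, Fintype.card_prod, Fintype.card_fin,
    Fintype.card_fin]
  have h1 : L + 1 ≤ 2 ^ L := Nat.lt_two_pow_self
  have h2 : k + L + 4 < 2 ^ (k + L + 4) := Nat.lt_two_pow_self
  have h3 : (L + 1) * (k + L + 4) ≤ 2 ^ L * 2 ^ (k + L + 4) := Nat.mul_le_mul h1 h2.le
  have h4 : 2 ^ L * 2 ^ (k + L + 4) = 2 ^ (k + 2 * L + 4) := by rw [← pow_add]; congr 1; ring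
  have h5 : 2 ^ (k + 2 * L + 8) = 2 ^ (k + 2 * L + 4) * 16 := by
    have e : k + 2 * L + 8 = k + 2 * L + 4 + 4 := by omega
    rw [e, pow_add]; norm_num
  have h6 : 1 ≤ 2 ^ (k + 2 * L + 4) := Nat.one_le_two_pow
  have h7 : L + 1 + ((L + 1) * (L + 1) + (k + 2) * (L + 1)) = (L + 1) * (k + L + 4) := by ring
  omega

set_option maxHeartbeats 1000000 in
/-- the main construction for a given order -/
theorem level_n {L n k t T J K' q r j' c₁ : ℕ} (h4 : 4 ∣ n) (hPU : ∀ l ≤ n, PUk k l)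
    (hsp : ∀ v, v ^ 2 ≤ n → 2 ^ t ∣ v + 1 → HasHad (4 * v ^ 2))
    (hK' : K' = 1 + (k + 2 * L + 8) + k) (hJ : J = 2 ^ (5 * 2 ^ K' - 1)) (hT : T = 2 ^ t)
    (hKt : 5 * 2 ^ K' ≤ t) (hq : q = 4 ^ j') (hTq : 4 * T ≤ q) (hr : r = q ^ (L + 1))
    (hc₁ : c₁ = L ^ 2 + 15 * L + 21) (hbig : 2 ^ 20 * c₁ * T ^ 3 * (q ^ 2 * r ^ 3) ≤ n) :
    ∃ x, HasPH x n ∧ x ≤ n ∧ r * (n - x) ≤ (k + 2) * n := by
  classical
  -- simple facts
  have hKK : K' < 2 ^ K' := Nat.lt_two_pow_self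
  have htt : t < 2 ^ t := Nat.lt_two_pow_self
  have hkT : k + 2 ≤ T := by omega
  have hT2 : 2 ≤ T := by omega
  have hJT : J ∣ T := by rw [hJ, hT]; exact pow_dvd_pow 2 (by omega)
  have hJleT : J ≤ T := Nat.le_of_dvd (by omega) hJT
  have hJ1 : 1 ≤ J := by rw [hJ]; exact Nat.one_le_two_pow
  have hq4 : 4 ≤ q := by omega
  have hqr : q ≤ r := by rw [hr]; exact Nat.le_self_pow (by omega) q
  have hr4 : 4 ≤ r := by omega
  have h4Jq : 4 * J ∣ q := by
    have e1 : 4 * J = 2 ^ (5 * 2 ^ K' - 1 + 2) := by rw [hJ, pow_add]; ring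
    have e2 : q = 2 ^ (2 * j') := by rw [hq, pow_mul]; norm_num
    have e3 : 4 * T = 2 ^ (t + 2) := by rw [hT, pow_add]; ring
    rw [e1, e2]
    apply pow_dvd_pow
    have e4 : 2 ^ (t + 2) ≤ 2 ^ (2 * j') := by rw [← e3, ← e2]; exact hTq
    have := (Nat.pow_le_pow_iff_right (by norm_num)).1 e4
    omega
  obtain ⟨r', hr'⟩ : 4 * J ∣ r := h4Jq.trans (by rw [hr]; exact dvd_pow_self _ (by omega))
  have hkJ : 2 ^ k ∣ J := by rw [hJ]; exact pow_dvd_pow 2 (by omega)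
  obtain ⟨h, hh⟩ : ∃ h, h = k + 2 := ⟨_, rfl⟩
  obtain ⟨E, w, A, hs⟩ := exists_sizes (L := L) (n := n) (T := T) (J := J) (q := q) (r := r) (h := h)
    (c₁ := c₁) hT2 hJ1 hJleT (by omega) (by omega) hq4 hr (by omega) hbig
  obtain ⟨hE, hEdef, hlow, hsq, hw4, hwJ, hnf⟩ := hs
  have hAn : A + w ≤ n := by
    have : A + w ≤ h * (A + w) := Nat.le_mul_of_pos_left _ (by omega)
    omega
  have hw4J : 4 * J ≤ w := by
    have : 4 * J ≤ r * J := Nat.mul_le_mul_right _ hr4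
    omega
  -- the bits
  obtain ⟨m₀, hm₀⟩ := h4
  have hm₀1 : 1 ≤ m₀ := by omega
  obtain ⟨M1, hM1⟩ : ∃ M1, M1 = (m₀ - 1) % J := ⟨_, rfl⟩
  obtain ⟨Q, hQ⟩ : ∃ Q, Q = (m₀ - 1) / J := ⟨_, rfl⟩
  have hdiv : J * Q + M1 = m₀ - 1 := by rw [hQ, hM1]; exact Nat.div_add_mod _ _
  have hM1J : M1 < J := by rw [hM1]; exact Nat.mod_lt _ hJ1
  obtain ⟨κ, u, hu, hu0, hub, huf, husum, hunone⟩ := exists_bits (k := k) (NB := 5 * 2 ^ K' - 1)
    (M := M1) (by omega) (by rw [← hJ]; exact hM1J)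
  rw [← hJ] at hunone
  obtain ⟨f, hf⟩ : ∃ f, f = Fin.last (k + 1) := ⟨_, rfl⟩
  rw [← hf] at huf hub
  -- the heads
  have hheads : ∀ b : Fin (k + 2), ∃ ν : ℕ, b ≠ f → (A ≤ ν ∧ ν ≤ A + w ∧ HasHad ν ∧
      (4 * J : ℤ) ∣ (ν : ℤ) - 4 * u (some b)) := by
    intro b
    by_cases hb0 : b = 0
    · obtain ⟨ν, g1, g2, g3, g4⟩ := exists_head (i := 0) hT hT2 hJT hsp hAn hsq hw4 (by omega)
      refine ⟨ν, fun _ => ⟨g1, g2, g3, ?_⟩⟩
      rw [hb0, hu0]
      simpa using g4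
    · by_cases hbf : b = f
      · exact ⟨0, fun h => absurd hbf h⟩
      · rcases hub b hb0 hbf with hu' | hu'
        · obtain ⟨ν, g1, g2, g3, g4⟩ := exists_head0 hkJ hJ1 hPU hAn hw4J
          refine ⟨ν, fun _ => ⟨g1, g2, g3, ?_⟩⟩
          rw [hu']
          simpa using g4
        · have hbk : b.val - 1 + 2 ≤ t + 1 := by have := b.isLt; omega
          obtain ⟨ν, g1, g2, g3, g4⟩ := exists_head (i := b.val - 1) hT hT2 hJT hsp hAn hsq hw4 (by
            rw [hT, ← pow_succ']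
            exact Nat.pow_le_pow_right (by norm_num) hbk)
          refine ⟨ν, fun _ => ⟨g1, g2, g3, ?_⟩⟩
          rw [hu']
          push_cast
          exact g4
  choose ν' hν' using hheads
  obtain ⟨sg, hsg⟩ : ∃ sg, sg = ∑ b ∈ univ.erase f, ν' b := ⟨_, rfl⟩
  have hsgle : sg ≤ (k + 1) * (A + w) := by
    rw [hsg]
    calc ∑ b ∈ univ.erase f, ν' b ≤ ∑ b ∈ univ.erase f, (A + w) :=
          Finset.sum_le_sum fun b hb => (hν' b (Finset.ne_of_mem_erase hb)).2.1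
      _ = (k + 1) * (A + w) := by
          rw [Finset.sum_const, Finset.card_erase_of_mem (mem_univ _), Finset.card_univ,
            Fintype.card_fin, smul_eq_mul]
          congr 1
  have hsgge : (k + 1) * A ≤ sg := by
    rw [hsg]
    calc (k + 1) * A = ∑ b ∈ univ.erase f, A := by
          rw [Finset.sum_const, Finset.card_erase_of_mem (mem_univ _), Finset.card_univ,
            Fintype.card_fin, smul_eq_mul]
          congr 1
      _ ≤ ∑ b ∈ univ.erase f, ν' b :=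
          Finset.sum_le_sum fun b hb => (hν' b (Finset.ne_of_mem_erase hb)).1
  -- the length
  have hrJ : 0 < r * J := Nat.mul_pos (by omega) hJ1
  obtain ⟨S, ρ, hSρ, hρ⟩ : ∃ S ρ, r * J * (2 * S + 1) + ρ + sg + A = n ∧ ρ ≤ w := by
    obtain ⟨x0, hx0⟩ : ∃ x0, x0 = n - sg - A := ⟨_, rfl⟩
    have e1 : (k + 1) * (A + w) + (A + w) = h * (A + w) := by rw [hh]; ring
    have hx0' : r * J ≤ x0 := by omega
    obtain ⟨y, hy⟩ : ∃ y, y = x0 / (r * J) := ⟨_, rfl⟩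
    have hy1 : 1 ≤ y := by rw [hy, Nat.le_div_iff_mul_le hrJ]; omega
    have hy2 : r * J * y ≤ x0 := by rw [hy]; exact Nat.mul_div_le _ _
    have hy3 : x0 < r * J * (y + 1) := by rw [hy]; exact Nat.lt_mul_div_succ _ hrJ
    refine ⟨(y - 1) / 2, x0 - r * J * (2 * ((y - 1) / 2) + 1), ?_, ?_⟩
    · have e2 : r * J * (2 * ((y - 1) / 2) + 1) ≤ r * J * y := Nat.mul_le_mul_left _ (by omega)
      omega
    · have e3 : r * J * (y + 1) ≤ r * J * ((2 * ((y - 1) / 2) + 1) + 2) :=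
        Nat.mul_le_mul_left _ (by omega)
      have e4 : r * J * ((2 * ((y - 1) / 2) + 1) + 2) = r * J * (2 * ((y - 1) / 2) + 1) +
        2 * (r * J) := by ring
      omega
  obtain ⟨ν, hν⟩ : ∃ ν : Fin (k + 2) → ℕ, ν = fun b => if b = f then A + ρ else ν' b := ⟨_, rfl⟩
  have hνf : ν f = A + ρ := by rw [hν]; simp only [if_true]
  have hνb : ∀ b ≠ f, ν b = ν' b := fun b hb => by rw [hν]; simp only [if_neg hb]
  have hνsum : ∑ b, ν b = A + ρ + sg := by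
    rw [← Finset.add_sum_erase univ _ (mem_univ f), hνf, hsg]
    congr 1
    exact Finset.sum_congr rfl fun b hb => hνb b (Finset.ne_of_mem_erase hb)
  have hνA : ∀ b, A ≤ ν b ∧ ν b ≤ A + w := by
    intro b
    by_cases hb : b = f
    · rw [hb, hνf]; omega
    · rw [hνb b hb]
      exact ⟨(hν' b hb).1, (hν' b hb).2.1⟩
  have hn : ∑ b, ν b + r * (J * (2 * S + 1)) = n := by
    rw [hνsum, ← mul_assoc]
    omega
  have hXA : J * (2 * S + 1) ≤ A := by
    have e1 : r * (J * (2 * S + 1)) ≤ r * A := by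
      have e2 : (r + h) * A = r * A + ((k + 1) * A + A) := by rw [hh]; ring
      omega
    exact Nat.le_of_mul_le_mul_left e1 (by omega)
  -- divisibility
  have hnZ : (n : ℤ) - 4 * (1 + M1) = 4 * J * Q := by
    have e1 : J * Q + M1 + 1 = m₀ := by omega
    have e2 : (J : ℤ) * Q + M1 + 1 = m₀ := by exact_mod_cast e1
    have e3 : (n : ℤ) = 4 * m₀ := by exact_mod_cast hm₀
    linear_combination e3 - 4 * e2
  have hrZ : (r : ℤ) = 4 * J * r' := by exact_mod_cast hr'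
  have husumZ : ∑ b, (u (some b) : ℤ) = 1 + M1 := by exact_mod_cast husum
  have hdvd : ∀ b, (4 * J : ℤ) ∣ (ν b : ℤ) - 4 * u (some b) := by
    intro b
    by_cases hb : b = f
    · subst hb
      have e1 : (4 * J : ℤ) ∣ ∑ b', ((ν b' : ℤ) - 4 * u (some b')) := by
        rw [Finset.sum_sub_distrib, ← Finset.mul_sum, husumZ]
        have e2 : (∑ b', (ν b' : ℤ)) + r * (J * (2 * S + 1)) = n := by exact_mod_cast hn
        refine ⟨Q - r' * (J * (2 * S + 1)), ?_⟩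
        linear_combination e2 + hnZ - ((J : ℤ) * (2 * S + 1)) * hrZ
      rw [← Finset.add_sum_erase univ _ (mem_univ b)] at e1
      refine (dvd_add_left (Finset.dvd_sum fun b' hb' => ?_)).1 e1
      have hne := Finset.ne_of_mem_erase hb'
      rw [hνb b' hne]
      exact (hν' b' hne).2.2.2
    · rw [hνb b hb]
      exact (hν' b hb).2.2.2
  have hHad : ∀ b, HasHad (ν b) := by
    intro b
    by_cases hb : b = f
    · subst hb
      obtain ⟨x, hx⟩ := hdvd b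
      have e1 : ((2 ^ k : ℕ) : ℤ) ∣ (ν b : ℤ) := by
        have e2 : (ν b : ℤ) = 4 * u (some b) + 4 * J * x := by linear_combination hx
        rw [e2]
        refine dvd_add ?_ ?_
        · exact Dvd.dvd.mul_left (by exact_mod_cast huf) _
        · have e3 : ((2 ^ k : ℕ) : ℤ) ∣ (J : ℤ) := by exact_mod_cast hkJ
          exact Dvd.dvd.mul_right (Dvd.dvd.mul_left e3 _) _
      have e4 : 2 ^ k ∣ ν b := by exact_mod_cast e1
      obtain ⟨S', hS'⟩ := e4
      have hSn : S' ≤ n := by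
        have : S' ≤ 2 ^ k * S' := Nat.le_mul_of_pos_left _ (by positivity)
        have := (hνA b).2
        omega
      rw [hS']
      exact Pool.Agent.H108R3.Had.t_P7 k S' (hPU S' hSn)
    · rw [hνb b hb]
      exact (hν' b hb).2.2.1
  have hg : ∀ b, ∃ g : ℕ, 4 * J * g + 4 * u (some b) = ν b + r * u (some b) := by
    intro b
    obtain ⟨x, hx⟩ := hdvd b
    have e1 : (0 : ℤ) ≤ (4 * J) * (x + r' * u (some b)) := by
      have e2 : (4 * J : ℤ) * (x + r' * u (some b)) = ν b + (r - 4) * u (some b) := by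
        linear_combination -hx - (u (some b) : ℤ) * hrZ
      rw [e2]
      have e3 : (4 : ℤ) ≤ r := by exact_mod_cast hr4
      have e4 : (0 : ℤ) ≤ (r - 4) * u (some b) := mul_nonneg (by linarith) (by positivity)
      positivity
    have e5 := nonneg_of_mul_nonneg_right e1 (by positivity)
    obtain ⟨g, hg⟩ := Int.eq_ofNat_of_zero_le e5
    refine ⟨g, ?_⟩
    have e6 : (4 * J * g + 4 * u (some b) : ℤ) = ν b + r * u (some b) := by
      rw [← hg]
      linear_combination -hx - (u (some b) : ℤ) * hrZ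
    exact_mod_cast e6
  choose g hg using hg
  -- the number `m`
  have hle : r' * u none ≤ Q := by
    have e1 : (4 * J) * (r' * u none) ≤ (4 * J) * Q := by
      have e2 : (4 * J) * (r' * u none) = r * u none := by rw [hr']; ring
      have e3 : r * u none ≤ r * J := Nat.mul_le_mul_left _ (by omega)
      have e4 : 4 * J * Q + 4 * (1 + M1) = n := by
        have : ((4 * J * Q + 4 * (1 + M1) : ℕ) : ℤ) = n := by push_cast; linarith
        exact_mod_cast this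
      have e5 : A + w ≤ h * (A + w) := Nat.le_mul_of_pos_left _ (by omega)
      omega
    exact Nat.le_of_mul_le_mul_left e1 (by omega)
  obtain ⟨m, hm⟩ : ∃ m, Q = m + r' * u none := ⟨Q - r' * u none, by omega⟩
  have hmn : 4 * J * m + 4 * ∑ b, u (some b) + r * u none = n := by
    have e1 : (4 * J * m + 4 * (1 + M1) + r * u none : ℤ) = n := by
      have e2 : (Q : ℤ) = m + r' * u none := by exact_mod_cast hm
      linear_combination (4 * J : ℤ) * (-e2) + (u none : ℤ) * hrZ - hnZ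
    rw [husum]
    exact_mod_cast e1
  -- the level
  obtain ⟨τ, hτ⟩ : ∃ τ, τ = (A + w) / (r * J) + 2 + (L + 1) * (q ^ 2 + h * q) := ⟨_, rfl⟩
  have hτ1 : ∀ b, ν b + r * J * (1 + (L + 1) * (q ^ 2 + h * q)) ≤ r * J * τ := by
    intro b
    have e1 := (hνA b).2
    have e2 := Nat.lt_mul_div_succ (A + w) hrJ
    have e3 : r * J * τ = r * J * ((A + w) / (r * J) + 1) + r * J * (1 + (L + 1) * (q ^ 2 + h * q)) := by
      rw [hτ]; ring
    omega
  have hc := c1_ineq (h := h) hq4 hqr (by omega) hr hc₁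
  have htop : r ^ 2 * (τ + L * ((L + 1) * q + 4 * h + 8)) + 4 * (h * q + 2 * q ^ (L + 2)) ≤ 4 * m := by
    have e1 := Nat.mul_le_mul_left J hc
    have e2 : J * (c₁ * r ^ 2 * q ^ 2) = E := by rw [hEdef]; ring
    rw [e2] at e1
    have e3 := Nat.mul_div_le (A + w) (r * J)
    have e4 := Nat.mul_le_mul_left r e3
    have e5 : J * (r ^ 2 * (τ + L * ((L + 1) * q + 4 * h + 8)) + 4 * (h * q + 2 * q ^ (L + 2))) +
        4 * J + r * J = r * (r * J * ((A + w) / (r * J))) + J * (r ^ 2 * (2 + (L + 1) * (q ^ 2 + h * q) +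
          L * ((L + 1) * q + 4 * h + 8)) + 4 * (h * q + 2 * q ^ (L + 2)) + 4 + r) := by
      rw [hτ]; ring
    have e6 : r * u none ≤ r * J := Nat.mul_le_mul_left _ (by omega)
    have e7 : J * (4 * m) = 4 * J * m := by ring
    have e8 : J * (r ^ 2 * (τ + L * ((L + 1) * q + 4 * h + 8)) + 4 * (h * q + 2 * q ^ (L + 2))) ≤
        J * (4 * m) := by
      rw [e7]
      omega
    exact Nat.le_of_mul_le_mul_left e8 hJ1
  -- conclusion
  obtain ⟨V, i1, i2, K, bt, be, z, hV, hBen⟩ := exists_ben j'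
  rw [← hq] at hV
  obtain ⟨v, hv⟩ : ∃ v : Fin (k + 2) → V, Function.Injective v := by
    have : Fintype.card (Fin (k + 2)) ≤ Fintype.card V := by
      rw [Fintype.card_fin, hV]; omega
    exact ⟨_, (Function.Embedding.nonempty_of_card_le this).some.injective⟩
  have hfin := sol (L := L) hBen hV (by omega) hv 0 f hK' hJ (fun l hl => hPU l (by
      have e1 : S ≤ r * (J * (2 * S + 1)) := by
        calc S ≤ 1 * (1 * (2 * S + 1)) := by omega
          _ ≤ r * (J * (2 * S + 1)) := Nat.mul_le_mul (by omega) (Nat.mul_le_mul hJ1 le_rfl)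
      omega)) (card_T1 L k) κ ν (fun b => had_ph (hHad b) (hXA.trans (hνA b).1)) hr hn u hu g hg
    (h := h) (by rw [Fintype.card_fin, hh]) hτ1 htop hmn
  refine ⟨r * (J * (2 * S + 1)), hfin, by omega, ?_⟩
  have e1 : n - r * (J * (2 * S + 1)) = ∑ b, ν b := by omega
  rw [e1]
  have e2 : ∑ b, ν b ≤ (k + 2) * (A + w) := by
    calc ∑ b, ν b ≤ ∑ b : Fin (k + 2), (A + w) := Finset.sum_le_sum fun b _ => (hνA b).2
      _ = (k + 2) * (A + w) := by
          rw [Finset.sum_const, Finset.card_univ, Fintype.card_fin, smul_eq_mul]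
  calc r * ∑ b, ν b ≤ r * ((k + 2) * (A + w)) := Nat.mul_le_mul_left _ e2
    _ = (k + 2) * (r * (A + w)) := by ring
    _ ≤ (k + 2) * n := Nat.mul_le_mul_left _ (by omega)

end Pool.Agent.H31.PH
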