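import Pool.Agent.H31.PH.Eqn
import Pool.Agent.H31.PH.Solve

/-!
# Partial Hadamard matrices with parameters
-/

set_option autoImplicit false
set_option linter.unusedSectionVars false

namespace Pool.Agent.H31.PH

open Matrix Finset
open Pool.Agent.N328.PH (HasPH)
open Pool.Agent.H108R3.Had (PUk)

theorem total_R0 {q L : ℕ} {D : ℕ → ℕ → ℕ} {z c : ℕ → ℕ} (hD : ∀ j i, i < j → D j i = 0)
    (hrow : ∀ i < L, ∑ j ∈ range (i + 1), q ^ j * D j i = q ^ (i + 1) * z i)
    (hcol : ∀ j, 1 ≤ j → j ≤ L → ∑ i ∈ range (L + 1), q ^ (L - i) * D j i = q ^ (L + 1 - j) * c j) :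
    ∑ i ∈ range (L + 1), q ^ (L - i) * D 0 i + q ^ (L + 1) * ∑ j ∈ range L, c (j + 1) =
      ∑ j ∈ range (L + 1), q ^ j * D j L + q ^ (L + 1) * ∑ i ∈ range L, z i := by
  have h1 : ∀ i ∈ range (L + 1), ∑ j ∈ range (L + 1), q ^ j * D j i =
      ∑ j ∈ range (i + 1), q ^ j * D j i := by
    intro i hi
    rw [mem_range] at hi
    symm
    refine Finset.sum_subset (fun j hj => ?_) fun j hj hn => ?_
    · rw [mem_range] at hj ⊢; omega
    · rw [mem_range] at hn
      rw [hD j i (by omega), mul_zero]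
  have h2 : ∑ i ∈ range (L + 1), q ^ (L - i) * ∑ j ∈ range (L + 1), q ^ j * D j i =
      ∑ j ∈ range (L + 1), q ^ j * D j L + q ^ (L + 1) * ∑ i ∈ range L, z i := by
    rw [Finset.sum_range_succ, Nat.sub_self, pow_zero, one_mul, add_comm, Finset.mul_sum]
    congr 1
    refine Finset.sum_congr rfl fun i hi => ?_
    rw [h1 i (by rw [mem_range] at hi ⊢; omega), hrow i (mem_range.1 hi), ← mul_assoc, ← pow_add]
    congr 2
    rw [mem_range] at hi
    omega
  have h3 : ∑ i ∈ range (L + 1), q ^ (L - i) * ∑ j ∈ range (L + 1), q ^ j * D j i =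
      ∑ j ∈ range (L + 1), q ^ j * ∑ i ∈ range (L + 1), q ^ (L - i) * D j i := by
    simp only [Finset.mul_sum]
    rw [Finset.sum_comm]
    refine Finset.sum_congr rfl fun j _ => Finset.sum_congr rfl fun i _ => ?_
    ring
  rw [← h2, h3, Finset.sum_range_succ' (fun j => q ^ j * ∑ i ∈ range (L + 1), q ^ (L - i) * D j i),
    pow_zero, one_mul, add_comm, Finset.mul_sum]
  congr 1
  refine Finset.sum_congr rfl fun j hj => ?_
  rw [mem_range] at hj
  rw [hcol (j + 1) (by omega) (by omega), ← mul_assoc, ← pow_add]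
  congr 2
  omega

/-- the sum of a row is small -/
theorem row_le {q L H : ℕ} (hq : 2 ≤ q) {D : ℕ → ℕ → ℕ} {i : ℕ} (hi : i ≤ L)
    (h0 : ∀ i ≤ L, D 0 i ≤ H + q ^ 2) (h1 : ∀ j i, 1 ≤ j → D j i ≤ q ^ 2) :
    ∑ j ∈ range (i + 1), q ^ j * D j i ≤ H + 2 * q ^ (i + 2) := by
  have h2 : ∀ k, ∑ j ∈ range (k + 1), q ^ j * D j i ≤ H + 2 * q ^ (k + 2) := by
    intro k
    induction k with
    | zero =>
      rw [Finset.sum_range_one, pow_zero, one_mul, zero_add]
      have := h0 i hi
      omega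
    | succ k ih =>
      rw [Finset.sum_range_succ]
      have e1 : q ^ (k + 1) * D (k + 1) i ≤ q ^ (k + 1) * q ^ 2 :=
        Nat.mul_le_mul_left _ (h1 _ _ (by omega))
      have e2 : q ^ (k + 1) * q ^ 2 = q ^ (k + 1 + 2) := by rw [← pow_add]
      have e3 : 2 * q ^ (k + 2) ≤ q ^ (k + 1 + 2) := by
        calc 2 * q ^ (k + 2) ≤ q * q ^ (k + 2) := Nat.mul_le_mul_right _ hq
          _ = q ^ (k + 1 + 2) := by rw [← pow_succ']
      omega
  exact h2 i

section sol

variable {V : Type} [Fintype V] [DecidableEq V] {K bt : Matrix V V ℤ} {be : V → ℤ} {z : V} {L : ℕ}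
  {Hd : Type} [Fintype Hd] [DecidableEq Hd]

set_option maxHeartbeats 1000000 in
theorem sol (hb : Ben V K bt be z) {q : ℕ} (hq : Fintype.card V = q) (hq2 : 2 ≤ q)
    {v : Hd → V} (hv : Function.Injective v) (b0 f : Hd) {j k S K' J : ℕ} (hK' : K' = 1 + j + k)
    (hJ : J = 2 ^ (5 * 2 ^ K' - 1)) (hPU : ∀ l ≤ S, PUk k l)
    (hj : Fintype.card (T1 L Hd) + 1 ≤ 2 ^ j) (κ : ℕ → Option Hd)
    (ν : Hd → ℕ) (hH : ∀ b, HasPH (J * (2 * S + 1)) (ν b)) {r : ℕ} (hr : r = q ^ (L + 1))
    {n : ℕ} (hn : ∑ b, ν b + r * (J * (2 * S + 1)) = n) (u : Option Hd → ℕ)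
    (hu : ∀ o, ∑ i ∈ (range (5 * 2 ^ K' - 1)).filter (fun i => κ i = o), 2 ^ i +
      (if o = some b0 then 1 else 0) = u o) (g : Hd → ℕ)
    (hg : ∀ b, 4 * J * g b + 4 * u (some b) = ν b + r * u (some b)) {m τ h : ℕ}
    (hh : Fintype.card Hd = h) (hτ : ∀ b, ν b + r * J * (1 + (L + 1) * (q ^ 2 + h * q)) ≤ r * J * τ)
    (htop : r ^ 2 * (τ + L * ((L + 1) * q + 4 * h + 8)) + 4 * (h * q + 2 * q ^ (L + 2)) ≤ 4 * m)
    (hm : 4 * J * m + 4 * ∑ b, u (some b) + r * u none = n) :
    HasPH (r * (J * (2 * S + 1))) n := by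
  classical
  have hq1 : 1 ≤ q := by omega
  have hr1 : 1 ≤ r := by rw [hr]; exact Nat.one_le_pow _ _ hq1
  have hJ1 : 1 ≤ J := by rw [hJ]; exact Nat.one_le_two_pow
  have hJ0 : (J : ℤ) ≠ 0 := by exact_mod_cast (by omega : J ≠ 0)
  obtain ⟨Y, hY⟩ : ∃ Y, Y = (L + 1) * q + 4 * h + 8 := ⟨_, rfl⟩
  rw [← hY] at htop
  obtain ⟨D, zz, c, hD, hD0, hD1, hrow, htopD, hcol⟩ := solve hq1 L m (h * q)
  have hR0 := total_R0 hD hrow hcol
  -- the digits of the heads
  obtain ⟨w, hw⟩ : ∃ w : Hd → ℕ → ℕ, w = fun b i => if b = f then D 0 i -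
      ∑ b' ∈ univ.erase f, (g b' % r) / q ^ (L - i) % q else (g b % r) / q ^ (L - i) % q := ⟨_, rfl⟩
  have hwb : ∀ b ≠ f, ∀ i, w b i = (g b % r) / q ^ (L - i) % q := by
    intro b hbf i
    rw [hw]
    simp only [if_neg hbf]
  have hwle : ∀ i ≤ L, ∑ b' ∈ univ.erase f, (g b' % r) / q ^ (L - i) % q ≤ D 0 i := by
    intro i hi
    refine le_trans ?_ (hD0 i hi).1
    calc ∑ b' ∈ univ.erase f, (g b' % r) / q ^ (L - i) % q ≤ ∑ b' ∈ univ.erase f, q :=
          Finset.sum_le_sum fun b' _ => (Nat.mod_lt _ hq1).le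
      _ ≤ ∑ b' : Hd, q := Finset.sum_le_sum_of_subset (Finset.erase_subset _ _)
      _ = h * q := by rw [Finset.sum_const, Finset.card_univ, hh, smul_eq_mul]
  have hwsum : ∀ i ≤ L, ∑ b, w b i = D 0 i := by
    intro i hi
    rw [← Finset.add_sum_erase univ _ (mem_univ f)]
    have e1 : w f i = D 0 i - ∑ b' ∈ univ.erase f, (g b' % r) / q ^ (L - i) % q := by
      rw [hw]; simp only [if_true]
    have e2 : ∑ b ∈ univ.erase f, w b i = ∑ b' ∈ univ.erase f, (g b' % r) / q ^ (L - i) % q :=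
      Finset.sum_congr rfl fun b hb => hwb b (Finset.ne_of_mem_erase hb) i
    rw [e1, e2]
    exact Nat.sub_add_cancel (hwle i hi)
  have hwD : ∀ b, ∀ i ≤ L, w b i ≤ D 0 i := by
    intro b i hi
    rw [← hwsum i hi]
    exact Finset.single_le_sum (f := fun b => w b i) (fun _ _ => Nat.zero_le _) (mem_univ b)
  have hwS : ∀ b, ∑ i ∈ range (L + 1), w b i ≤ (L + 1) * (q ^ 2 + h * q) := by
    intro b
    calc ∑ i ∈ range (L + 1), w b i ≤ ∑ i ∈ range (L + 1), (q ^ 2 + h * q) := by
          refine Finset.sum_le_sum fun i hi => ?_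
          have hi' : i ≤ L := by rw [mem_range] at hi; omega
          have := hwD b i hi'
          have := (hD0 i hi').2
          omega
      _ = (L + 1) * (q ^ 2 + h * q) := by rw [Finset.sum_const, card_range, smul_eq_mul]
  -- the numbers `R`
  obtain ⟨R, hR⟩ : ∃ R : Hd → ℕ, R = fun b => ∑ i ∈ range (L + 1), q ^ (L - i) * w b i := ⟨_, rfl⟩
  have hRb : ∀ b ≠ f, R b = g b % r := by
    intro b hbf
    rw [hR]
    simp only [hwb b hbf]
    rw [← Finset.sum_range_reflect]
    have e1 : ∀ p ∈ range (L + 1), q ^ (L - (L + 1 - 1 - p)) * ((g b % r) / q ^ (L - (L + 1 - 1 - p)) % q) =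
        q ^ p * ((g b % r) / q ^ p % q) := by
      intro p hp
      rw [mem_range] at hp
      have e2 : L - (L + 1 - 1 - p) = p := by omega
      rw [e2]
    rw [Finset.sum_congr rfl e1, digits_sum, ← hr, Nat.mod_mod]
  have hRsum : ∑ b, R b = ∑ i ∈ range (L + 1), q ^ (L - i) * D 0 i := by
    rw [hR]
    simp only []
    rw [Finset.sum_comm]
    refine Finset.sum_congr rfl fun i hi => ?_
    rw [← Finset.mul_sum, hwsum i (by rw [mem_range] at hi; omega)]
  -- the relation between the sums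
  have husum : ∑ b, u (some b) + u none = J := by
    have e1 : ∑ o, u o = J := by
      have e2 : ∑ o, u o = ∑ o, ∑ i ∈ (range (5 * 2 ^ K' - 1)).filter (fun i => κ i = o), 2 ^ i +
          ∑ o : Option Hd, (if o = some b0 then 1 else 0) := by
        rw [← Finset.sum_add_distrib]
        exact Finset.sum_congr rfl fun o _ => (hu o).symm
      rw [e2, Finset.sum_fiberwise (range (5 * 2 ^ K' - 1)) κ (fun i => 2 ^ i),
        Finset.sum_ite_eq' univ, if_pos (mem_univ _), Nat.geomSum_eq le_rfl, ← hJ]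
      omega
    rw [Fintype.sum_option] at e1
    omega
  have hmg : (2 : ℤ) * m = 2 * (∑ b, (g b : ℤ)) + r * S := by
    have e1 : ∑ b, (4 * J * g b + 4 * u (some b)) = ∑ b, (ν b + r * u (some b)) :=
      Finset.sum_congr rfl fun b _ => hg b
    rw [Finset.sum_add_distrib, Finset.sum_add_distrib, ← Finset.mul_sum, ← Finset.mul_sum,
      ← Finset.mul_sum] at e1
    have e2 : (4 : ℤ) * J * (∑ b, (g b : ℤ)) + 4 * (∑ b, (u (some b) : ℤ)) = ∑ b, (ν b : ℤ) +
        r * ∑ b, (u (some b) : ℤ) := by exact_mod_cast e1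
    have e3 : ∑ b, (ν b : ℤ) + r * (J * (2 * S + 1)) = n := by exact_mod_cast hn
    have e4 : (4 : ℤ) * J * m + 4 * ∑ b, (u (some b) : ℤ) + r * u none = n := by exact_mod_cast hm
    have e5 : ∑ b, (u (some b) : ℤ) + u none = J := by exact_mod_cast husum
    have e6 : (2 * J : ℤ) * (2 * m) = (2 * J) * (2 * (∑ b, (g b : ℤ)) + r * S) := by
      linear_combination e4 - e2 - e3 - (r : ℤ) * e5
    exact mul_left_cancel₀ (by positivity) e6
  -- the top row
  obtain ⟨Z, hZ⟩ : ∃ Z, Z = ∑ j ∈ range (L + 1), q ^ j * D j L := ⟨_, rfl⟩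
  rw [← hZ] at htopD hR0
  have hZle : Z ≤ h * q + 2 * q ^ (L + 2) := by
    rw [hZ]
    exact row_le hq2 le_rfl (fun i hi => (hD0 i hi).2) hD1
  have hZm : Z ≤ m := by
    have : 4 * Z ≤ 4 * m := by
      have : 0 ≤ r ^ 2 * (τ + L * Y) := Nat.zero_le _
      omega
    omega
  obtain ⟨ω, hω⟩ : ∃ ω, m = Z + r * ω := by
    have := (Nat.modEq_iff_dvd' hZm).1 htopD
    obtain ⟨ω, hω⟩ := this
    refine ⟨ω, ?_⟩
    rw [hr]
    omega
  -- divisibility
  have hdvd : ∀ b, (r : ℤ) ∣ 4 * ((R b : ℤ) - g b) := by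
    intro b
    by_cases hbf : b = f
    · subst hbf
      have e1 : (∑ b', (R b' : ℤ)) = (Z : ℤ) + r * ∑ i ∈ range L, (zz i : ℤ) -
          r * ∑ j ∈ range L, (c (j + 1) : ℤ) := by
        have e2 : (∑ b', R b') + r * ∑ j ∈ range L, c (j + 1) = Z + r * ∑ i ∈ range L, zz i := by
          rw [hRsum, hr]; exact hR0
        have e3 : (∑ b', (R b' : ℤ)) + r * ∑ j ∈ range L, (c (j + 1) : ℤ) =
          (Z : ℤ) + r * ∑ i ∈ range L, (zz i : ℤ) := by exact_mod_cast e2
        linarith
      have e4 : (∑ b', (R b' : ℤ)) = R b + ∑ b' ∈ univ.erase b, (R b' : ℤ) :=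
        (Finset.add_sum_erase univ _ (mem_univ b)).symm
      have e5 : (∑ b', (g b' : ℤ)) = g b + ∑ b' ∈ univ.erase b, (g b' : ℤ) :=
        (Finset.add_sum_erase univ _ (mem_univ b)).symm
      have e6 : ∑ b' ∈ univ.erase b, (g b' : ℤ) = ∑ b' ∈ univ.erase b, (R b' : ℤ) +
          r * ∑ b' ∈ univ.erase b, ((g b' / r : ℕ) : ℤ) := by
        rw [Finset.mul_sum, ← Finset.sum_add_distrib]
        refine Finset.sum_congr rfl fun b' hb' => ?_
        rw [hRb b' (Finset.ne_of_mem_erase hb')]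
        exact_mod_cast (Nat.mod_add_div (g b') r).symm
      have e7 : (m : ℤ) = Z + r * ω := by exact_mod_cast hω
      refine ⟨2 * (2 * (∑ i ∈ range L, (zz i : ℤ)) - 2 * (∑ j ∈ range L, (c (j + 1) : ℤ)) - 2 * ω + S +
        2 * ∑ b' ∈ univ.erase b, ((g b' / r : ℕ) : ℤ)), ?_⟩
      linear_combination (-4 : ℤ) * e4 + 4 * e1 + 4 * e5 + 2 * hmg - 4 * e7 + 4 * e6
    · rw [hRb b hbf]
      refine ⟨-(4 * ((g b / r : ℕ) : ℤ)), ?_⟩
      have : (g b : ℤ) = ((g b % r : ℕ) : ℤ) + r * ((g b / r : ℕ) : ℤ) := by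
        exact_mod_cast (Nat.mod_add_div (g b) r).symm
      linear_combination (-4 : ℤ) * this
  -- the weights of the projections to the heads
  have hM : ∀ b, ∃ M : ℕ, (r : ℤ) * M = r * τ - r * (∑ i ∈ range (L + 1), (w b i : ℤ)) +
      4 * ((R b : ℤ) - g b) := by
    intro b
    obtain ⟨t, ht⟩ := hdvd b
    have e1 : (0 : ℤ) ≤ τ - (∑ i ∈ range (L + 1), (w b i : ℤ)) + t := by
      have e2 : (4 : ℤ) * J * g b + 4 * u (some b) = ν b + r * u (some b) := by exact_mod_cast hg b
      have e3 : (ν b : ℤ) + r * J * (1 + (L + 1) * (q ^ 2 + h * q)) ≤ r * J * τ := by exact_mod_cast hτ b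
      have e4 : ((∑ i ∈ range (L + 1), (w b i : ℤ))) ≤ (L + 1) * (q ^ 2 + h * q) := by
        exact_mod_cast hwS b
      have e5 : (u (some b) : ℤ) ≤ J := by
        have : u (some b) ≤ ∑ b, u (some b) :=
          Finset.single_le_sum (f := fun b => u (some b)) (fun _ _ => Nat.zero_le _) (mem_univ b)
        exact_mod_cast (by omega : u (some b) ≤ J)
      have e6 : (0 : ℤ) ≤ R b := by positivity
      have e7 : (0 : ℤ) ≤ u (some b) := by positivity
      have e8 : (0 : ℤ) < r * J := by positivity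
      have e9 : (0 : ℤ) ≤ (r * J) * (τ - (∑ i ∈ range (L + 1), (w b i : ℤ)) + t) := by
        have f1 : (r * J : ℤ) * (τ - (∑ i ∈ range (L + 1), (w b i : ℤ)) + t) = r * J * τ -
            r * J * (∑ i ∈ range (L + 1), (w b i : ℤ)) + 4 * J * R b - (ν b + r * u (some b) -
              4 * u (some b)) := by
          linear_combination (-(J : ℤ)) * ht - e2
        rw [f1]
        have f2 : (r * J : ℤ) * (∑ i ∈ range (L + 1), (w b i : ℤ)) ≤
            r * J * ((L + 1) * (q ^ 2 + h * q)) := mul_le_mul_of_nonneg_left e4 e8.le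
        have f3 : (r : ℤ) * u (some b) ≤ r * J := mul_le_mul_of_nonneg_left e5 (by positivity)
        have f4 : (0 : ℤ) ≤ 4 * J * R b := by positivity
        nlinarith
      exact nonneg_of_mul_nonneg_right e9 e8
    obtain ⟨M, hM⟩ := Int.eq_ofNat_of_zero_le e1
    refine ⟨M, ?_⟩
    rw [ht, ← hM]
    ring
  choose M hM using hM
  -- the classes `C`
  have hz : ∀ i < L, zz i ≤ h + 2 * q := by
    intro i hi
    have e1 := row_le hq2 hi.le (fun i hi => (hD0 i hi).2) hD1
    rw [hrow i hi] at e1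
    have e2 : 0 < q ^ (i + 1) := by positivity
    apply Nat.le_of_mul_le_mul_left _ e2
    refine e1.trans ?_
    have e3 : q ≤ q ^ (i + 1) := Nat.le_self_pow (by omega) q
    calc h * q + 2 * q ^ (i + 2) ≤ h * q ^ (i + 1) + 2 * q ^ (i + 2) :=
          Nat.add_le_add_right (Nat.mul_le_mul_left _ e3) _
      _ = q ^ (i + 1) * (h + 2 * q) := by ring
  have hC : ∀ i, ∃ C : ℕ, i < L → (C : ℤ) + 4 * zz i + ∑ i' ∈ range (L + 1), (D (i + 1) i' : ℤ) -
      4 * c (i + 1) = (q : ℤ) ^ (i + 1) * Y := by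
    intro i
    by_cases hi : i < L
    · have e1 := hz i hi
      have e2 : ∑ i' ∈ range (L + 1), D (i + 1) i' ≤ (L + 1) * q ^ 2 := by
        calc ∑ i' ∈ range (L + 1), D (i + 1) i' ≤ ∑ i' ∈ range (L + 1), q ^ 2 :=
              Finset.sum_le_sum fun i' _ => hD1 _ _ (by omega)
          _ = (L + 1) * q ^ 2 := by rw [Finset.sum_const, card_range, smul_eq_mul]
      have e3 : 4 * zz i + ∑ i' ∈ range (L + 1), D (i + 1) i' ≤ q ^ (i + 1) * Y := by
        have f1 : q * Y ≤ q ^ (i + 1) * Y := Nat.mul_le_mul_right _ (Nat.le_self_pow (by omega) q)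
        have f2 : q * Y = (L + 1) * q ^ 2 + 4 * (h * q) + 8 * q := by rw [hY]; ring
        have f3 : h ≤ h * q := Nat.le_mul_of_pos_right _ (by omega)
        omega
      refine ⟨q ^ (i + 1) * Y + 4 * c (i + 1) - (4 * zz i + ∑ i' ∈ range (L + 1), D (i + 1) i'),
        fun _ => ?_⟩
      rw [Nat.cast_sub (by omega)]
      push_cast
      ring
    · exact ⟨0, fun h => absurd h hi⟩
  choose C hC using hC
  obtain ⟨CL, hCL⟩ : ∃ CL : ℕ, CL + r * (τ + L * Y) = 4 * ω := by
    have e1 : r * (τ + L * Y) ≤ 4 * ω := by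
      have e2 : r * (r * (τ + L * Y)) ≤ r * (4 * ω) := by
        have e3 : r * (r * (τ + L * Y)) = r ^ 2 * (τ + L * Y) := by ring
        have e4 : r * (4 * ω) = 4 * (r * ω) := by ring
        rw [e3, e4]
        omega
      exact Nat.le_of_mul_le_mul_left e2 hr1
    exact ⟨4 * ω - r * (τ + L * Y), by omega⟩
  obtain ⟨C', hC'⟩ : ∃ C' : ℕ → ℕ, C' = fun i => if i = L then CL else C i := ⟨_, rfl⟩
  have hrZ : (r : ℤ) = (q : ℤ) ^ (L + 1) := by exact_mod_cast hr
  have hrZ2 : (q : ℤ) ^ (2 * (L + 1)) = (r : ℤ) * r := by rw [hrZ, ← pow_add]; congr 1; ring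
  have hlev := fun s (hs : s ≤ L) => level_eq (q := (q : ℤ)) (L := L) (D := fun j i => (D j i : ℤ))
    (z := fun i => (zz i : ℤ)) (c := fun i => (c i : ℤ)) (C := fun i => (C' i : ℤ)) (m := (m : ℤ))
    (τ := (τ : ℤ)) (Y := (Y : ℤ)) (fun j i hji => by simp only [hD j i hji, Nat.cast_zero])
    (fun i hi => by exact_mod_cast hrow i hi) (fun j h1 h2 => by exact_mod_cast hcol j h1 h2)
    (fun i hi => by
      have e1 : C' i = C i := by rw [hC']; simp only [if_neg (show i ≠ L by omega)]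
      simp only [e1]
      exact hC i hi)
    (by
      have e1 : C' L = CL := by rw [hC']; simp only [if_true]
      simp only [e1]
      have e2 : (CL : ℤ) + r * (τ + L * Y) = 4 * ω := by exact_mod_cast hCL
      have e3 : (m : ℤ) = Z + r * ω := by exact_mod_cast hω
      have e4 : (Z : ℤ) = ∑ j ∈ range (L + 1), (q : ℤ) ^ j * (D j L : ℤ) := by exact_mod_cast hZ
      rw [hrZ2, ← hrZ, ← e4]
      linear_combination (r : ℤ) * e2 - 4 * e3) hs
  -- the weights of the projections
  obtain ⟨WM, hWM⟩ : ∃ WM : (Fin (L + 1) → V) → ℕ, (∀ b, WM (hdf z L v b) = M b) ∧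
      ∀ a, (∀ b, a ≠ hdf z L v b) → WM a = τ + lv z a * Y := by
    refine ⟨fun a => if h : ∃ b, a = hdf z L v b then M h.choose else τ + lv z a * Y,
      fun b => ?_, fun a ha => ?_⟩
    · have hex : ∃ b', hdf z L v b = hdf z L v b' := ⟨b, rfl⟩
      simp only [dif_pos hex]
      have := hdf_inj hv hex.choose_spec
      rw [← this]
    · have hex : ¬∃ b, a = hdf z L v b := fun ⟨b, h⟩ => ha b h
      simp only [dif_neg hex]
  have hmZ : (4 : ℤ) * J * m + 4 * ∑ b, (u (some b) : ℤ) + r * u none = n := by exact_mod_cast hm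
  have hfin := cls_thm hb hq v b0 hK' hJ hPU hj κ WM C' (WD := D) w hD ν hH (n := n)
    (by rw [← hr]; exact hn) u hu (fun a => by
      have hla := lv_le (z := z) a
      have e0 := hlev (lv z a) hla
      rw [← hrZ, Fintype.sum_option]
      by_cases ha : ∃ b1, a = hdf z L v b1
      · obtain ⟨b1, rfl⟩ := ha
        rw [hWM.1 b1]
        rw [lv_hdf] at e0 ⊢
        have hinj : ∀ b, (hdf z L v b1 = hdf z L v b) ↔ b1 = b := fun b =>
          ⟨fun h => hdf_inj hv h, fun h => by rw [h]⟩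
        have hev : ∀ i, ev (q : ℤ) L 0 i = (q : ℤ) ^ (L - i) := fun i => by
          unfold ev; rw [if_pos (Nat.zero_le _)]
        have e1 : ∑ b, (u (some b) : ℤ) * Phi q L z v (hdf z L v b1) (some b) =
            4 * ∑ b, (u (some b) : ℤ) + (u (some b1) : ℤ) * ((r : ℤ) * r - 4 * r) := by
          have f1 : ∀ b, (u (some b) : ℤ) * Phi q L z v (hdf z L v b1) (some b) =
              4 * (u (some b) : ℤ) + (if b1 = b then (u (some b) : ℤ) * ((r : ℤ) * r - 4 * r) else 0) := by
            intro b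
            unfold Phi
            simp only [hinj]
            rw [← hrZ]
            by_cases h1 : b1 = b
            · rw [if_pos h1, if_pos h1]; ring
            · rw [if_neg h1, if_neg h1]; ring
          rw [Finset.sum_congr rfl fun b _ => f1 b, Finset.sum_add_distrib, ← Finset.mul_sum,
            Finset.sum_ite_eq univ, if_pos (mem_univ _)]
        have e2 : ∑ b, ∑ i ∈ range (L + 1), (w b i : ℤ) *
            ((if hdf z L v b1 = hdf z L v b then (r : ℤ) else 0) - 2 * ev q L 0 i) ^ 2 =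
            ∑ i ∈ range (L + 1), (D 0 i : ℤ) * (4 * ev q L 0 i ^ 2) +
              ((r : ℤ) * r * (∑ i ∈ range (L + 1), (w b1 i : ℤ)) - 4 * r * R b1) := by
          have f1 : ∀ b, ∑ i ∈ range (L + 1), (w b i : ℤ) *
              ((if hdf z L v b1 = hdf z L v b then (r : ℤ) else 0) - 2 * ev q L 0 i) ^ 2 =
              ∑ i ∈ range (L + 1), (w b i : ℤ) * (4 * ev q L 0 i ^ 2) +
              (if b1 = b then ((r : ℤ) * r * (∑ i ∈ range (L + 1), (w b i : ℤ)) - 4 * r * R b) else 0) := by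
            intro b
            simp only [hinj]
            by_cases h1 : b1 = b
            · simp only [if_pos h1]
              rw [hR]
              push_cast
              rw [Finset.mul_sum, Finset.mul_sum, ← Finset.sum_sub_distrib, ← Finset.sum_add_distrib]
              refine Finset.sum_congr rfl fun i _ => ?_
              rw [hev]
              ring
            · simp only [if_neg h1, add_zero]
              refine Finset.sum_congr rfl fun i _ => ?_
              ring
          rw [Finset.sum_congr rfl fun b _ => f1 b, Finset.sum_add_distrib, Finset.sum_ite_eq univ,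
            if_pos (mem_univ _), Finset.sum_comm]
          congr 1
          refine Finset.sum_congr rfl fun i hi => ?_
          rw [← Finset.sum_mul]
          congr 1
          exact_mod_cast hwsum i (by rw [mem_range] at hi; omega)
        have e3 : ∑ b, (ν b : ℤ) * (if hdf z L v b1 = hdf z L v b then (r : ℤ) else 0) = ν b1 * r := by
          have f1 : ∀ b, (ν b : ℤ) * (if hdf z L v b1 = hdf z L v b then (r : ℤ) else 0) =
              if b1 = b then (ν b : ℤ) * r else 0 := by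
            intro b
            simp only [hinj]
            by_cases h1 : b1 = b
            · rw [if_pos h1, if_pos h1]
            · rw [if_neg h1, if_neg h1, mul_zero]
          rw [Finset.sum_congr rfl fun b _ => f1 b, Finset.sum_ite_eq univ, if_pos (mem_univ _)]
        have e4 : Phi q L z v (hdf z L v b1) none = r := by unfold Phi; rw [hrZ]
        have e5 := hM b1
        have e6 : (4 : ℤ) * J * g b1 + 4 * u (some b1) = ν b1 + r * u (some b1) := by
          exact_mod_cast hg b1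
        rw [e1, e2, e3, e4]
        rw [hrZ2] at e0 ⊢
        push_cast at e0
        linear_combination (J : ℤ) * e0 + hmZ + (J : ℤ) * r * e5 - r * e6
      · have hne : ∀ b, a ≠ hdf z L v b := fun b h => ha ⟨b, h⟩
        rw [hWM.2 a hne]
        have e1 : ∑ b, (u (some b) : ℤ) * Phi q L z v a (some b) = 4 * ∑ b, (u (some b) : ℤ) := by
          rw [Finset.mul_sum]
          refine Finset.sum_congr rfl fun b _ => ?_
          unfold Phi
          simp only [if_neg (hne b)]
          ring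
        have e2 : ∑ b, ∑ i ∈ range (L + 1), (w b i : ℤ) *
            ((if a = hdf z L v b then (r : ℤ) else 0) - 2 * ev q L (lv z a) i) ^ 2 =
            ∑ i ∈ range (L + 1), (D 0 i : ℤ) * (4 * ev q L (lv z a) i ^ 2) := by
          rw [Finset.sum_comm]
          refine Finset.sum_congr rfl fun i hi => ?_
          have f1 : ∀ b, (w b i : ℤ) * ((if a = hdf z L v b then (r : ℤ) else 0) -
              2 * ev q L (lv z a) i) ^ 2 = (w b i : ℤ) * (4 * ev q L (lv z a) i ^ 2) := by
            intro b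
            rw [if_neg (hne b)]
            ring
          rw [Finset.sum_congr rfl fun b _ => f1 b, ← Finset.sum_mul]
          congr 1
          exact_mod_cast hwsum i (by rw [mem_range] at hi; omega)
        have e3 : ∑ b, (ν b : ℤ) * (if a = hdf z L v b then (r : ℤ) else 0) = 0 :=
          Finset.sum_eq_zero fun b _ => by rw [if_neg (hne b), mul_zero]
        have e4 : Phi q L z v a none = r := by unfold Phi; rw [hrZ]
        rw [e1, e2, e3, e4]
        push_cast
        linear_combination (J : ℤ) * e0 + hmZ)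
  rw [← hr] at hfin
  exact hfin

end sol

end Pool.Agent.H31.PH
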